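import Mathlib

/-!
# Primitives on convex open sets
-/

set_option autoImplicit false

open MeasureTheory Filter Topology Set Complex

namespace Pool.Agent.TH942.SL

/-- holomorphic functions on convex open sets have primitives -/
theorem convex_primitive {U : Set ℂ} (hU : IsOpen U) (hc : Convex ℝ U) {f : ℂ → ℂ}
    (hf : DifferentiableOn ℂ f U) : ∃ F : ℂ → ℂ, ∀ z ∈ U, HasDerivAt F (f z) z := by
  rcases U.eq_empty_or_nonempty with h | ⟨z₀, hz₀⟩
  · exact ⟨0, fun z hz => by rw [h] at hz; exact hz.elim⟩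
  have hseg : ∀ z ∈ U, ∀ t ∈ Icc (0 : ℝ) 1, z₀ + t * (z - z₀) ∈ U := by
    intro z hz t ht
    have := hc hz₀ hz (a := 1 - t) (b := t) (by linarith [ht.2]) ht.1 (by ring)
    have e : (1 - t) • z₀ + t • z = z₀ + t * (z - z₀) := by
      rw [Complex.real_smul, Complex.real_smul]
      push_cast
      ring
    rwa [e] at this
  have hd : ∀ z ∈ U, DifferentiableAt ℂ f z := fun z hz => (hf z hz).differentiableAt (hU.mem_nhds hz)
  have hdd : ∀ z ∈ U, ContinuousAt (deriv f) z := fun z hz =>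
    (hf.deriv hU z hz).differentiableAt (hU.mem_nhds hz) |>.continuousAt
  refine ⟨fun z => ∫ t in (0 : ℝ)..1, (z - z₀) * f (z₀ + t * (z - z₀)), fun z hz => ?_⟩
  obtain ⟨r, hr, hball⟩ := Metric.isOpen_iff.1 hU z hz
  set K : Set ℂ := Metric.closedBall z (r / 2) with hK
  have hKU : K ⊆ U := (Metric.closedBall_subset_ball (by linarith)).trans hball
  -- the compact set swept by the segments
  set A : Set ℂ := (fun q : ℝ × ℂ => z₀ + q.1 * (q.2 - z₀)) '' (Icc (0 : ℝ) 1 ×ˢ K) with hA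
  have hAc : IsCompact A :=
    (isCompact_Icc.prod (isCompact_closedBall z (r / 2))).image (by fun_prop)
  have hAU : A ⊆ U := by
    rintro _ ⟨⟨t, w⟩, ⟨ht, hw⟩, rfl⟩
    exact hseg w (hKU hw) t ht
  obtain ⟨C₀, hC₀⟩ := hAc.exists_bound_of_continuousOn (f := f) fun x hx =>
    (hd x (hAU hx)).continuousAt.continuousWithinAt
  obtain ⟨C₁, hC₁⟩ := hAc.exists_bound_of_continuousOn (f := deriv f) fun x hx =>
    (hdd x (hAU hx)).continuousWithinAt
  have hline : ∀ w ∈ U, ContinuousOn (fun t : ℝ => f (z₀ + t * (w - z₀))) (Icc 0 1) := by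
    intro w hw t ht
    have h1 : ContinuousAt f (z₀ + t * (w - z₀)) := (hd _ (hseg w hw t ht)).continuousAt
    exact (ContinuousAt.comp (f := fun t : ℝ => z₀ + t * (w - z₀)) h1
      (by fun_prop)).continuousWithinAt
  have hline' : ∀ w ∈ U, ContinuousOn (fun t : ℝ => deriv f (z₀ + t * (w - z₀))) (Icc 0 1) := by
    intro w hw t ht
    have h1 : ContinuousAt (deriv f) (z₀ + t * (w - z₀)) := hdd _ (hseg w hw t ht)
    exact (ContinuousAt.comp (f := fun t : ℝ => z₀ + t * (w - z₀)) h1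
      (by fun_prop)).continuousWithinAt
  have hu : uIoc (0 : ℝ) 1 = Ioc 0 1 := uIoc_of_le zero_le_one
  have hcc : ∀ g : ℝ → ℂ, ContinuousOn g (Icc 0 1) →
      AEStronglyMeasurable g (volume.restrict (uIoc 0 1)) := fun g hg => by
    rw [hu]
    exact (hg.mono Ioc_subset_Icc_self).aestronglyMeasurable measurableSet_Ioc
  have hg1 : ∀ w ∈ U, ContinuousOn (fun t : ℝ => (w - z₀) * f (z₀ + t * (w - z₀))) (Icc 0 1) :=
    fun w hw => continuousOn_const.mul (hline w hw)
  have hg2 : ∀ w ∈ U, ContinuousOn (fun t : ℝ => 1 * f (z₀ + t * (w - z₀)) +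
      (w - z₀) * (deriv f (z₀ + t * (w - z₀)) * (t * 1))) (Icc 0 1) :=
    fun w hw => (continuousOn_const.mul (hline w hw)).add
      (continuousOn_const.mul ((hline' w hw).mul (by fun_prop)))
  have key := intervalIntegral.hasDerivAt_integral_of_dominated_loc_of_deriv_le (μ := volume)
    (a := 0) (b := 1) (F := fun (w : ℂ) (t : ℝ) => (w - z₀) * f (z₀ + t * (w - z₀)))
    (F' := fun (w : ℂ) (t : ℝ) => 1 * f (z₀ + t * (w - z₀)) +
      (w - z₀) * (deriv f (z₀ + t * (w - z₀)) * (t * 1))) (x₀ := z) (s := K)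
    (bound := fun _ => C₀ + (‖z‖ + r / 2 + ‖z₀‖) * (C₁ * 1))
    (Metric.closedBall_mem_nhds z (by positivity))
    (by
      filter_upwards [hU.mem_nhds hz] with w hw
      exact hcc _ (hg1 w hw))
    ((hg1 z hz).intervalIntegrable_of_Icc zero_le_one)
    (hcc _ (hg2 z hz))
    (ae_of_all _ fun t ht w hw => by
      rw [hu] at ht
      have ht' : t ∈ Icc (0 : ℝ) 1 := ⟨ht.1.le, ht.2⟩
      have hm : z₀ + t * (w - z₀) ∈ A := ⟨(t, w), ⟨ht', hw⟩, rfl⟩
      have e1 := hC₀ _ hm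
      have e2 := hC₁ _ hm
      have e3 : ‖w - z₀‖ ≤ ‖z‖ + r / 2 + ‖z₀‖ := by
        have h1 : ‖w - z‖ ≤ r / 2 := by rwa [hK, Metric.mem_closedBall, Complex.dist_eq] at hw
        calc ‖w - z₀‖ = ‖(w - z) + z - z₀‖ := by ring_nf
          _ ≤ ‖w - z‖ + ‖z‖ + ‖z₀‖ := (norm_sub_le _ _).trans (by gcongr; exact norm_add_le _ _)
          _ ≤ _ := by linarith
      have e4 : ‖((t : ℂ) * 1)‖ ≤ 1 := by
        rw [mul_one, Complex.norm_real, Real.norm_eq_abs, abs_of_pos ht.1]
        exact ht.2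
      refine (norm_add_le _ _).trans (add_le_add (by rw [one_mul]; exact e1) ?_)
      rw [norm_mul, norm_mul]
      have e5 : 0 ≤ C₁ := (norm_nonneg _).trans e2
      exact mul_le_mul e3 (mul_le_mul e2 e4 (norm_nonneg _) e5) (by positivity)
        ((norm_nonneg _).trans e3))
    intervalIntegrable_const
    (ae_of_all _ fun t ht w hw => by
      rw [hu] at ht
      have ht' : t ∈ Icc (0 : ℝ) 1 := ⟨ht.1.le, ht.2⟩
      have h1 : HasDerivAt (fun w : ℂ => z₀ + t * (w - z₀)) (t * 1) w :=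
        (((hasDerivAt_id w).sub_const z₀).const_mul (t : ℂ)).const_add z₀
      have h2 : HasDerivAt f (deriv f (z₀ + t * (w - z₀))) (z₀ + t * (w - z₀)) :=
        (hd _ (hseg w (hKU hw) t ht')).hasDerivAt
      have h3 := HasDerivAt.comp w h2 h1
      exact ((hasDerivAt_id w).sub_const z₀).mul h3)
  refine key.2.congr_deriv ?_
  -- fundamental theorem of calculus
  have h1 : ∀ t ∈ uIcc (0 : ℝ) 1, HasDerivAt (fun t : ℝ => (t : ℂ) * f (z₀ + t * (z - z₀)))
      (1 * f (z₀ + t * (z - z₀)) + (z - z₀) * (deriv f (z₀ + t * (z - z₀)) * (t * 1))) t := by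
    intro t ht
    rw [uIcc_of_le zero_le_one] at ht
    have e0 : HasDerivAt (fun t : ℝ => (t : ℂ)) 1 t := (hasDerivAt_id t).ofReal_comp
    have e1 : HasDerivAt (fun t : ℝ => z₀ + t * (z - z₀)) (1 * (z - z₀)) t :=
      (e0.mul_const _).const_add z₀
    have e2 : HasDerivAt f (deriv f (z₀ + t * (z - z₀))) (z₀ + t * (z - z₀)) :=
      (hd _ (hseg z hz t ht)).hasDerivAt
    have e3 := HasDerivAt.comp t e2 e1
    refine (e0.mul e3).congr_deriv ?_
    simp only [Function.comp]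
    ring
  have h2 := intervalIntegral.integral_eq_sub_of_hasDerivAt h1
    ((hg2 z hz).intervalIntegrable_of_Icc zero_le_one)
  rw [h2]
  simp

end Pool.Agent.TH942.SL
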