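import Pool.Agent.TH942.SL.Final

/-!
# The exact exponent of growth of the means
-/

set_option autoImplicit false

open MeasureTheory Filter Topology Set Complex
open Pool.Agent.TH942.LS (Dat P P_le Cont Qf)

namespace Pool.Agent.TH942.SL

variable {α : ℝ} {lam c : ℕ → ℝ} {δ σ : ℝ} {Ψ Kf : ℂ → ℂ}

lemma qf_diff_a (H : Cont lam c σ 0 Ψ Kf) (h0 : 0 < α) (h1 : α < 1) {v : ℂ} (hv : 0 < v.re)
    (hne : Ψ (v ^ (α : ℂ)) ≠ 0) : DifferentiableAt ℂ (qf Ψ Kf α) v := by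
  have hp : DifferentiableAt ℂ (fun v : ℂ => v ^ (α : ℂ)) v :=
    (pow_deriv (slit hv)).differentiableAt
  have hre := re_pow_pos h0 h1 hv
  have e1 : DifferentiableAt ℂ (fun v : ℂ => v ^ ((α : ℂ) - 1)) v :=
    differentiableAt_id.cpow_const (slit hv)
  have e2 : DifferentiableAt ℂ (Qf Ψ Kf) (v ^ (α : ℂ)) := by
    unfold Qf
    exact ((H.analytic hre).deriv.differentiableAt.div (H.Ψd _ hre) hne).sub (H.Kd _ hre)
  have e3 : DifferentiableAt ℂ (fun v : ℂ => Qf Ψ Kf (v ^ (α : ℂ))) v :=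
    DifferentiableAt.comp (f := fun v : ℂ => v ^ (α : ℂ)) v e2 hp
  exact ((e1.const_mul (α : ℂ)).mul e3).neg

/-- the primitive to the right of `a` -/
theorem exists_f_a (D : Dat lam c δ σ) (H : Cont lam c σ 0 Ψ Kf) (h0 : 0 < α) (h1 : α < 1)
    {a : ℝ} (ha : 0 ≤ a) (hne : ∀ v : ℂ, a < v.re → Ψ (v ^ (α : ℂ)) ≠ 0) {x₀ : ℝ} (hx1 : 1 ≤ x₀)
    (hax : a ≤ x₀) (hx₀ : ∀ z : ℂ, 0 < z.re → x₀ ≤ ‖z‖ → σ + 1 ≤ kap α * ‖z‖ ^ α) :
    ∃ f : ℂ → ℂ, (∀ v : ℂ, a < v.re → HasDerivAt f (qf Ψ Kf α v) v) ∧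
      ∀ v : ℂ, a < v.re → x₀ ≤ ‖v‖ → f v = f₀ lam c α v := by
  have hUo : IsOpen {v : ℂ | a < v.re} := isOpen_lt continuous_const Complex.continuous_re
  obtain ⟨F, hF⟩ := convex_primitive hUo (convex_halfSpace_re_gt a) (f := qf Ψ Kf α)
    fun v hv => (qf_diff_a H h0 h1 (lt_of_le_of_lt ha hv) (hne v hv)).differentiableWithinAt
  set W : Set ℂ := {v | x₀ < v.re} with hW
  have hWo : IsOpen W := isOpen_lt continuous_const Complex.continuous_re
  have hWc : Convex ℝ W := convex_halfSpace_re_gt x₀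
  set w₀ : ℂ := ((x₀ + 1 : ℝ) : ℂ) with hw₀
  have hw₀W : w₀ ∈ W := by
    change x₀ < w₀.re
    rw [hw₀, Complex.ofReal_re]
    linarith
  set f : ℂ → ℂ := fun v => F v + (f₀ lam c α w₀ - F w₀) with hf
  have hfd : ∀ v : ℂ, a < v.re → HasDerivAt f (qf Ψ Kf α v) v := fun v hv =>
    (hF v hv).add_const _
  have hd : ∀ v : ℂ, a < v.re → x₀ ≤ ‖v‖ → HasDerivAt (fun v => f v - f₀ lam c α v) 0 v := by
    intro v hva hv2
    have hv : 0 < v.re := lt_of_le_of_lt ha hva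
    have e0 := hx₀ v hv hv2
    have e1 := re_pow_ge h0 h1 hv
    refine ((hfd v hva).sub (f₀_deriv D hv (by linarith))).congr_deriv ?_
    rw [qf_far H h0 h1 hv e0, sub_self]
  have hWx : ∀ v ∈ W, a < v.re ∧ x₀ ≤ ‖v‖ := fun v hv => by
    have hv' : x₀ < v.re := hv
    exact ⟨by linarith, hv'.le.trans (re_le_norm v)⟩
  have hWeq : ∀ v ∈ W, f v - f₀ lam c α v = 0 := by
    intro v hv
    have e1 : f w₀ - f₀ lam c α w₀ = 0 := by
      rw [hf]
      simp only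
      ring
    rw [← e1]
    refine hWc.is_const_of_fderivWithin_eq_zero (𝕜 := ℂ) (f := fun v => f v - f₀ lam c α v)
      (fun z hz => (hd z (hWx z hz).1 (hWx z hz).2).differentiableAt.differentiableWithinAt)
      (fun z hz => ?_) hv hw₀W
    rw [fderivWithin_of_isOpen hWo hz]
    ext
    simp [(hd z (hWx z hz).1 (hWx z hz).2).deriv]
  refine ⟨f, hfd, fun v hva hv2 => ?_⟩
  have hv : 0 < v.re := lt_of_le_of_lt ha hva
  have hT : (0 : ℝ) ≤ x₀ := by linarith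
  have h2 := horiz (f := fun v => f v - f₀ lam c α v) (f' := fun _ => 0) (v := v) hT
    (B := fun _ => 0) (B' := fun _ => 0)
    (fun τ hτ => hd _ (by simp; linarith [hτ.1]) (hv2.trans (norm_add_real hv hτ.1)))
    (fun τ _ => hasDerivAt_const _ _) (fun τ _ => by simp)
  simp only [sub_self] at h2
  have h3 : v + (x₀ : ℂ) ∈ W := by
    change x₀ < (v + (x₀ : ℂ)).re
    rw [Complex.add_re, Complex.ofReal_re]
    linarith
  rw [hWeq _ h3, zero_sub, norm_neg] at h2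
  exact sub_eq_zero.1 (norm_le_zero_iff.1 h2)

/-- **The upper bound for the means.** -/
theorem up_a (D : Dat lam c δ σ) (H : Cont lam c σ 0 Ψ Kf) (h0 : 0 < α) (h1 : α < 1)
    {a : ℝ} (ha : 0 ≤ a) (hne : ∀ v : ℂ, a < v.re → Ψ (v ^ (α : ℂ)) ≠ 0) {c₀ : ℝ} (hc : a < c₀) :
    ∃ C : ℝ, ∀ y : ℝ, 1 ≤ y → |M lam c α y| ≤ C * Real.exp (c₀ * y) := by
  obtain ⟨x₁, hx11, hx₁⟩ := exists_abscissa h0 h1 σ
  set x₀ : ℝ := max x₁ c₀ with hx0
  have hx1 : 1 ≤ x₀ := hx11.trans (le_max_left _ _)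
  have hc0x : c₀ ≤ x₀ := le_max_right _ _
  have hx₀ : ∀ z : ℂ, 0 < z.re → x₀ ≤ ‖z‖ → σ + 1 ≤ kap α * ‖z‖ ^ α := fun z hz hz2 =>
    hx₁ z hz ((le_max_left _ _).trans hz2)
  have hx00 : 0 < x₀ := by linarith
  have hc00 : 0 < c₀ := lt_of_le_of_lt ha hc
  obtain ⟨f, hf, hff⟩ := exists_f_a D H h0 h1 ha hne hx1 (hc.le.trans hc0x) hx₀
  have hS := S₀_nonneg lam c σ
  have hδ := D.δ0
  set p : ℝ := 2 - α with hp
  have hp1 : 1 < p := by rw [hp]; linarith
  have hp0 : 0 ≤ p := by linarith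
  set h : ℂ → ℂ := hh f (qf Ψ Kf α) with hh'
  have hhd : ∀ z : ℂ, a < z.re → DifferentiableAt ℂ h z := fun z hz =>
    hh_diff (lt_of_le_of_lt ha hz) (hf z hz).differentiableAt
      (qf_diff_a H h0 h1 (lt_of_le_of_lt ha hz) (hne z hz))
  -- the compact part
  set K : Set ℂ := {v : ℂ | c₀ ≤ v.re ∧ ‖v‖ ≤ x₀} with hK
  have hKc : IsCompact K := by
    have hcl : IsClosed K := by
      have e1 : IsClosed {v : ℂ | c₀ ≤ v.re} := isClosed_le continuous_const Complex.continuous_re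
      have e3 : IsClosed {v : ℂ | ‖v‖ ≤ x₀} := isClosed_le continuous_norm continuous_const
      exact e1.inter e3
    refine (isCompact_closedBall (0 : ℂ) x₀).of_isClosed_subset hcl ?_
    rintro v ⟨-, h⟩
    rwa [Metric.mem_closedBall, dist_zero_right]
  obtain ⟨C₁, hC₁⟩ := hKc.exists_bound_of_continuousOn (f := h) fun v hv =>
    (hhd v (lt_of_lt_of_le hc hv.1)).continuousAt.continuousWithinAt
  set B : ℝ := (S₀ lam c σ + α * (2 / δ * S₀ lam c σ)) * (1 + 1 / x₀) ^ p +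
    |C₁| * (1 + x₀) ^ p with hB
  have hB0 : 0 ≤ B := by positivity
  have hhb : ∀ z : ℂ, c₀ ≤ z.re → ‖h z‖ ≤ B * (1 + |z.im|) ^ (-p) := by
    intro z hz
    have hz0 : 0 < z.re := hc00.trans_le hz
    have ht : 0 < 1 + |z.im| := by positivity
    rcases le_total x₀ ‖z‖ with h2 | h2
    · have e3 := hx₀ z hz0 h2
      have e4 : h z = hh (f₀ lam c α) (f₁ lam c α) z := by
        rw [hh']
        unfold hh
        rw [hff z (lt_of_lt_of_le hc hz) h2, qf_far H h0 h1 hz0 e3]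
      have e5 := hh_bound D h0 h1 hz0 (by linarith) e3
      have e6 := nb hx00 hp0 h2
      rw [e4]
      calc _ ≤ (S₀ lam c σ + α * (2 / δ * S₀ lam c σ)) * ‖z‖ ^ (-p) := e5
        _ ≤ (S₀ lam c σ + α * (2 / δ * S₀ lam c σ)) *
            ((1 + 1 / x₀) ^ p * (1 + |z.im|) ^ (-p)) := by gcongr
        _ = ((S₀ lam c σ + α * (2 / δ * S₀ lam c σ)) * (1 + 1 / x₀) ^ p) *
            (1 + |z.im|) ^ (-p) := by ring
        _ ≤ _ := by
          refine mul_le_mul_of_nonneg_right ?_ (by positivity)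
          have : 0 ≤ |C₁| * (1 + x₀) ^ p := by positivity
          linarith
    · have e6 : 1 ≤ (1 + x₀) ^ p * (1 + |z.im|) ^ (-p) := by
        have e7 : 1 + |z.im| ≤ 1 + x₀ := by
          have := abs_im_le_norm z
          linarith
        rw [Real.rpow_neg ht.le, ← div_eq_mul_inv, le_div_iff₀ (by positivity), one_mul]
        exact Real.rpow_le_rpow ht.le e7 hp0
      have e7 := (hC₁ z ⟨hz, h2⟩).trans (le_abs_self _)
      calc ‖h z‖ ≤ |C₁| * 1 := by linarith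
        _ ≤ |C₁| * ((1 + x₀) ^ p * (1 + |z.im|) ^ (-p)) := by gcongr
        _ = (|C₁| * (1 + x₀) ^ p) * (1 + |z.im|) ^ (-p) := by ring
        _ ≤ _ := by
          refine mul_le_mul_of_nonneg_right ?_ (by positivity)
          have : 0 ≤ (S₀ lam c σ + α * (2 / δ * S₀ lam c σ)) * (1 + 1 / x₀) ^ p := by positivity
          linarith
  set Ip : ℝ := ∫ t : ℝ, (1 + |t|) ^ (-p) with hIp
  have hIp0 : 0 ≤ Ip := integral_nonneg fun t => by positivity
  refine ⟨(2 * Real.pi)⁻¹ * (B * Ip), fun y hy => ?_⟩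
  have hy0 : 0 < y := by linarith
  have hre : ∀ x t : ℝ, ((x : ℂ) + t * I).re = x := fun x t => by simp
  have him : ∀ x t : ℝ, ((x : ℂ) + t * I).im = t := fun x t => by simp
  have a1 : ((y * M lam c α y : ℝ) : ℂ) = V x₀ (fun z => exp (z * y) * h z) := by
    rw [yM_eq D h0 h1 hx1 hy0 hx₀]
    unfold V
    congr 2
    funext t
    have e1 : 0 < ((x₀ : ℂ) + t * I).re := by rw [hre]; linarith
    have e2 : x₀ ≤ ‖(x₀ : ℂ) + t * I‖ := by
      have := re_le_norm ((x₀ : ℂ) + t * I)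
      rwa [hre] at this
    have e3 : a < ((x₀ : ℂ) + t * I).re := by rw [hre]; linarith
    rw [hh']
    unfold hh
    simp only
    rw [hff _ e3 e2, qf_far H h0 h1 e1 (hx₀ _ e1 e2)]
  have a2 : V x₀ (fun z => exp (z * y) * h z) = V c₀ (fun z => exp (z * y) * h z) := by
    refine (shift hp1 hc0x (B := Real.exp (x₀ * y) * B) (fun s hs _ => ?_)
      fun s hs hs2 => ?_).symm
    · exact DifferentiableAt.mul (by fun_prop) (hhd s (lt_of_lt_of_le hc hs))
    · rw [norm_mul, Complex.norm_exp, Complex.re_mul_ofReal, mul_assoc]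
      refine mul_le_mul (Real.exp_le_exp.2 ?_) (hhb s hs) (norm_nonneg _) (Real.exp_pos _).le
      exact mul_le_mul_of_nonneg_right hs2 hy0.le
  have a3 := norm_V_le (H := fun z => exp (z * y) * h z) (c := c₀)
    (g := fun t => (Real.exp (c₀ * y) * B) * (1 + |t|) ^ (-p)) ((decay_int hp1).const_mul _)
    fun t => by
      have e1 := hhb (c₀ + t * I) (by rw [hre])
      rw [him] at e1
      rw [norm_mul, Complex.norm_exp, Complex.re_mul_ofReal, hre, mul_assoc]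
      exact mul_le_mul_of_nonneg_left e1 (Real.exp_pos _).le
  rw [← a2, ← a1, Complex.norm_real, Real.norm_eq_abs, abs_mul, abs_of_pos hy0,
    integral_const_mul] at a3
  have a4 : |M lam c α y| ≤ y * |M lam c α y| := le_mul_of_one_le_left (abs_nonneg _) hy
  refine (a4.trans a3).trans (le_of_eq ?_)
  rw [hIp]
  ring

end Pool.Agent.TH942.SL

namespace Pool.Agent.TH942.SL

open Classical
open Pool.Agent.W263.BSD Pool.Agent.W189.ML Pool.Agent.W187.UR
open Pool.Agent.TH942.LS (lm cE dat cont Kf)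

variable {a b : ℤ} {F : ℂ → ℂ}

/-- **The exact exponent of growth.** -/
theorem Sr_level (hF : IsLSeries a b F) {ρ ρ' : ℝ} (hρ : 1 < ρ) (hρ' : ρ < ρ') {θ : ℝ}
    (hθ : 0 ≤ θ) : (∀ s : ℂ, s ≠ 1 → |(s - 1).arg| < Real.pi / (2 * ρ) →
      θ < ((s - 1) ^ (ρ : ℂ)).re → F s ≠ 0) ↔
    ∀ ε : ℝ, 0 < ε → ∃ C : ℝ, ∀ᶠ X : ℝ in atTop,
      |Sr a b ρ ρ' X| ≤ C * Real.exp ((θ + ε) * Real.log X ^ ρ) := by
  have hρ0 : 0 < ρ := by linarith
  have h0 : 0 < ρ⁻¹ := by positivity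
  have h1 : ρ⁻¹ < 1 := inv_lt_one_of_one_lt₀ hρ
  constructor
  · intro hz ε hε
    have hne : ∀ v : ℂ, θ < v.re → PhiF a b F (v ^ ((ρ⁻¹ : ℝ) : ℂ)) ≠ 0 := by
      intro v hv
      have hv0 : 0 < v.re := lt_of_le_of_lt hθ hv
      have hre := re_pow_pos h0 h1 hv0
      have harg := arg_pow h0 h1 hv0
      have hback : (v ^ ((ρ⁻¹ : ℝ) : ℂ)) ^ (ρ : ℂ) = v := by
        rw [Complex.cpow_def_of_ne_zero (ne_zero' hre), log_pow h0 h1 hv0]
        have e1 : ((ρ⁻¹ : ℝ) : ℂ) * Complex.log v * (ρ : ℂ) = Complex.log v := by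
          have : (ρ : ℂ) ≠ 0 := by exact_mod_cast hρ0.ne'
          push_cast
          field_simp
        rw [e1, Complex.exp_log (ne_zero' hv0)]
      unfold PhiF
      refine mul_ne_zero (hz _ ?_ ?_ ?_) (small_ne hre)
      · intro h
        have : v ^ ((ρ⁻¹ : ℝ) : ℂ) = 0 := by linear_combination h
        exact ne_zero' hre this
      · rw [add_sub_cancel_left]
        refine harg.trans_le (le_of_eq ?_)
        field_simp
      · rw [add_sub_cancel_left, hback]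
        exact hv
    obtain ⟨C, hC⟩ := up_a (dat a b) (cont hF le_rfl) h0 h1 hθ hne (c₀ := θ + ε) (by linarith)
    obtain ⟨C₁, hC₁, h2⟩ := Sr_close a b hρ hρ'
    refine ⟨C + C₁, ?_⟩
    filter_upwards [h2, Real.tendsto_log_atTop.eventually_ge_atTop 1] with X h3 h4
    have hT : 0 < Real.log X := by linarith
    have hy : 1 ≤ Real.log X ^ ρ := Real.one_le_rpow h4 hρ0.le
    have h5 := hC _ hy
    have e1 : 1 ≤ Real.exp ((θ + ε) * Real.log X ^ ρ) := Real.one_le_exp (by positivity)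
    have e4 : C₁ ≤ C₁ * Real.exp ((θ + ε) * Real.log X ^ ρ) := le_mul_of_one_le_right hC₁ e1
    have e5 := abs_sub_abs_le_abs_sub (Sr a b ρ ρ' X) (M lm (cE a b) ρ⁻¹ (Real.log X ^ ρ))
    rw [add_mul]
    linarith
  · intro h s hs1 hs hre h2
    obtain ⟨C, hC⟩ := h ((((s - 1) ^ (ρ : ℂ)).re - θ) / 2) (by linarith)
    refine Sr_down hF hρ hρ' hs1 hs h2 (β := θ + (((s - 1) ^ (ρ : ℂ)).re - θ) / 2)
      (by linarith) C ?_
    filter_upwards [hC] with X hX
    rw [not_lt]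
    exact hX

end Pool.Agent.TH942.SL
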