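import Pool.Agent.TH942.SL.Ext
import Pool.Agent.TH942.SL.Final

/-!
# Growth of the means and analytic continuation to sectors
-/

set_option autoImplicit false

open MeasureTheory Filter Topology Set Complex
open Pool.Agent.TH942.LS (Dat P P_le Cont)

namespace Pool.Agent.TH942.SL

variable {α : ℝ} {lam c : ℕ → ℝ} {δ σ : ℝ}

/-- the open sector of half opening `π / (2ρ)` -/
def Sect (ρ : ℝ) : Set ℂ := {s | s ≠ 0 ∧ |arg s| < Real.pi / (2 * ρ)}

lemma half_lt {ρ : ℝ} (hρ : 1 < ρ) : Real.pi / (2 * ρ) < Real.pi / 2 := by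
  have := Real.pi_pos
  apply div_lt_div_of_pos_left this (by norm_num)
  linarith

lemma sect_re {ρ : ℝ} (hρ : 1 < ρ) {s : ℂ} (hs : s ∈ Sect ρ) : 0 < s.re := by
  have h1 := (abs_lt.1 hs.2)
  have h2 := half_lt hρ
  have h3 : |arg s| < Real.pi / 2 := hs.2.trans h2
  rcases Complex.abs_arg_lt_pi_div_two_iff.1 h3 with h | h
  · exact h
  · exact absurd h hs.1

lemma sect_iff {ρ : ℝ} (hρ : 1 < ρ) {s : ℂ} :
    s ∈ Sect ρ ↔ 0 < s.re ∧ |s.im| < Real.tan (Real.pi / (2 * ρ)) * s.re := by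
  have hpi := Real.pi_pos
  have h2 := half_lt hρ
  have h0 : 0 < Real.pi / (2 * ρ) := by positivity
  have key : ∀ s : ℂ, 0 < s.re →
      (|arg s| < Real.pi / (2 * ρ) ↔ |s.im| < Real.tan (Real.pi / (2 * ρ)) * s.re) := by
    intro s hs
    have h3 : |arg s| < Real.pi / 2 := Complex.abs_arg_lt_pi_div_two_iff.2 (Or.inl hs)
    have h4 : |s.im| = Real.tan |arg s| * s.re := by
      rcases le_total 0 (arg s) with h | h
      · rw [abs_of_nonneg h, Complex.tan_arg, abs_of_nonneg (Complex.arg_nonneg_iff.1 h)]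
        field_simp
      · rw [abs_of_nonpos h, Real.tan_neg, Complex.tan_arg]
        rcases eq_or_lt_of_le h with h' | h'
        · have : s.im = 0 := (Complex.arg_eq_zero_iff.1 h').2
          rw [this]
          simp
        · rw [abs_of_neg (Complex.arg_neg_iff.1 h')]
          field_simp
    rw [h4]
    rw [mul_lt_mul_iff_left₀ hs]
    have h5 := Real.strictMonoOn_tan
    have h3' := abs_nonneg (arg s)
    exact (h5.lt_iff_lt ⟨by linarith, h3⟩ ⟨by linarith, h2⟩).symm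
  constructor
  · intro hs
    have h := sect_re hρ hs
    exact ⟨h, (key s h).1 hs.2⟩
  · rintro ⟨h1, h3⟩
    exact ⟨ne_zero' h1, (key s h1).2 h3⟩

lemma sect_eq {ρ : ℝ} (hρ : 1 < ρ) : Sect ρ = {s : ℂ | 0 < s.re} ∩
    ({s : ℂ | s.im < Real.tan (Real.pi / (2 * ρ)) * s.re} ∩
      {s : ℂ | -(Real.tan (Real.pi / (2 * ρ)) * s.re) < s.im}) := by
  ext s
  rw [sect_iff hρ, abs_lt]
  constructor
  · rintro ⟨h1, h2, h3⟩
    exact ⟨h1, h3, h2⟩
  · rintro ⟨h1, h2, h3⟩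
    exact ⟨h1, h3, h2⟩

lemma sect_open {ρ : ℝ} (hρ : 1 < ρ) : IsOpen (Sect ρ) := by
  rw [sect_eq hρ]
  refine (isOpen_lt continuous_const Complex.continuous_re).inter
    ((isOpen_lt Complex.continuous_im ?_).inter (isOpen_lt ?_ Complex.continuous_im))
  · exact continuous_const.mul Complex.continuous_re
  · exact (continuous_const.mul Complex.continuous_re).neg

lemma sect_convex {ρ : ℝ} (hρ : 1 < ρ) : Convex ℝ (Sect ρ) := by
  rw [sect_eq hρ]
  intro x hx y hy a b ha hb hab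
  obtain ⟨hx1, hx2, hx3⟩ := hx
  obtain ⟨hy1, hy2, hy3⟩ := hy
  simp only [Set.mem_ofPred_eq] at hx1 hx2 hx3 hy1 hy2 hy3
  have e1 : (a • x + b • y).re = a * x.re + b * y.re := by simp
  have e2 : (a • x + b • y).im = a * x.im + b * y.im := by simp
  simp only [Set.mem_inter_iff, Set.mem_ofPred_eq, e1, e2]
  rcases eq_or_lt_of_le ha with h | h
  · have hb1 : b = 1 := by linarith
    subst hb1
    rw [← h]
    simp only [zero_mul, one_mul, zero_add]
    exact ⟨hy1, hy2, hy3⟩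
  · refine ⟨?_, ?_, ?_⟩
    · have := mul_pos h hx1
      have := mul_nonneg hb hy1.le
      linarith
    · have e3 := mul_lt_mul_of_pos_left hx2 h
      have e4 := mul_le_mul_of_nonneg_left hy2.le hb
      nlinarith
    · have e3 := mul_lt_mul_of_pos_left hx3 h
      have e4 := mul_le_mul_of_nonneg_left hy3.le hb
      nlinarith

lemma sect_real {ρ : ℝ} (hρ : 1 < ρ) {x : ℝ} (hx : 0 < x) : (x : ℂ) ∈ Sect ρ := by
  refine ⟨by exact_mod_cast hx.ne', ?_⟩
  rw [Complex.arg_ofReal_of_nonneg hx.le, abs_zero]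
  have := Real.pi_pos
  positivity

lemma sect_mono {ρ ρ' : ℝ} (hρ : 1 < ρ) (h : ρ ≤ ρ') : Sect ρ' ⊆ Sect ρ := by
  rintro s ⟨h1, h2⟩
  refine ⟨h1, h2.trans_le ?_⟩
  have := Real.pi_pos
  apply div_le_div_of_nonneg_left this.le (by positivity)
  linarith

/-- **small means give the continuation to the sector** -/
theorem ext_sector (D : Dat lam c δ σ) {ρ : ℝ} (hρ : 1 < ρ)
    (hM : ∀ ε : ℝ, 0 < ε → ∃ C y₀ : ℝ, ∀ y, y₀ ≤ y → |M lam c ρ⁻¹ y| ≤ C * Real.exp (ε * y)) :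
    ∃ Dh : ℂ → ℂ, (∀ s ∈ Sect ρ, DifferentiableAt ℂ Dh s) ∧
      (∀ s ∈ Sect ρ, σ < s.re → Dh s = DD lam c s) ∧
      ∀ K C y₀ : ℝ, (∀ y, y₀ ≤ y → |M lam c ρ⁻¹ y - K * Real.log y| ≤ C) →
        ∃ C' : ℝ, ∀ x : ℝ, 0 < x → x ≤ 1 → ‖Dh x + ((K * ρ * Real.log x : ℝ) : ℂ)‖ ≤ C' := by
  have hρ0 : 0 < ρ := by linarith
  have h0 : 0 < ρ⁻¹ := by positivity
  have h1 : ρ⁻¹ < 1 := inv_lt_one_of_one_lt₀ hρ
  obtain ⟨g, fh, x₁, hgc, hg, hd, hfd, hfe⟩ := ext D h0 h1 hM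
  have hdiff : ∀ s ∈ Sect ρ, DifferentiableAt ℂ (fun s : ℂ => fh (s ^ (ρ : ℂ))) s := by
    intro s hs
    obtain ⟨h2, -⟩ := exists_root hρ hs.1 hs.2
    exact DifferentiableAt.comp (f := fun s : ℂ => s ^ (ρ : ℂ)) s (hfd _ h2)
      (differentiableAt_id.cpow_const (slit (sect_re hρ hs)))
  refine ⟨fun s => fh (s ^ (ρ : ℂ)), hdiff, ?_, ?_⟩
  · -- the identity theorem on the convex set
    set R : Set ℂ := Sect ρ ∩ {s : ℂ | σ < s.re} with hR
    have hRo : IsOpen R := (sect_open hρ).inter (isOpen_lt continuous_const Complex.continuous_re)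
    have hRc : Convex ℝ R := (sect_convex hρ).inter (convex_halfSpace_re_gt σ)
    have a1 : AnalyticOnNhd ℂ (fun s : ℂ => fh (s ^ (ρ : ℂ))) R :=
      DifferentiableOn.analyticOnNhd (fun s hs => (hdiff s hs.1).differentiableWithinAt) hRo
    have a2 : AnalyticOnNhd ℂ (DD lam c) R :=
      DifferentiableOn.analyticOnNhd
        (fun s hs => (dd_deriv D hs.2).differentiableAt.differentiableWithinAt) hRo
    -- the base point
    have hT : Tendsto (fun x : ℝ => x ^ ρ) atTop atTop := tendsto_rpow_atTop hρ0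
    obtain ⟨x, hx⟩ := ((hT.eventually_gt_atTop x₁).and
      ((eventually_gt_atTop σ).and (eventually_gt_atTop 0))).exists
    obtain ⟨hx1, hx2, hx3⟩ := hx
    have hxR : (x : ℂ) ∈ R := ⟨sect_real hρ hx3, by rwa [Set.mem_ofPred_eq, Complex.ofReal_re]⟩
    have hxp : (((x : ℂ)) ^ (ρ : ℂ)).re = x ^ ρ := by
      rw [← Complex.ofReal_cpow hx3.le, Complex.ofReal_re]
    have hnear : (fun s : ℂ => fh (s ^ (ρ : ℂ))) =ᶠ[𝓝 (x : ℂ)] DD lam c := by
      have hc : ContinuousAt (fun s : ℂ => (s ^ (ρ : ℂ)).re) (x : ℂ) :=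
        Complex.continuous_re.continuousAt.comp
          (ContinuousAt.cpow continuousAt_id continuousAt_const
            (slit (show 0 < ((x : ℂ)).re by rwa [Complex.ofReal_re])))
      have h5 : ∀ᶠ s : ℂ in 𝓝 (x : ℂ), x₁ < (s ^ (ρ : ℂ)).re :=
        hc.eventually (lt_mem_nhds (show x₁ < ((x : ℂ) ^ (ρ : ℂ)).re by rw [hxp]; exact hx1))
      filter_upwards [h5, hRo.mem_nhds hxR] with s h6 h7
      rw [hfe _ h6]
      obtain ⟨-, h8⟩ := exists_root hρ h7.1.1 h7.1.2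
      unfold f₀
      rw [h8]
    have a3 := a1.eqOn_of_preconnected_of_eventuallyEq a2 hRc.isPreconnected hxR hnear
    exact fun s hs hσ => a3 ⟨hs, hσ⟩
  · intro K C y₀ hK
    obtain ⟨C', hC'⟩ := ext_asy hgc hd (K := K) (C := C) (y₀ := y₀) (fun y hy hy1 => by
      have hy0 : 0 < y := by linarith
      have e1 := hK y hy
      rw [hg y hy0, ← Complex.ofReal_sub, Complex.norm_real, Real.norm_eq_abs]
      have e2 : y * M lam c ρ⁻¹ y - K * (y * Real.log y) =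
          y * (M lam c ρ⁻¹ y - K * Real.log y) := by ring
      rw [e2, abs_mul, abs_of_pos hy0, mul_comm]
      exact mul_le_mul_of_nonneg_right e1 hy0.le)
    refine ⟨C', fun x hx hx1 => ?_⟩
    have e1 := hC' (x ^ ρ) (Real.rpow_pos_of_pos hx _) (Real.rpow_le_one hx.le hx1 hρ0.le)
    rw [Real.log_rpow hx] at e1
    have e2 : (((x ^ ρ : ℝ)) : ℂ) = (x : ℂ) ^ (ρ : ℂ) := Complex.ofReal_cpow hx.le _
    rw [e2, ← mul_assoc] at e1
    exact e1

/-- **The upper bound for the means**, for a given continuation. -/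
theorem up_gen (D : Dat lam c δ σ) (h0 : 0 < α) (h1 : α < 1)
    {a : ℝ} (ha : 0 ≤ a) {f f' : ℂ → ℂ} (hf : ∀ v : ℂ, a < v.re → HasDerivAt f (f' v) v)
    (hf' : ∀ v : ℂ, a < v.re → DifferentiableAt ℂ f' v) {x₂ : ℝ}
    (hff : ∀ v : ℂ, a < v.re → x₂ ≤ ‖v‖ → f v = f₀ lam c α v ∧ f' v = f₁ lam c α v)
    {c₀ : ℝ} (hc : a < c₀) :
    ∃ C : ℝ, ∀ y : ℝ, 1 ≤ y → |M lam c α y| ≤ C * Real.exp (c₀ * y) := by
  obtain ⟨x₁, hx11, hx₁⟩ := exists_abscissa h0 h1 σ
  set x₀ : ℝ := max (max x₁ c₀) x₂ with hx0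
  have hx1 : 1 ≤ x₀ := hx11.trans ((le_max_left _ _).trans (le_max_left _ _))
  have hc0x : c₀ ≤ x₀ := (le_max_right _ _).trans (le_max_left _ _)
  have hx2 : x₂ ≤ x₀ := le_max_right _ _
  have hx₀ : ∀ z : ℂ, 0 < z.re → x₀ ≤ ‖z‖ → σ + 1 ≤ kap α * ‖z‖ ^ α := fun z hz hz2 =>
    hx₁ z hz (((le_max_left _ _).trans (le_max_left _ _)).trans hz2)
  have hx00 : 0 < x₀ := by linarith
  have hc00 : 0 < c₀ := lt_of_le_of_lt ha hc
  have hS := S₀_nonneg lam c σ
  have hδ := D.δ0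
  set p : ℝ := 2 - α with hp
  have hp1 : 1 < p := by rw [hp]; linarith
  have hp0 : 0 ≤ p := by linarith
  set h : ℂ → ℂ := hh f f' with hh'
  have hhd : ∀ z : ℂ, a < z.re → DifferentiableAt ℂ h z := fun z hz =>
    hh_diff (lt_of_le_of_lt ha hz) (hf z hz).differentiableAt (hf' z hz)
  have hfar : ∀ z : ℂ, a < z.re → x₀ ≤ ‖z‖ → h z = hh (f₀ lam c α) (f₁ lam c α) z := by
    intro z hz h2
    obtain ⟨e1, e2⟩ := hff z hz (hx2.trans h2)
    rw [hh']
    unfold hh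
    rw [e1, e2]
  -- the compact part
  set K : Set ℂ := {v : ℂ | c₀ ≤ v.re ∧ ‖v‖ ≤ x₀} with hK
  have hKc : IsCompact K := by
    have hcl : IsClosed K := by
      have e1 : IsClosed {v : ℂ | c₀ ≤ v.re} := isClosed_le continuous_const Complex.continuous_re
      have e3 : IsClosed {v : ℂ | ‖v‖ ≤ x₀} := isClosed_le continuous_norm continuous_const
      exact e1.inter e3
    refine (isCompact_closedBall (0 : ℂ) x₀).of_isClosed_subset hcl ?_
    rintro v ⟨-, h⟩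
    rwa [Metric.mem_closedBall, dist_zero_right]
  obtain ⟨C₁, hC₁⟩ := hKc.exists_bound_of_continuousOn (f := h) fun v hv =>
    (hhd v (lt_of_lt_of_le hc hv.1)).continuousAt.continuousWithinAt
  set B : ℝ := (S₀ lam c σ + α * (2 / δ * S₀ lam c σ)) * (1 + 1 / x₀) ^ p +
    |C₁| * (1 + x₀) ^ p with hB
  have hB0 : 0 ≤ B := by positivity
  have hhb : ∀ z : ℂ, c₀ ≤ z.re → ‖h z‖ ≤ B * (1 + |z.im|) ^ (-p) := by
    intro z hz
    have hz0 : 0 < z.re := hc00.trans_le hz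
    have ht : 0 < 1 + |z.im| := by positivity
    rcases le_total x₀ ‖z‖ with h2 | h2
    · have e3 := hx₀ z hz0 h2
      have e4 := hfar z (lt_of_lt_of_le hc hz) h2
      have e5 := hh_bound D h0 h1 hz0 (by linarith) e3
      have e6 := nb hx00 hp0 h2
      rw [e4]
      calc _ ≤ (S₀ lam c σ + α * (2 / δ * S₀ lam c σ)) * ‖z‖ ^ (-p) := e5
        _ ≤ (S₀ lam c σ + α * (2 / δ * S₀ lam c σ)) *
            ((1 + 1 / x₀) ^ p * (1 + |z.im|) ^ (-p)) := by gcongr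
        _ = ((S₀ lam c σ + α * (2 / δ * S₀ lam c σ)) * (1 + 1 / x₀) ^ p) *
            (1 + |z.im|) ^ (-p) := by ring
        _ ≤ _ := by
          refine mul_le_mul_of_nonneg_right ?_ (by positivity)
          have : 0 ≤ |C₁| * (1 + x₀) ^ p := by positivity
          linarith
    · have e6 : 1 ≤ (1 + x₀) ^ p * (1 + |z.im|) ^ (-p) := by
        have e7 : 1 + |z.im| ≤ 1 + x₀ := by
          have := abs_im_le_norm z
          linarith
        rw [Real.rpow_neg ht.le, ← div_eq_mul_inv, le_div_iff₀ (by positivity), one_mul]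
        exact Real.rpow_le_rpow ht.le e7 hp0
      have e7 := (hC₁ z ⟨hz, h2⟩).trans (le_abs_self _)
      calc ‖h z‖ ≤ |C₁| * 1 := by linarith
        _ ≤ |C₁| * ((1 + x₀) ^ p * (1 + |z.im|) ^ (-p)) := by gcongr
        _ = (|C₁| * (1 + x₀) ^ p) * (1 + |z.im|) ^ (-p) := by ring
        _ ≤ _ := by
          refine mul_le_mul_of_nonneg_right ?_ (by positivity)
          have : 0 ≤ (S₀ lam c σ + α * (2 / δ * S₀ lam c σ)) * (1 + 1 / x₀) ^ p := by positivity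
          linarith
  set Ip : ℝ := ∫ t : ℝ, (1 + |t|) ^ (-p) with hIp
  have hIp0 : 0 ≤ Ip := integral_nonneg fun t => by positivity
  refine ⟨(2 * Real.pi)⁻¹ * (B * Ip), fun y hy => ?_⟩
  have hy0 : 0 < y := by linarith
  have hre : ∀ x t : ℝ, ((x : ℂ) + t * I).re = x := fun x t => by simp
  have him : ∀ x t : ℝ, ((x : ℂ) + t * I).im = t := fun x t => by simp
  have a1 : ((y * M lam c α y : ℝ) : ℂ) = V x₀ (fun z => exp (z * y) * h z) := by
    rw [yM_eq D h0 h1 hx1 hy0 hx₀]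
    unfold V
    congr 2
    funext t
    have e2 : x₀ ≤ ‖(x₀ : ℂ) + t * I‖ := by
      have := re_le_norm ((x₀ : ℂ) + t * I)
      rwa [hre] at this
    have e3 : a < ((x₀ : ℂ) + t * I).re := by rw [hre]; linarith
    simp only
    rw [hfar _ e3 e2]
  have a2 : V x₀ (fun z => exp (z * y) * h z) = V c₀ (fun z => exp (z * y) * h z) := by
    refine (shift hp1 hc0x (B := Real.exp (x₀ * y) * B) (fun s hs _ => ?_)
      fun s hs hs2 => ?_).symm
    · exact DifferentiableAt.mul (by fun_prop) (hhd s (lt_of_lt_of_le hc hs))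
    · rw [norm_mul, Complex.norm_exp, Complex.re_mul_ofReal, mul_assoc]
      refine mul_le_mul (Real.exp_le_exp.2 ?_) (hhb s hs) (norm_nonneg _) (Real.exp_pos _).le
      exact mul_le_mul_of_nonneg_right hs2 hy0.le
  have a3 := norm_V_le (H := fun z => exp (z * y) * h z) (c := c₀)
    (g := fun t => (Real.exp (c₀ * y) * B) * (1 + |t|) ^ (-p)) ((decay_int hp1).const_mul _)
    fun t => by
      have e1 := hhb (c₀ + t * I) (by rw [hre])
      rw [him] at e1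
      rw [norm_mul, Complex.norm_exp, Complex.re_mul_ofReal, hre, mul_assoc]
      exact mul_le_mul_of_nonneg_left e1 (Real.exp_pos _).le
  rw [← a2, ← a1, Complex.norm_real, Real.norm_eq_abs, abs_mul, abs_of_pos hy0,
    integral_const_mul] at a3
  have a4 : |M lam c α y| ≤ y * |M lam c α y| := le_mul_of_one_le_left (abs_nonneg _) hy
  refine (a4.trans a3).trans (le_of_eq ?_)
  rw [hIp]
  ring

/-- **the continuation to the sector implies that the means grow slowly** -/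
theorem up_ext (D : Dat lam c δ σ) {ρ : ℝ} (hρ : 1 < ρ) {Dh : ℂ → ℂ}
    (hd : ∀ s ∈ Sect ρ, DifferentiableAt ℂ Dh s)
    (he : ∀ s ∈ Sect ρ, σ < s.re → Dh s = DD lam c s) {ε : ℝ} (hε : 0 < ε) :
    ∃ C : ℝ, ∀ y : ℝ, 1 ≤ y → |M lam c ρ⁻¹ y| ≤ C * Real.exp (ε * y) := by
  have hρ0 : 0 < ρ := by linarith
  have h0 : 0 < ρ⁻¹ := by positivity
  have h1 : ρ⁻¹ < 1 := inv_lt_one_of_one_lt₀ hρ
  have hSm : ∀ v : ℂ, 0 < v.re → v ^ ((ρ⁻¹ : ℝ) : ℂ) ∈ Sect ρ := by
    intro v hv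
    refine ⟨ne_zero' (re_pow_pos h0 h1 hv), ?_⟩
    refine (arg_pow h0 h1 hv).trans_le (le_of_eq ?_)
    field_simp
  set f : ℂ → ℂ := fun v => Dh (v ^ ((ρ⁻¹ : ℝ) : ℂ)) with hf
  have hUo : IsOpen {v : ℂ | 0 < v.re} := isOpen_lt continuous_const Complex.continuous_re
  have hfd : ∀ v : ℂ, 0 < v.re → DifferentiableAt ℂ f v := fun v hv =>
    DifferentiableAt.comp (f := fun v : ℂ => v ^ ((ρ⁻¹ : ℝ) : ℂ)) v (hd _ (hSm v hv))
      (pow_deriv (slit hv)).differentiableAt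
  have hfd' : ∀ v : ℂ, 0 < v.re → DifferentiableAt ℂ (deriv f) v := fun v hv => by
    have h2 : DifferentiableOn ℂ f {v : ℂ | 0 < v.re} := fun z hz =>
      (hfd z hz).differentiableWithinAt
    exact (h2.analyticAt (hUo.mem_nhds hv)).deriv.differentiableAt
  obtain ⟨x₁, hx11, hx₁⟩ := exists_abscissa h0 h1 σ
  refine up_gen D h0 h1 le_rfl (f := f) (f' := deriv f) (fun v hv => (hfd v hv).hasDerivAt) hfd'
    (x₂ := x₁) (fun v hv hv2 => ?_) hε
  have e1 := hx₁ v hv hv2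
  have e2 := re_pow_ge h0 h1 hv
  have e3 : σ < (v ^ ((ρ⁻¹ : ℝ) : ℂ)).re := by linarith
  have e4 : ∀ᶠ w in 𝓝 v, f w = f₀ lam c ρ⁻¹ w := by
    have hc : ContinuousAt (fun w : ℂ => (w ^ ((ρ⁻¹ : ℝ) : ℂ)).re) v :=
      Complex.continuous_re.continuousAt.comp
        (ContinuousAt.cpow continuousAt_id continuousAt_const (slit hv))
    filter_upwards [hUo.mem_nhds hv, hc.eventually (lt_mem_nhds e3)] with w h2 h3
    exact he _ (hSm w h2) h3
  refine ⟨e4.self_of_nhds, ?_⟩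
  have e5 : f =ᶠ[𝓝 v] f₀ lam c ρ⁻¹ := e4
  rw [e5.deriv_eq]
  exact (f₀_deriv D hv e3).deriv

end Pool.Agent.TH942.SL
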