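import Pool.Agent.TH942.SL.Lim2

/-!
# The limit of the means: the theorem
-/

set_option autoImplicit false

open MeasureTheory Filter Topology Set Complex
open Pool.Agent.TH942.LS (Dat P P_le Cont Qf)

namespace Pool.Agent.TH942.SL

variable {α : ℝ} {lam c : ℕ → ℝ} {δ σ : ℝ} {Ψ Kf G : ℂ → ℂ}

/-- the quadratic term -/
lemma V_sq {y : ℝ} (hy : 0 < y) : V (1 / y) (fun z => exp (z * y) / z ^ 2) = y := by
  have hyc : (y : ℂ) ≠ 0 := by exact_mod_cast hy.ne'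
  rw [V_scale hy, one_div_mul_cancel hy.ne']
  have hV1 := V_one
  unfold V at hV1 ⊢
  have e1 : ∀ t : ℝ, exp ((((1 : ℝ) : ℂ) + t * I) / y * y) / ((((1 : ℝ) : ℂ) + t * I) / y) ^ 2 / y =
      y * (exp (((1 : ℝ) : ℂ) + t * I) / (((1 : ℝ) : ℂ) + t * I) ^ 2) := by
    intro t
    rw [div_mul_cancel₀ _ hyc]
    field_simp
  simp only [e1]
  rw [integral_const_mul, mul_left_comm, hV1, mul_one]

lemma sq_line {c₀ : ℝ} (hc : 0 < c₀) {z : ℂ} (hz : c₀ ≤ z.re) {p : ℝ} (hp : p ≤ 2) :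
    1 / ‖z‖ ^ 2 ≤ (1 + 1 / c₀) ^ (2 : ℝ) * (1 + |z.im|) ^ (-p) := by
  have hz0 : 0 < z.re := hc.trans_le hz
  have hn := norm_pos' hz0
  have ht : (1 : ℝ) ≤ 1 + |z.im| := by have := abs_nonneg z.im; linarith
  have e3 := nb hc (by norm_num : (0 : ℝ) ≤ 2) (hz.trans (re_le_norm z))
  rw [rpow_neg_two hn.le, ← one_div] at e3
  refine e3.trans (mul_le_mul_of_nonneg_left ?_ (by positivity))
  exact Real.rpow_le_rpow_of_exponent_le ht (by linarith)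

/-- **The limit of the means.** -/
theorem up_lim (D : Dat lam c δ σ) (H : Cont lam c σ 0 Ψ Kf) (h0 : 0 < α) (h1 : α < 1)
    (hne : ∀ v : ℂ, 0 < v.re → Ψ (v ^ (α : ℂ)) ≠ 0) {m : ℕ} {r C : ℝ} (hr : 0 < r)
    (hG : ∀ s : ℂ, 0 < s.re → HasDerivAt G (Kf s) s)
    (hGb : ∀ κ : ℝ, 0 < κ → ∃ C : ℝ, ∀ s : ℂ, 0 < s.re → κ * ‖s‖ ≤ s.re → ‖s‖ ≤ r → ‖G s‖ ≤ C)
    (hKb : ∀ s : ℂ, 0 < s.re → kap α * ‖s‖ ≤ s.re → ‖s‖ ≤ r → ‖Kf s‖ ≤ C / ‖s‖)
    (hΨb : ∀ s : ℂ, 0 < s.re → kap α * ‖s‖ ≤ s.re → ‖s‖ ≤ r → ‖deriv Ψ s / Ψ s - m / s‖ ≤ C)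
    (hexp : ∀ s : ℂ, σ + 1 ≤ s.re → exp (G s - DD lam c s) = Ψ s)
    {G₀ : ℂ} (hlim : ∀ ζ : ℂ, 0 < ζ.re → Tendsto (fun T : ℝ => G (ζ / T)) atTop (𝓝 G₀))
    {g : ℂ → ℂ} (hga : AnalyticAt ℂ g 0) (hg0 : g 0 ≠ 0)
    (hfac : ∀ᶠ s in 𝓝 (0 : ℂ), Ψ s = s ^ m * g s) :
    ∃ κ₀ : ℂ, exp κ₀ * g 0 = exp G₀ ∧
      Tendsto (fun y : ℝ => ((M lam c α y - m * α * Real.log y : ℝ) : ℂ)) atTop
        (𝓝 (κ₀ + m * α * Real.eulerMascheroniConstant)) := by
  obtain ⟨x₀, hx1, hx₀⟩ := exists_abscissa h0 h1 σ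
  obtain ⟨f, hf, hff⟩ := exists_f D H h0 h1 hne hx1 hx₀
  obtain ⟨C₀, hC₀⟩ := hGb (kap α) (kap_pos h0 h1)
  obtain ⟨r₂, C₁, hr2, hr21, hC1, hnear⟩ := near (m := m) (C := max C₀ C) h0 h1 hf hr hG
    (fun s a1 a2 a3 => (hC₀ s a1 a2 a3).trans (le_max_left _ _))
    (fun s a1 a2 a3 => (hKb s a1 a2 a3).trans
      (div_le_div_of_nonneg_right (le_max_right _ _) (norm_nonneg _)))
    (fun s a1 a2 a3 => (hΨb s a1 a2 a3).trans (le_max_right _ _))
  obtain ⟨C₂, hC2, hq⟩ := qf_mid D H h0 h1 hne hx1 hx₀ hr2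
  obtain ⟨C₃, hC3, hfm⟩ := f_mid D h0 h1 hf hx1 hx₀ hff hC2 hq
  obtain ⟨C₄, hC4, hrem⟩ := rem_bound D H h0 h1 hx1 hx₀ hff hr2 hC1 hC2 hC3 hnear hq hfm
  obtain ⟨κ₀, hκ₀, hray, hray'⟩ := near_lim H h0 h1 hne hf hx1 hx₀ hff hG hexp hr hGb hlim hga
    hg0 hfac
  refine ⟨κ₀, hκ₀, ?_⟩
  simp only [Complex.ofReal_natCast] at hnear hrem
  set p : ℝ := 2 - α with hp
  have hp1 : 1 < p := by rw [hp]; linarith
  have hp0 : 0 ≤ p := by linarith
  have hp2 : p ≤ 2 := by rw [hp]; linarith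
  have hpi := Real.pi_pos
  have hre : ∀ x t : ℝ, ((x : ℂ) + t * I).re = x := fun x t => by simp
  have him : ∀ x t : ℝ, ((x : ℂ) + t * I).im = t := fun x t => by simp
  set h : ℂ → ℂ := hh f (qf Ψ Kf α) with hh'
  have hhd : ∀ z : ℂ, 0 < z.re → DifferentiableAt ℂ h z := fun z hz =>
    hh_diff hz (hf z hz).differentiableAt (qf_diff H h0 h1 hne hz)
  have hsqd : ∀ z : ℂ, 0 < z.re → DifferentiableAt ℂ (fun z : ℂ => 1 / z ^ 2) z := fun z hz => by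
    have e2 : DifferentiableAt ℂ (fun z : ℂ => z ^ 2) z := by fun_prop
    exact (differentiableAt_const 1).div e2 (pow_ne_zero 2 (ne_zero' hz))
  -- the remainder
  set R : ℂ → ℂ := fun z => h z - m * α * gl z - κ₀ * (1 / z ^ 2) with hR
  have hRd : ∀ z : ℂ, 0 < z.re → DifferentiableAt ℂ R z := fun z hz =>
    ((hhd z hz).sub ((gl_diff hz).const_mul _)).sub ((hsqd z hz).const_mul _)
  have hR0 : ∀ z : ℂ, 0 < z.re → R z * z ^ 2 =
      (f z + m * α * log z - κ₀) - (z * qf Ψ Kf α z + m * α) := by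
    intro z hz
    have hz0 := ne_zero' hz
    rw [hR, hh']
    unfold hh gl
    field_simp
    ring
  -- the conditions of `V_small`
  set C₅ : ℝ := max (2 * C₁ + ‖κ₀‖) (C₄ * ((1 + 1 / r₂) ^ (2 : ℝ) + 1) +
    ‖κ₀‖ * (1 + 1 / r₂) ^ (2 : ℝ)) with hC5
  have hC50 : 0 ≤ C₅ := le_max_of_le_left (by positivity)
  have r2 : ∀ z : ℂ, 0 < z.re → ‖z‖ ≤ r₂ → ‖R z‖ ≤ C₅ / ‖z‖ ^ 2 := by
    intro z hz hzr
    have hn := norm_pos' hz
    obtain ⟨e1, e2⟩ := hnear z hz hzr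
    rw [le_div_iff₀ (by positivity), ← norm_pow, ← norm_mul, hR0 z hz]
    have e3 : ‖z * qf Ψ Kf α z + m * α‖ ≤ C₁ := by
      have e4 : z * qf Ψ Kf α z + m * α = z * (qf Ψ Kf α z + m * α / z) := by
        have := ne_zero' hz
        field_simp
      rw [e4, norm_mul]
      calc ‖z‖ * ‖qf Ψ Kf α z + m * α / z‖ ≤ ‖z‖ * (C₁ / ‖z‖) := by gcongr
        _ = C₁ := by field_simp
    calc _ ≤ ‖f z + m * α * log z - κ₀‖ + ‖z * qf Ψ Kf α z + m * α‖ := norm_sub_le _ _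
      _ ≤ (‖f z + m * α * log z‖ + ‖κ₀‖) + C₁ := add_le_add (norm_sub_le _ _) e3
      _ ≤ 2 * C₁ + ‖κ₀‖ := by linarith
      _ ≤ _ := le_max_left _ _
  have r3 : ∀ z : ℂ, 0 < z.re → z.re ≤ 1 → r₂ ≤ ‖z‖ →
      ‖R z‖ ≤ C₅ * (1 / z.re * (1 + |z.im|) ^ (-p)) := by
    intro z hz hz1 hzr
    have hn := norm_pos' hz
    have ht : (1 : ℝ) ≤ 1 + |z.im| := by have := abs_nonneg z.im; linarith
    have htp : 0 < (1 + |z.im|) ^ (-p) := Real.rpow_pos_of_pos (by linarith) _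
    have e1 := hrem z hz (hz1.trans hx1)
    have e2 : 1 / ‖z‖ ^ 2 ≤ (1 + 1 / r₂) ^ (2 : ℝ) * (1 + |z.im|) ^ (-p) := by
      have e3 := nb hr2 (by norm_num : (0 : ℝ) ≤ 2) hzr
      rw [rpow_neg_two hn.le, ← one_div] at e3
      refine e3.trans (mul_le_mul_of_nonneg_left ?_ (by positivity))
      exact Real.rpow_le_rpow_of_exponent_le ht (by linarith)
    have e4 : 1 ≤ 1 / z.re := by rw [le_div_iff₀ hz]; linarith
    have e5 : 1 / ‖z‖ ^ 2 ≤ (1 + 1 / r₂) ^ (2 : ℝ) * (1 / z.re * (1 + |z.im|) ^ (-p)) := by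
      refine e2.trans (mul_le_mul_of_nonneg_left ?_ (by positivity))
      exact le_mul_of_one_le_left htp.le e4
    have e6 : ‖κ₀ * (1 / z ^ 2)‖ ≤ ‖κ₀‖ * ((1 + 1 / r₂) ^ (2 : ℝ) *
        (1 / z.re * (1 + |z.im|) ^ (-p))) := by
      rw [norm_mul, norm_div, norm_one, norm_pow]
      gcongr
    calc ‖R z‖ ≤ ‖h z - m * α * gl z‖ + ‖κ₀ * (1 / z ^ 2)‖ := norm_sub_le _ _
      _ ≤ C₄ * (1 / ‖z‖ ^ 2 + 1 / z.re * (1 + |z.im|) ^ (-p)) + ‖κ₀‖ * ((1 + 1 / r₂) ^ (2 : ℝ) *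
        (1 / z.re * (1 + |z.im|) ^ (-p))) := add_le_add e1 e6
      _ ≤ C₄ * ((1 + 1 / r₂) ^ (2 : ℝ) * (1 / z.re * (1 + |z.im|) ^ (-p)) +
        1 / z.re * (1 + |z.im|) ^ (-p)) + ‖κ₀‖ * ((1 + 1 / r₂) ^ (2 : ℝ) *
        (1 / z.re * (1 + |z.im|) ^ (-p))) := by gcongr
      _ = (C₄ * ((1 + 1 / r₂) ^ (2 : ℝ) + 1) + ‖κ₀‖ * (1 + 1 / r₂) ^ (2 : ℝ)) *
        (1 / z.re * (1 + |z.im|) ^ (-p)) := by ring
      _ ≤ _ := mul_le_mul_of_nonneg_right (le_max_right _ _) (by positivity)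
  have r4 : ∀ w : ℂ, 0 < w.re → Tendsto (fun y : ℝ => (w / y) ^ 2 * R (w / y)) atTop (𝓝 0) := by
    intro w hw
    have e1 := ((hray w hw).sub_const κ₀).sub (hray' w hw)
    rw [sub_self, sub_zero] at e1
    refine e1.congr' ?_
    filter_upwards [eventually_gt_atTop 0] with y hy
    have : 0 < (w / (y : ℂ)).re := by
      rw [Complex.div_ofReal_re]
      positivity
    rw [mul_comm ((w / (y : ℂ)) ^ 2), hR0 _ this]
  have r5 : ∀ᵐ t : ℝ, Tendsto (fun y : ℝ => (1 / y) * ‖R (((1 / y : ℝ) : ℂ) + t * I)‖) atTop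
      (𝓝 0) := by
    filter_upwards [edge_null H h0 h1 hne] with t ht
    obtain ⟨C₆, hC6⟩ := edge_bdd H h0 h1 hne hf ht.1 ht.2
    have ht0 : 0 < |t| := abs_pos.2 ht.1
    obtain ⟨Cg, hCg, hgl⟩ := gl_bound h0 ht0
    have hC60 : 0 ≤ C₆ := (norm_nonneg _).trans (hC6 1 one_pos le_rfl).1
    have e1 : Tendsto (fun y : ℝ => 1 / y * (C₆ / |t| ^ 2 + C₆ / |t| +
        ‖(m : ℂ) * α‖ * (Cg * |t| ^ (-p)) + ‖κ₀‖ * (1 / |t| ^ 2))) atTop (𝓝 0) := by
      have e2 : Tendsto (fun y : ℝ => 1 / y) atTop (𝓝 0) :=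
        tendsto_const_nhds.div_atTop tendsto_id
      have e3 := e2.mul_const (C₆ / |t| ^ 2 + C₆ / |t| +
        ‖(m : ℂ) * α‖ * (Cg * |t| ^ (-p)) + ‖κ₀‖ * (1 / |t| ^ 2))
      rwa [zero_mul] at e3
    refine squeeze_zero' ?_ ?_ e1
    · filter_upwards [eventually_gt_atTop 0] with y hy
      positivity
    · filter_upwards [eventually_ge_atTop 1] with y hy
      have hy0 : 0 < y := by linarith
      set z : ℂ := ((1 / y : ℝ) : ℂ) + t * I with hz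
      have hzn : |t| ≤ ‖z‖ := by
        have := abs_im_le_norm z
        rwa [hz, him] at this
      have hn : 0 < ‖z‖ := ht0.trans_le hzn
      obtain ⟨b1, b2⟩ := hC6 (1 / y) (by positivity) (by rw [div_le_one hy0]; exact hy)
      rw [← hz] at b1 b2
      have b3 : ‖h z‖ ≤ C₆ / |t| ^ 2 + C₆ / |t| := by
        rw [hh']
        unfold hh
        refine (norm_sub_le _ _).trans ?_
        rw [norm_div, norm_div, norm_pow]
        gcongr
      have b4 : ‖(m : ℂ) * α * gl z‖ ≤ ‖(m : ℂ) * α‖ * (Cg * |t| ^ (-p)) := by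
        rw [norm_mul]
        refine mul_le_mul_of_nonneg_left ((hgl z hzn).trans ?_) (norm_nonneg _)
        refine mul_le_mul_of_nonneg_left ?_ hCg
        exact Real.rpow_le_rpow_of_nonpos ht0 hzn (by linarith)
      have b5 : ‖κ₀ * (1 / z ^ 2)‖ ≤ ‖κ₀‖ * (1 / |t| ^ 2) := by
        rw [norm_mul, norm_div, norm_one, norm_pow]
        gcongr
      refine mul_le_mul_of_nonneg_left ?_ (by positivity)
      calc ‖R z‖ ≤ ‖h z - m * α * gl z‖ + ‖κ₀ * (1 / z ^ 2)‖ := norm_sub_le _ _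
        _ ≤ ‖h z‖ + ‖(m : ℂ) * α * gl z‖ + ‖κ₀ * (1 / z ^ 2)‖ := by
          gcongr
          exact norm_sub_le _ _
        _ ≤ _ := by linarith
  have hsmall := V_small hp1 hC50 (fun z hz => (hRd z hz).continuousAt) r2 r3 r4 r5
  -- the main formula
  have key : ∀ y : ℝ, 1 ≤ y → ‖((M lam c α y - m * α * Real.log y : ℝ) : ℂ) -
      (κ₀ + m * α * Real.eulerMascheroniConstant)‖ ≤ (2 * Real.pi)⁻¹ * Real.exp 1 *
        ((1 / y) * ∫ t : ℝ, ‖R (((1 / y : ℝ) : ℂ) + t * I)‖) := by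
    intro y hy
    have hy0 : 0 < y := by linarith
    have hyc : (y : ℂ) ≠ 0 := by exact_mod_cast hy0.ne'
    set c₀ : ℝ := 1 / y with hc₀
    have hc00 : 0 < c₀ := by positivity
    have hc01 : c₀ ≤ 1 := by rw [hc₀, div_le_one hy0]; exact hy
    have hc0x : c₀ ≤ x₀ := hc01.trans hx1
    have hcy : c₀ * y = 1 := by rw [hc₀]; field_simp
    -- the bounds on the strip
    obtain ⟨Cg, hCg, hgl⟩ := gl_bound h0 hc00
    have hgb : ∀ z : ℂ, c₀ ≤ z.re → ‖gl z‖ ≤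
        (Cg * (1 + 1 / c₀) ^ p) * (1 + |z.im|) ^ (-p) := by
      intro z hz1
      have e0 := hz1.trans (re_le_norm z)
      have e2 := hgl z e0
      have e3 := nb hc00 hp0 e0
      rw [mul_assoc]
      exact e2.trans (mul_le_mul_of_nonneg_left e3 hCg)
    set Bh : ℝ := C₄ * ((1 + 1 / c₀) ^ (2 : ℝ) + 1 / c₀) +
      ‖(m : ℂ) * α‖ * (Cg * (1 + 1 / c₀) ^ p) with hBh
    have hBh0 : 0 ≤ Bh := by positivity
    have hhb : ∀ z : ℂ, c₀ ≤ z.re → z.re ≤ x₀ → ‖h z‖ ≤ Bh * (1 + |z.im|) ^ (-p) := by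
      intro z hz1 hz2
      have hz0 : 0 < z.re := hc00.trans_le hz1
      have htp : 0 < (1 + |z.im|) ^ (-p) := Real.rpow_pos_of_pos (by positivity) _
      have e1 := norm_add_le (h z - m * α * gl z) ((m : ℂ) * α * gl z)
      rw [sub_add_cancel] at e1
      have e2 := hrem z hz0 hz2
      have e3 := sq_line hc00 hz1 hp2
      have e4 : 1 / z.re ≤ 1 / c₀ := one_div_le_one_div_of_le hc00 hz1
      have e5 : ‖(m : ℂ) * α * gl z‖ ≤ ‖(m : ℂ) * α‖ * ((Cg * (1 + 1 / c₀) ^ p) *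
          (1 + |z.im|) ^ (-p)) := by
        rw [norm_mul]
        exact mul_le_mul_of_nonneg_left (hgb z hz1) (norm_nonneg _)
      calc ‖h z‖ ≤ C₄ * (1 / ‖z‖ ^ 2 + 1 / z.re * (1 + |z.im|) ^ (-p)) +
            ‖(m : ℂ) * α‖ * ((Cg * (1 + 1 / c₀) ^ p) * (1 + |z.im|) ^ (-p)) :=
            e1.trans (add_le_add e2 e5)
        _ ≤ C₄ * ((1 + 1 / c₀) ^ (2 : ℝ) * (1 + |z.im|) ^ (-p) +
            1 / c₀ * (1 + |z.im|) ^ (-p)) +
            ‖(m : ℂ) * α‖ * ((Cg * (1 + 1 / c₀) ^ p) * (1 + |z.im|) ^ (-p)) := by gcongr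
        _ = _ := by rw [hBh]; ring
    -- the formula on the line `x₀`
    have a1 : ((y * M lam c α y : ℝ) : ℂ) = V x₀ (fun z => exp (z * y) * h z) := by
      rw [yM_eq D h0 h1 hx1 hy0 hx₀]
      unfold V
      congr 2
      funext t
      have e1 : 0 < ((x₀ : ℂ) + t * I).re := by rw [hre]; linarith
      have e2 : x₀ ≤ ‖(x₀ : ℂ) + t * I‖ := by
        have := re_le_norm ((x₀ : ℂ) + t * I)
        rwa [hre] at this
      rw [hh']
      unfold hh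
      simp only
      rw [hff _ e1 e2, qf_far H h0 h1 e1 (hx₀ _ e1 e2)]
    have a2 : V x₀ (fun z => exp (z * y) * h z) = V c₀ (fun z => exp (z * y) * h z) := by
      refine (shift hp1 hc0x (B := Real.exp (x₀ * y) * Bh) (fun s hs _ => ?_)
        fun s hs hs2 => ?_).symm
      · exact DifferentiableAt.mul (by fun_prop) (hhd s (hc00.trans_le hs))
      · rw [norm_mul, Complex.norm_exp, Complex.re_mul_ofReal, mul_assoc]
        refine mul_le_mul (Real.exp_le_exp.2 ?_) (hhb s hs hs2) (norm_nonneg _) (Real.exp_pos _).le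
        exact mul_le_mul_of_nonneg_right hs2 hy0.le
    -- integrability
    have hline : ∀ (F : ℂ → ℂ) (B : ℝ), (∀ z : ℂ, 0 < z.re → DifferentiableAt ℂ F z) →
        (∀ z : ℂ, z.re = c₀ → ‖F z‖ ≤ B * (1 + |z.im|) ^ (-p)) →
        Integrable fun t : ℝ => exp (((c₀ : ℂ) + t * I) * y) * F (c₀ + t * I) := by
      intro F B hF hFB
      refine line_int (H := fun z => exp (z * y) * F z) (p := p)
        (B := Real.exp 1 * B) hp1 (fun s hs => ?_) (fun s hs => ?_)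
      · have hs0 : 0 < s.re := by rw [hs]; exact hc00
        have e2 : DifferentiableAt ℂ (fun z : ℂ => exp (z * y)) s := by fun_prop
        exact (e2.mul (hF s hs0)).continuousAt
      · rw [norm_mul, Complex.norm_exp, Complex.re_mul_ofReal, hs, hcy, mul_assoc (Real.exp 1)]
        exact mul_le_mul_of_nonneg_left (hFB s hs) (Real.exp_pos _).le
    have ig := hline gl _ (fun z hz => gl_diff hz) (fun z hz => hgb z hz.ge)
    have iq := hline (fun z => 1 / z ^ 2) ((1 + 1 / c₀) ^ (2 : ℝ)) (fun z hz => hsqd z hz)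
      (fun z hz => by
        rw [norm_div, norm_one, norm_pow]
        exact sq_line hc00 hz.ge hp2)
    have ih := hline h Bh hhd (fun z hz => hhb z hz.ge (by rw [hz]; exact hc0x))
    have iR : Integrable fun t : ℝ => exp (((c₀ : ℂ) + t * I) * y) * R (c₀ + t * I) := by
      have e1 := (ih.sub (ig.const_mul ((m : ℂ) * α))).sub (iq.const_mul κ₀)
      refine e1.congr (ae_of_all _ fun t => ?_)
      simp only [Pi.sub_apply]
      rw [hR]
      ring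
    have a3 : V c₀ (fun z => exp (z * y) * h z) = V c₀ (fun z => exp (z * y) * R z) +
        m * α * V c₀ (fun z => exp (z * y) * gl z) + κ₀ * V c₀ (fun z => exp (z * y) / z ^ 2) := by
      have e1 : ∀ t : ℝ, exp (((c₀ : ℂ) + t * I) * y) * h (c₀ + t * I) =
          exp (((c₀ : ℂ) + t * I) * y) * R (c₀ + t * I) +
          (m : ℂ) * α * (exp (((c₀ : ℂ) + t * I) * y) * gl (c₀ + t * I)) +
          κ₀ * (exp (((c₀ : ℂ) + t * I) * y) * (1 / ((c₀ : ℂ) + t * I) ^ 2)) := by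
        intro t
        rw [hR]
        ring
      unfold V
      simp only [e1]
      have i1 : Integrable fun t : ℝ => exp (((c₀ : ℂ) + t * I) * y) * R (c₀ + t * I) +
          (m : ℂ) * α * (exp (((c₀ : ℂ) + t * I) * y) * gl (c₀ + t * I)) :=
        iR.add (ig.const_mul _)
      rw [integral_add i1 (iq.const_mul _),
        integral_add iR (ig.const_mul _), integral_const_mul, integral_const_mul]
      simp only [mul_one_div]
      ring
    have a4 : V c₀ (fun z => exp (z * y) * gl z) =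
        y * (Real.eulerMascheroniConstant + Real.log y) := by
      rw [← gg_line hc00 (Or.inl hc01), gg_pos hy0, L₀_eq]
    have a5 : V c₀ (fun z => exp (z * y) / z ^ 2) = y := V_sq hy0
    have a6 : ((M lam c α y - m * α * Real.log y : ℝ) : ℂ) -
        (κ₀ + m * α * Real.eulerMascheroniConstant) =
        (1 / y : ℂ) * V c₀ (fun z => exp (z * y) * R z) := by
      rw [a2, a3, a4, a5] at a1
      push_cast at a1 ⊢
      rw [one_div, eq_inv_mul_iff_mul_eq₀ hyc]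
      linear_combination a1
    rw [a6, norm_mul]
    have e0 : ‖(1 / y : ℂ)‖ = 1 / y := by
      rw [norm_div, norm_one, Complex.norm_real, Real.norm_eq_abs, abs_of_pos hy0]
    have e1 := norm_V_le (H := fun z => exp (z * y) * R z) (c := c₀)
      (g := fun t => ‖exp (((c₀ : ℂ) + t * I) * y) * R (c₀ + t * I)‖) iR.norm (fun t => le_rfl)
    have e2 : ∀ t : ℝ, ‖exp (((c₀ : ℂ) + t * I) * y) * R (c₀ + t * I)‖ =
        Real.exp 1 * ‖R (c₀ + t * I)‖ := fun t => by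
      rw [norm_mul, Complex.norm_exp, Complex.re_mul_ofReal, hre, hcy]
    simp only [e2] at e1
    rw [integral_const_mul] at e1
    rw [e0]
    calc 1 / y * ‖V c₀ (fun z => exp (z * y) * R z)‖ ≤ 1 / y * ((2 * Real.pi)⁻¹ *
          (Real.exp 1 * ∫ t : ℝ, ‖R (c₀ + t * I)‖)) := by gcongr
      _ = _ := by rw [hc₀]; ring
  rw [← tendsto_sub_nhds_zero_iff]
  have hs2 := hsmall.const_mul ((2 * Real.pi)⁻¹ * Real.exp 1)
  rw [mul_zero] at hs2
  refine squeeze_zero_norm' ?_ hs2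
  filter_upwards [eventually_ge_atTop 1] with y hy
  exact key y hy

end Pool.Agent.TH942.SL
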