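import Pool.Agent.TH942.SL.Wt

/-!
# The means after an integration by parts
-/

set_option autoImplicit false

open MeasureTheory Filter Topology Set Complex
open Pool.Agent.TH942.LS (Dat P P_le)

namespace Pool.Agent.TH942.SL

variable {α : ℝ} {lam c : ℕ → ℝ} {δ σ : ℝ}

/-- powers of the norm on a line -/
lemma nb {x p : ℝ} (hx : 0 < x) (hp : 0 ≤ p) {z : ℂ} (hz : x ≤ ‖z‖) :
    ‖z‖ ^ (-p) ≤ (1 + 1 / x) ^ p * (1 + |z.im|) ^ (-p) := by
  have hn : 0 < ‖z‖ := hx.trans_le hz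
  have h1 : 1 + |z.im| ≤ (1 + 1 / x) * ‖z‖ := by
    have e1 := abs_im_le_norm z
    have e2 : 1 ≤ ‖z‖ / x := by rwa [le_div_iff₀ hx, one_mul]
    calc 1 + |z.im| ≤ ‖z‖ / x + ‖z‖ := by linarith
      _ = _ := by ring
  have h2 : 0 < 1 + |z.im| := by positivity
  rw [Real.rpow_neg hn.le, Real.rpow_neg h2.le, ← div_eq_mul_inv, le_div_iff₀ (by positivity),
    inv_mul_le_iff₀ (by positivity), mul_comm (‖z‖ ^ p), ← Real.mul_rpow (by positivity) hn.le]
  exact Real.rpow_le_rpow h2.le h1 hp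

/-- the sum of the coefficients at the abscissa -/
noncomputable def S₀ (lam c : ℕ → ℝ) (σ : ℝ) : ℝ := ∑' n, |c n| * Real.exp (-(σ * lam n))

lemma S₀_nonneg (lam c : ℕ → ℝ) (σ : ℝ) : 0 ≤ S₀ lam c σ := tsum_nonneg fun n => by positivity

lemma f₀_bound (D : Dat lam c δ σ) (h0 : 0 < α) (h1 : α < 1) {z : ℂ} (hz : 0 < z.re)
    (hs : σ ≤ kap α * ‖z‖ ^ α) : ‖f₀ lam c α z‖ ≤
      S₀ lam c σ * Real.exp (δ * σ) * Real.exp (-(δ * kap α * ‖z‖ ^ α)) := by
  have h2 := re_pow_ge h0 h1 hz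
  have h3 := dd_le D (s := z ^ (α : ℂ)) (hs.trans h2)
  unfold f₀
  refine h3.trans ?_
  rw [mul_assoc, ← Real.exp_add]
  refine mul_le_mul_of_nonneg_left (Real.exp_le_exp.2 ?_) (S₀_nonneg _ _ _)
  have := mul_le_mul_of_nonneg_left h2 D.δ0.le
  nlinarith

lemma f₀_bound' (D : Dat lam c δ σ) (h0 : 0 < α) (h1 : α < 1) {z : ℂ} (hz : 0 < z.re)
    (hs : σ ≤ kap α * ‖z‖ ^ α) : ‖f₀ lam c α z‖ ≤ S₀ lam c σ := by
  have h2 := re_pow_ge h0 h1 hz
  have h3 := dd_le D (s := z ^ (α : ℂ)) (hs.trans h2)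
  unfold f₀
  refine h3.trans ?_
  have h4 : Real.exp (-(δ * ((z ^ (α : ℂ)).re - σ))) ≤ 1 := Real.exp_le_one_iff.2 (by
    have := mul_nonneg D.δ0.le (sub_nonneg.2 (hs.trans h2))
    linarith)
  calc _ ≤ (∑' n, |c n| * Real.exp (-(σ * lam n))) * 1 :=
        mul_le_mul_of_nonneg_left h4 (S₀_nonneg lam c σ)
    _ = _ := by rw [mul_one]; rfl

lemma P_bound (D : Dat lam c δ σ) {s : ℂ} (hs : σ + 1 ≤ s.re) :
    ‖P lam c s‖ ≤ 2 / δ * S₀ lam c σ := by
  have h1 := P_le D (s := s) (by linarith)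
  refine h1.trans ?_
  have hδ := D.δ0
  have hS := S₀_nonneg lam c σ
  have h2 : 1 ≤ (s.re - σ) ^ 2 := by nlinarith
  exact div_le_self (by unfold S₀ at hS; positivity) h2

lemma f₁_bound (D : Dat lam c δ σ) (h0 : 0 < α) (h1 : α < 1) {z : ℂ} (hz : 0 < z.re)
    (hs : σ + 1 ≤ kap α * ‖z‖ ^ α) : ‖f₁ lam c α z‖ ≤
      α * (2 / δ * S₀ lam c σ) * ‖z‖ ^ (α - 1) := by
  unfold f₁
  rw [norm_neg, norm_mul, norm_pow_deriv h0]
  have h2 := P_bound D (s := z ^ (α : ℂ)) (hs.trans (re_pow_ge h0 h1 hz))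
  calc α * ‖z‖ ^ (α - 1) * ‖P lam c (z ^ (α : ℂ))‖ ≤ α * ‖z‖ ^ (α - 1) * (2 / δ * S₀ lam c σ) := by
        gcongr
    _ = _ := by ring

/-- general bound of `hh` -/
lemma hh_le {f f' : ℂ → ℂ} {z : ℂ} {A B : ℝ} (hz1 : 1 ≤ ‖z‖) (h0 : 0 < α) (hA : ‖f z‖ ≤ A)
    (hB : ‖f' z‖ ≤ B * ‖z‖ ^ (α - 1)) : ‖hh f f' z‖ ≤ (A + B) * ‖z‖ ^ (-(2 - α)) := by
  have hn : 0 < ‖z‖ := by linarith
  unfold hh
  refine (norm_sub_le _ _).trans ?_
  rw [norm_div, norm_div, norm_pow]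
  have e1 : ‖f z‖ / ‖z‖ ^ 2 ≤ A * ‖z‖ ^ (-(2 - α)) := by
    have e2 : (‖z‖ ^ 2)⁻¹ ≤ ‖z‖ ^ (-(2 - α)) := by
      have e3 : (‖z‖ ^ 2)⁻¹ = ‖z‖ ^ (-(2 : ℝ)) := by
        rw [Real.rpow_neg hn.le]
        norm_num
      rw [e3]
      exact Real.rpow_le_rpow_of_exponent_le hz1 (by linarith)
    rw [div_eq_mul_inv]
    exact mul_le_mul hA e2 (by positivity) ((norm_nonneg _).trans hA)
  have e2 : ‖f' z‖ / ‖z‖ ≤ B * ‖z‖ ^ (-(2 - α)) := by
    rw [div_le_iff₀ hn]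
    refine hB.trans (le_of_eq ?_)
    rw [mul_assoc]
    congr 1
    rw [← Real.rpow_add_one hn.ne']
    congr 1
    ring
  rw [add_mul]
  exact add_le_add e1 e2

/-- the integrand is integrable on lines and decays -/
theorem hh_bound (D : Dat lam c δ σ) (h0 : 0 < α) (h1 : α < 1) {z : ℂ} (hz : 0 < z.re)
    (hz1 : 1 ≤ ‖z‖) (hs : σ + 1 ≤ kap α * ‖z‖ ^ α) : ‖hh (f₀ lam c α) (f₁ lam c α) z‖ ≤
      (S₀ lam c σ + α * (2 / δ * S₀ lam c σ)) * ‖z‖ ^ (-(2 - α)) :=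
  hh_le hz1 h0 (f₀_bound' D h0 h1 hz (by linarith)) (f₁_bound D h0 h1 hz hs)

lemma f₁_diff (D : Dat lam c δ σ) (h0 : 0 < α) (h1 : α < 1) {z : ℂ} (hz : 0 < z.re)
    (hs : σ + 1 ≤ kap α * ‖z‖ ^ α) : DifferentiableAt ℂ (f₁ lam c α) z := by
  -- `f₁` is the derivative of the analytic function `f₀`
  have hc : ContinuousAt (fun w : ℂ => (w ^ (α : ℂ)).re) z :=
    Complex.continuous_re.continuousAt.comp (pow_deriv (α := α) (slit hz)).continuousAt
  have hσ : σ < (z ^ (α : ℂ)).re := by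
    have := re_pow_ge h0 h1 hz
    linarith
  have ho : ∀ᶠ w in 𝓝 z, 0 < w.re ∧ σ < (w ^ (α : ℂ)).re := by
    have e1 : ∀ᶠ w : ℂ in 𝓝 z, 0 < w.re :=
      (isOpen_lt continuous_const Complex.continuous_re).mem_nhds hz
    exact e1.and (hc.eventually (lt_mem_nhds hσ))
  obtain ⟨r, hr, hball⟩ := Metric.eventually_nhds_iff_ball.1 ho
  have h2 : DifferentiableOn ℂ (f₀ lam c α) (Metric.ball z r) := fun w hw =>
    (f₀_deriv D (hball w hw).1 (hball w hw).2).differentiableAt.differentiableWithinAt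
  have h3 : DifferentiableAt ℂ (deriv (f₀ lam c α)) z :=
    (h2.deriv Metric.isOpen_ball).differentiableAt (Metric.ball_mem_nhds z hr)
  refine h3.congr_of_eventuallyEq ?_
  filter_upwards [Metric.ball_mem_nhds z hr] with w hw
  exact (f₀_deriv D (hball w hw).1 (hball w hw).2).deriv.symm

lemma hh_diff {f f' : ℂ → ℂ} {z : ℂ} (hz : 0 < z.re) (h1 : DifferentiableAt ℂ f z)
    (h2 : DifferentiableAt ℂ f' z) : DifferentiableAt ℂ (hh f f') z := by
  unfold hh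
  have hz0 := ne_zero' hz
  have e1 : DifferentiableAt ℂ (fun z : ℂ => z ^ 2) z := by fun_prop
  exact (h1.div e1 (pow_ne_zero 2 hz0)).sub (h2.div differentiableAt_id hz0)

/-- **the formula for `y M(y)`** -/
theorem yM_eq (D : Dat lam c δ σ) (h0 : 0 < α) (h1 : α < 1) {x y : ℝ} (hx : 1 ≤ x) (hy : 0 < y)
    (hxs : ∀ z : ℂ, 0 < z.re → x ≤ ‖z‖ → σ + 1 ≤ kap α * ‖z‖ ^ α) :
    ((y * M lam c α y : ℝ) : ℂ) =
      V x (fun z => exp (z * y) * hh (f₀ lam c α) (f₁ lam c α) z) := by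
  have hx0 : 0 < x := by linarith
  have hk := kap_pos h0 h1
  have hδ := D.δ0
  have hline : ∀ z : ℂ, z.re = x → 0 < z.re ∧ x ≤ ‖z‖ := fun z hz =>
    ⟨by rw [hz]; exact hx0, by rw [← hz]; exact re_le_norm z⟩
  have hσ : ∀ z : ℂ, z.re = x → σ + 1 ≤ kap α * ‖z‖ ^ α := fun z hz =>
    hxs z (hline z hz).1 (hline z hz).2
  obtain ⟨hM, -⟩ := M_eq D h0 h1 hx0 hy fun z hz => by have := hσ z hz; linarith
  have hσ' : ∀ z : ℂ, z.re = x → σ < (z ^ (α : ℂ)).re := fun z hz => by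
    have e1 := hσ z hz
    have e2 := re_pow_ge h0 h1 (hline z hz).1
    linarith
  set F : ℂ → ℂ := fun z => exp (z * y) * (f₀ lam c α z / z) with hF
  set F' : ℂ → ℂ := fun z => y * (exp (z * y) * (f₀ lam c α z / z)) -
    exp (z * y) * hh (f₀ lam c α) (f₁ lam c α) z with hF'
  have hd : ∀ z : ℂ, z.re = x → HasDerivAt F (F' z) z := by
    intro z hz
    have hz0 := ne_zero' (hline z hz).1
    have e1 := f₀_deriv D (hline z hz).1 (hσ' z hz)
    have e2 : HasDerivAt (fun z : ℂ => exp (z * y)) (exp (z * y) * (1 * y)) z :=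
      ((hasDerivAt_id z).mul_const _).cexp
    refine (e2.mul (e1.div (hasDerivAt_id z) hz0)).congr_deriv ?_
    rw [hF']
    simp only [hh, id, Pi.div_apply]
    field_simp
    ring
  -- bounds on the line
  obtain ⟨C, hC, hC'⟩ := stretched h0 (a := δ * kap α) (by positivity)
  have hre : ∀ t : ℝ, ((x : ℂ) + t * I).re = x := fun t => by simp
  have him : ∀ t : ℝ, ((x : ℂ) + t * I).im = t := fun t => by simp
  have hexp : ∀ t : ℝ, ‖exp (((x : ℂ) + t * I) * y)‖ = Real.exp (x * y) := fun t => by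
    rw [Complex.norm_exp, Complex.re_mul_ofReal, hre]
  set K : ℝ := Real.exp (x * y) * (S₀ lam c σ * Real.exp (δ * σ) * C) with hK
  have hS := S₀_nonneg lam c σ
  have hFb : ∀ t : ℝ, ‖F (x + t * I)‖ ≤ K * (1 + |t|) ^ (-(2 : ℝ)) := by
    intro t
    set z : ℂ := (x : ℂ) + t * I with hz
    obtain ⟨h2, h3⟩ := hline z (hre t)
    have e1 := f₀_bound D h0 h1 h2 (by have := hσ z (hre t); linarith)
    have e2 : |t| ^ α ≤ ‖z‖ ^ α := by
      refine Real.rpow_le_rpow (abs_nonneg _) ?_ h0.le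
      have := abs_im_le_norm z
      rwa [hz, him] at this
    have e3 : Real.exp (-(δ * kap α * ‖z‖ ^ α)) ≤ C * (1 + |t|) ^ (-(2 : ℝ)) := by
      refine (Real.exp_le_exp.2 ?_).trans (hC' |t| (abs_nonneg _))
      have := mul_le_mul_of_nonneg_left e2 (by positivity : 0 ≤ δ * kap α)
      linarith
    rw [hF]
    simp only
    rw [norm_mul, norm_div, hz, hexp, ← hz]
    have e4 : ‖f₀ lam c α z‖ / ‖z‖ ≤ ‖f₀ lam c α z‖ := div_le_self (norm_nonneg _) (by linarith)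
    calc Real.exp (x * y) * (‖f₀ lam c α z‖ / ‖z‖) ≤ Real.exp (x * y) *
          (S₀ lam c σ * Real.exp (δ * σ) * (C * (1 + |t|) ^ (-(2 : ℝ)))) := by
          refine mul_le_mul_of_nonneg_left (e4.trans (e1.trans ?_)) (Real.exp_pos _).le
          exact mul_le_mul_of_nonneg_left e3 (by positivity)
      _ = _ := by rw [hK]; ring
  have hdiff0 : ∀ s : ℂ, s.re = x → DifferentiableAt ℂ (f₀ lam c α) s := fun s hs =>
    (f₀_deriv D (hline s hs).1 (hσ' s hs)).differentiableAt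
  have hFi : Integrable (fun t : ℝ => F (x + t * I)) := by
    refine Integrable.mono' ((decay_int (p := 2) (by norm_num)).const_mul K) ?_ (ae_of_all _ hFb)
    refine (line_cont (H := F) fun s hs => ?_).aestronglyMeasurable
    exact (hd s hs).continuousAt
  have hHi : Integrable (fun t : ℝ => exp (((x : ℂ) + t * I) * y) *
      hh (f₀ lam c α) (f₁ lam c α) (x + t * I)) := by
    set B := (S₀ lam c σ + α * (2 / δ * S₀ lam c σ)) with hB
    refine line_int (H := fun z => exp (z * y) * hh (f₀ lam c α) (f₁ lam c α) z) (p := 2 - α)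
      (B := Real.exp (x * y) * (B * (1 + 1 / x) ^ (2 - α))) (by linarith) (fun s hs => ?_)
      (fun s hs => ?_)
    · have e1 := hh_diff (hline s hs).1 (hdiff0 s hs) (f₁_diff D h0 h1 (hline s hs).1 (hσ s hs))
      have e2 : DifferentiableAt ℂ (fun z : ℂ => exp (z * y)) s := by fun_prop
      exact (e2.mul e1).continuousAt
    · obtain ⟨h2, h3⟩ := hline s hs
      have e1 := hh_bound D h0 h1 h2 (by linarith) (hσ s hs)
      have e2 := nb hx0 (by linarith : 0 ≤ 2 - α) h3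
      rw [norm_mul, Complex.norm_exp, Complex.re_mul_ofReal, hs]
      have hB0 : 0 ≤ B := by positivity
      calc Real.exp (x * y) * ‖hh (f₀ lam c α) (f₁ lam c α) s‖ ≤
            Real.exp (x * y) * (B * ((1 + 1 / x) ^ (2 - α) * (1 + |s.im|) ^ (-(2 - α)))) := by
            refine mul_le_mul_of_nonneg_left (e1.trans ?_) (Real.exp_pos _).le
            exact mul_le_mul_of_nonneg_left e2 hB0
        _ = _ := by ring
  have hlim : Tendsto (fun t : ℝ => K * (1 + |t|) ^ (-(2 : ℝ))) atTop (𝓝 0) := by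
    have e1 : Tendsto (fun T : ℝ => (1 + |T|)) atTop atTop :=
      tendsto_atTop_add_const_left _ _ tendsto_abs_atTop_atTop
    have e2 := (tendsto_rpow_neg_atTop (y := 2) (by norm_num)).comp e1
    have e3 := e2.const_mul K
    simpa using e3
  have hlim' : Tendsto (fun t : ℝ => K * (1 + |t|) ^ (-(2 : ℝ))) atBot (𝓝 0) := by
    have e1 : Tendsto (fun T : ℝ => (1 + |T|)) atBot atTop :=
      tendsto_atTop_add_const_left _ _ tendsto_abs_atBot_atTop
    have e2 := (tendsto_rpow_neg_atTop (y := 2) (by norm_num)).comp e1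
    have e3 := e2.const_mul K
    simpa using e3
  have hV := V_deriv (F := F) (F' := F') hd ((hFi.const_mul (y : ℂ)).sub hHi)
    (squeeze_zero_norm hFb hlim) (squeeze_zero_norm hFb hlim')
  have hV2 : V x F' = y * V x F - V x (fun z => exp (z * y) *
      hh (f₀ lam c α) (f₁ lam c α) z) := by
    unfold V
    rw [hF']
    simp only
    rw [integral_sub (hFi.const_mul (y : ℂ)) hHi, integral_const_mul]
    ring
  rw [hV2, sub_eq_zero] at hV
  rw [← hV]
  push_cast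
  rw [hM]

end Pool.Agent.TH942.SL
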