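import Pool.Agent.TH942.SL.LimSect

/-!
# The logarithmic asymptotic at the vertex from the limit of the means
-/

set_option autoImplicit false

open MeasureTheory Filter Topology Set Complex
open Pool.Agent.TH942.LS (Dat P P_le Cont Qf)

namespace Pool.Agent.TH942.SL

variable {α : ℝ} {lam c : ℕ → ℝ} {δ σ : ℝ}

/-- `|y log y| ≤ 1 + y²` -/
lemma ylog_le {y : ℝ} (hy : 0 < y) : |y * Real.log y| ≤ 1 + y ^ 2 := by
  rw [abs_mul, abs_of_pos hy]
  rcases le_total 1 y with h | h
  · rw [abs_of_nonneg (Real.log_nonneg h)]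
    have := Real.log_le_sub_one_of_pos hy
    nlinarith
  · rw [abs_of_nonpos (Real.log_nonpos hy.le h)]
    have := Real.one_sub_inv_le_log_of_pos hy
    have e1 : y * (-Real.log y) ≤ y * y⁻¹ := mul_le_mul_of_nonneg_left (by linarith) hy.le
    rw [mul_inv_cancel₀ hy.ne'] at e1
    nlinarith

/-- the Laplace transform of `y (γ + log y)` -/
lemma laplace_gg {v : ℂ} (hv : 0 < v.re) :
    IntegrableOn (fun y : ℝ => exp (-(v * y)) *
      ((y * (Real.eulerMascheroniConstant + Real.log y) : ℝ) : ℂ)) (Ioi 0) ∧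
    ∫ y in Ioi (0 : ℝ), exp (-(v * y)) *
      ((y * (Real.eulerMascheroniConstant + Real.log y) : ℝ) : ℂ) = gl v := by
  set x := v.re with hx
  obtain ⟨⟨i1, -⟩, ⟨i2, -⟩, ⟨i3, -⟩⟩ := exp_ints hv
  have hI : IntegrableOn (fun y : ℝ => exp (-(v * y)) *
      ((y * (Real.eulerMascheroniConstant + Real.log y) : ℝ) : ℂ)) (Ioi 0) := by
    have hdom : IntegrableOn (fun y : ℝ => |Real.eulerMascheroniConstant| *
        (y * Real.exp (-(x * y))) + (Real.exp (-(x * y)) + y ^ 2 * Real.exp (-(x * y))))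
        (Ioi 0) := (i2.const_mul _).add (i1.add i3)
    refine Integrable.mono' hdom ?_ ?_
    · refine ContinuousOn.aestronglyMeasurable ?_ measurableSet_Ioi
      refine ContinuousOn.mul (by fun_prop) ?_
      refine continuous_ofReal.comp_continuousOn ?_
      refine continuousOn_id.mul (continuousOn_const.add ?_)
      exact Real.continuousOn_log.mono fun t ht => (ne_of_gt ht : t ≠ 0)
    · filter_upwards [ae_restrict_mem measurableSet_Ioi] with y hy
      have hy0 : (0 : ℝ) < y := hy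
      rw [norm_mul, Complex.norm_exp, Complex.norm_real, Real.norm_eq_abs]
      have e1 : (-(v * (y : ℂ))).re = -(x * y) := by
        rw [Complex.neg_re, Complex.re_mul_ofReal]
      rw [e1]
      have e2 := ylog_le hy0
      have e3 : |y * (Real.eulerMascheroniConstant + Real.log y)| ≤
          |Real.eulerMascheroniConstant| * y + (1 + y ^ 2) := by
        rw [mul_add]
        refine (abs_add_le _ _).trans (add_le_add (le_of_eq ?_) e2)
        rw [abs_mul, abs_of_pos hy0, mul_comm]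
      calc _ ≤ Real.exp (-(x * y)) * (|Real.eulerMascheroniConstant| * y + (1 + y ^ 2)) :=
            mul_le_mul_of_nonneg_left e3 (Real.exp_pos _).le
        _ = _ := by ring
  refine ⟨hI, ?_⟩
  -- the inversion formula
  obtain ⟨B, hB, hBB⟩ := gl_line hv
  have hcg : Continuous fun t : ℝ => gl ((x : ℂ) + t * I) :=
    line_cont fun s hs => (gl_diff (by rw [hs]; exact hv)).continuousAt
  have hcl : Integrable fun t : ℝ => gl ((x : ℂ) + t * I) :=
    line_int (p := 3 / 2) (B := B) (by norm_num)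
      (fun s hs => (gl_diff (by rw [hs]; exact hv)).continuousAt) fun s hs => hBB s hs.ge
  have hfun : ∀ (w : ℂ) (y : ℝ), y ≠ 0 → exp (-(w * y)) * gg y =
      (Ioi (0 : ℝ)).indicator (fun y : ℝ => exp (-(w * y)) *
      ((y * (Real.eulerMascheroniConstant + Real.log y) : ℝ) : ℂ)) y := by
    intro w y hy
    rcases lt_or_gt_of_ne hy with h | h
    · rw [gg_neg h, mul_zero, indicator_of_notMem (show y ∉ Ioi (0 : ℝ) from fun h2 => by
        have : (0 : ℝ) < y := h2
        linarith)]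
    · rw [gg_pos h, indicator_of_mem (show y ∈ Ioi (0 : ℝ) from h), L₀_eq]
      push_cast
      ring
  have hae0 : ∀ᵐ y : ℝ, y ≠ 0 := by
    rw [ae_iff]
    simp
  have hae : ∀ w : ℂ, (fun y : ℝ => exp (-(w * y)) * gg y) =ᵐ[volume]
      (Ioi (0 : ℝ)).indicator (fun y : ℝ => exp (-(w * y)) *
      ((y * (Real.eulerMascheroniConstant + Real.log y) : ℝ) : ℂ)) := by
    intro w
    filter_upwards [hae0] with y hy
    exact hfun w y hy
  have hI2 : IntegrableOn (fun y : ℝ => exp (-((x : ℂ) * y)) *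
      ((y * (Real.eulerMascheroniConstant + Real.log y) : ℝ) : ℂ)) (Ioi 0) := by
    refine Integrable.mono hI ?_ ?_
    · refine ContinuousOn.aestronglyMeasurable ?_ measurableSet_Ioi
      refine ContinuousOn.mul (by fun_prop) ?_
      refine continuous_ofReal.comp_continuousOn ?_
      refine continuousOn_id.mul (continuousOn_const.add ?_)
      exact Real.continuousOn_log.mono fun t ht => (ne_of_gt ht : t ≠ 0)
    · refine ae_of_all _ fun y => ?_
      rw [norm_mul, norm_mul, Complex.norm_exp, Complex.norm_exp]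
      have e1 : (-(v * (y : ℂ))).re = (-((x : ℂ) * (y : ℂ))).re := by
        rw [Complex.neg_re, Complex.neg_re, Complex.re_mul_ofReal, Complex.re_mul_ofReal,
          Complex.ofReal_re]
      rw [e1]
  have hint : Integrable (fun y : ℝ => exp (-((x : ℂ) * y)) * gg y) := by
    refine Integrable.congr ?_ (hae (x : ℂ)).symm
    rw [integrable_indicator_iff measurableSet_Ioi]
    exact hI2
  have hinv := inversion (H := gl) (c := x) hcg hcl (g := gg)
    (fun y => gg_line hv (le_total _ _)) hint v.im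
  have e1 : (x : ℂ) + (v.im : ℂ) * I = v := by
    rw [hx]
    exact Complex.re_add_im v
  rw [e1, integral_congr_ae (hae v), integral_indicator measurableSet_Ioi] at hinv
  exact hinv

/-- the Laplace transform of `y` -/
lemma laplace_id {v : ℂ} (hv : 0 < v.re) :
    IntegrableOn (fun y : ℝ => exp (-(v * y)) * (y : ℂ)) (Ioi 0) ∧
    ∫ y in Ioi (0 : ℝ), exp (-(v * y)) * (y : ℂ) = 1 / v ^ 2 := by
  set x := v.re with hx
  obtain ⟨-, ⟨i2, -⟩, -⟩ := exp_ints hv
  have hI : IntegrableOn (fun y : ℝ => exp (-(v * y)) * (y : ℂ)) (Ioi 0) := by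
    refine Integrable.mono' i2 (Continuous.aestronglyMeasurable (by fun_prop)) ?_
    filter_upwards [ae_restrict_mem measurableSet_Ioi] with y hy
    have hy0 : (0 : ℝ) < y := hy
    rw [norm_mul, Complex.norm_exp, Complex.norm_real, Real.norm_eq_abs, abs_of_pos hy0]
    have e1 : (-(v * (y : ℂ))).re = -(x * y) := by
      rw [Complex.neg_re, Complex.re_mul_ofReal]
    rw [e1, mul_comm]
  refine ⟨hI, ?_⟩
  have hv0 : v ≠ 0 := ne_zero' hv
  obtain ⟨⟨i1, -⟩, -, -⟩ := exp_ints hv
  have hI0 : IntegrableOn (fun y : ℝ => exp (-(v * y))) (Ioi 0) := by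
    refine Integrable.mono' i1 (Continuous.aestronglyMeasurable (by fun_prop)) ?_
    filter_upwards [ae_restrict_mem measurableSet_Ioi] with y hy
    rw [Complex.norm_exp]
    have e1 : (-(v * (y : ℂ))).re = -(x * y) := by
      rw [Complex.neg_re, Complex.re_mul_ofReal]
    rw [e1]
  set F : ℝ → ℂ := fun y => -((1 / v) * (exp (-(v * y)) * (y : ℂ)) + (1 / v ^ 2) *
    exp (-(v * y))) with hF
  have hFd : ∀ y : ℝ, HasDerivAt F (exp (-(v * y)) * (y : ℂ)) y := by
    intro y
    have e1 : HasDerivAt (fun y : ℝ => (y : ℂ)) 1 y := (hasDerivAt_id y).ofReal_comp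
    have e2 : HasDerivAt (fun y : ℝ => exp (-(v * y))) (exp (-(v * y)) * (-(v * 1))) y :=
      ((e1.const_mul v).neg).cexp
    refine (((e2.mul e1).const_mul (1 / v)).add (e2.const_mul (1 / v ^ 2))).neg.congr_deriv ?_
    field_simp
    ring
  have hFi : IntegrableOn F (Ioi 0) := ((hI.const_mul (1 / v)).add (hI0.const_mul (1 / v ^ 2))).neg
  have hFt := tendsto_zero_of_hasDerivAt_of_integrableOn_Ioi (a := 0) (f := F)
    (f' := fun y : ℝ => exp (-(v * y)) * (y : ℂ)) (fun y _ => hFd y) hI hFi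
  have h := integral_Ioi_of_hasDerivAt_of_tendsto (a := 0) (f := F)
    (f' := fun y : ℝ => exp (-(v * y)) * (y : ℂ)) (hFd 0).continuousAt.continuousWithinAt
    (fun y _ => hFd y) hI hFt
  rw [h, hF]
  simp

/-- **The logarithmic asymptotic in cones.** -/
theorem ext_lim {g : ℝ → ℂ} {fh : ℂ → ℂ} (hgc : Continuous g)
    (hd : ∀ v : ℂ, 0 < v.re →
        HasDerivAt (fun v => fh v / v) (-∫ y in Ioi (0 : ℝ), exp (-(v * y)) * g y) v)
    {K : ℝ} {c₀ : ℂ}
    (hK : Tendsto (fun y : ℝ => (g y - ((K * (y * Real.log y) : ℝ) : ℂ)) / y) atTop (𝓝 c₀))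
    {κ : ℝ} (hκ : 0 < κ) :
    Tendsto (fun v => fh v + K * log v) (𝓝[{v : ℂ | 0 < v.re ∧ κ * ‖v‖ ≤ v.re}] 0)
      (𝓝 (c₀ - K * Real.eulerMascheroniConstant)) := by
  set γ := Real.eulerMascheroniConstant with hγ
  -- the remainder
  set e : ℝ → ℂ := fun y => g y - ((K * (y * (γ + Real.log y)) : ℝ) : ℂ) - (c₀ - K * γ) * y with he
  have he1 : ∀ y : ℝ, e y = (g y - ((K * (y * Real.log y) : ℝ) : ℂ)) - c₀ * y := by
    intro y
    rw [he]
    push_cast
    ring
  have hlim : Tendsto (fun y : ℝ => e y / y) atTop (𝓝 0) := by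
    have h1 := hK.sub_const c₀
    rw [sub_self] at h1
    refine h1.congr' ?_
    filter_upwards [eventually_gt_atTop 0] with y hy
    have hyc : (y : ℂ) ≠ 0 := by exact_mod_cast hy.ne'
    rw [he1]
    field_simp
  have hbd : ∀ ε : ℝ, 0 < ε → ∃ B : ℝ, 0 ≤ B ∧ ∀ y : ℝ, 0 < y → ‖e y‖ ≤ ε * y + B := by
    intro ε hε
    have h1 : ∀ᶠ y : ℝ in atTop, ‖e y / y‖ < ε := by
      refine ((Metric.tendsto_nhds.1 hlim) ε hε).mono fun y hy => ?_
      rwa [dist_zero_right] at hy
    obtain ⟨Y, hY⟩ := (h1.and (eventually_gt_atTop 0)).exists_forall_of_atTop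
    obtain ⟨B₁, hB₁⟩ := (isCompact_Icc (a := (0 : ℝ)) (b := |Y|)).exists_bound_of_continuousOn
      (f := fun y => g y - c₀ * y) (by fun_prop)
    refine ⟨|B₁| + |K| * (1 + Y ^ 2), by positivity, fun y hy => ?_⟩
    rcases le_total Y y with h | h
    · obtain ⟨h2, h3⟩ := hY y h
      rw [norm_div, Complex.norm_real, Real.norm_eq_abs, abs_of_pos hy, div_lt_iff₀ hy] at h2
      have : 0 ≤ |B₁| + |K| * (1 + Y ^ 2) := by positivity
      linarith
    · have hyY : y ≤ |Y| := h.trans (le_abs_self Y)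
      have e1 := hB₁ y ⟨hy.le, hyY⟩
      have e2 := ylog_le hy
      have e3 : e y = (g y - c₀ * y) - ((K * (y * Real.log y) : ℝ) : ℂ) := by
        rw [he1]; ring
      rw [e3]
      refine (norm_sub_le _ _).trans ?_
      rw [Complex.norm_real, Real.norm_eq_abs, abs_mul]
      have e4 : y ^ 2 ≤ Y ^ 2 := by
        rw [← sq_abs Y]
        exact pow_le_pow_left₀ hy.le hyY 2
      have e5 : |K| * |y * Real.log y| ≤ |K| * (1 + Y ^ 2) :=
        mul_le_mul_of_nonneg_left (by linarith) (abs_nonneg _)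
      have e6 := le_abs_self B₁
      have e7 : 0 ≤ ε * y := by positivity
      linarith
  -- continuity
  have hec : ContinuousOn e (Ioi 0) := by
    rw [he]
    refine ((hgc.continuousOn).sub ?_).sub (by fun_prop)
    refine continuous_ofReal.comp_continuousOn ?_
    refine continuousOn_const.mul (continuousOn_id.mul (continuousOn_const.add ?_))
    exact Real.continuousOn_log.mono fun t ht => (ne_of_gt ht : t ≠ 0)
  -- the primitive
  set φ : ℂ → ℂ := fun v => fh v / v + K * (log v / v) - (c₀ - K * γ) / v with hφ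
  have hint : ∀ v : ℂ, 0 < v.re → IntegrableOn (fun y : ℝ => exp (-(v * y)) * e y) (Ioi 0) ∧
      ∀ ε B : ℝ, 0 ≤ ε → 0 ≤ B → (∀ y : ℝ, 0 < y → ‖e y‖ ≤ ε * y + B) →
        ‖∫ y in Ioi (0 : ℝ), exp (-(v * y)) * e y‖ ≤ ε * (v.re ^ 2)⁻¹ + B * v.re⁻¹ := by
    intro v hv
    obtain ⟨⟨i1, j1⟩, ⟨i2, j2⟩, -⟩ := exp_ints hv
    have hpt : ∀ ε B : ℝ, (∀ y : ℝ, 0 < y → ‖e y‖ ≤ ε * y + B) → ∀ y : ℝ, 0 < y →
        ‖exp (-(v * y)) * e y‖ ≤ ε * (y * Real.exp (-(v.re * y))) +
          B * Real.exp (-(v.re * y)) := by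
      intro ε B h y hy
      rw [norm_mul, Complex.norm_exp]
      have e1 : (-(v * (y : ℂ))).re = -(v.re * y) := by
        rw [Complex.neg_re, Complex.re_mul_ofReal]
      rw [e1]
      calc _ ≤ Real.exp (-(v.re * y)) * (ε * y + B) :=
            mul_le_mul_of_nonneg_left (h y hy) (Real.exp_pos _).le
        _ = _ := by ring
    constructor
    · obtain ⟨B, hB, h⟩ := hbd 1 one_pos
      have hdom : IntegrableOn (fun y : ℝ => 1 * (y * Real.exp (-(v.re * y))) +
          B * Real.exp (-(v.re * y))) (Ioi 0) := (i2.const_mul _).add (i1.const_mul _)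
      refine Integrable.mono' hdom ?_ ?_
      · exact ContinuousOn.aestronglyMeasurable (ContinuousOn.mul (by fun_prop) hec)
          measurableSet_Ioi
      · filter_upwards [ae_restrict_mem measurableSet_Ioi] with y hy
        exact hpt 1 B h y hy
    · intro ε B hε hB h
      have k1 : IntegrableOn (fun y : ℝ => ε * (y * Real.exp (-(v.re * y)))) (Ioi 0) :=
        i2.const_mul _
      have k2 : IntegrableOn (fun y : ℝ => B * Real.exp (-(v.re * y))) (Ioi 0) :=
        i1.const_mul _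
      have k3 : IntegrableOn (fun y : ℝ => ε * (y * Real.exp (-(v.re * y))) +
        B * Real.exp (-(v.re * y))) (Ioi 0) := k1.add k2
      refine (norm_integral_le_of_norm_le k3 ?_).trans (le_of_eq ?_)
      · filter_upwards [ae_restrict_mem measurableSet_Ioi] with y hy
        exact hpt ε B h y hy
      · rw [integral_add k1 k2, integral_const_mul, integral_const_mul, j1, j2]
  have hφd : ∀ v : ℂ, 0 < v.re → HasDerivAt φ
      (-∫ y in Ioi (0 : ℝ), exp (-(v * y)) * e y) v := by
    intro v hv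
    have hv0 := ne_zero' hv
    have e1 : HasDerivAt (fun v : ℂ => log v / v) ((v⁻¹ * v - log v * 1) / v ^ 2) v :=
      (Complex.hasDerivAt_log (slit hv)).div (hasDerivAt_id v) hv0
    have e2 : HasDerivAt (fun v : ℂ => (c₀ - K * γ) / v)
        ((0 * v - (c₀ - K * γ) * 1) / v ^ 2) v :=
      (hasDerivAt_const v (c₀ - K * γ)).div (hasDerivAt_id v) hv0
    refine (((hd v hv).add (e1.const_mul (K : ℂ))).sub e2).congr_deriv ?_
    obtain ⟨i1, j1⟩ := laplace_gg hv
    obtain ⟨i2, j2⟩ := laplace_id hv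
    obtain ⟨i3, -⟩ := hint v hv
    have e3 : (fun y : ℝ => exp (-(v * y)) * g y) = fun y : ℝ => exp (-(v * y)) * e y +
        (K : ℂ) * (exp (-(v * y)) * ((y * (γ + Real.log y) : ℝ) : ℂ)) +
        (c₀ - K * γ) * (exp (-(v * y)) * (y : ℂ)) := by
      funext y
      rw [he]
      push_cast
      ring
    have k1 : IntegrableOn (fun y : ℝ => (K : ℂ) * (exp (-(v * y)) *
      ((y * (γ + Real.log y) : ℝ) : ℂ))) (Ioi 0) := i1.const_mul _
    have k2 : IntegrableOn (fun y : ℝ => (c₀ - K * γ) * (exp (-(v * y)) * (y : ℂ))) (Ioi 0) :=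
      i2.const_mul _
    have k3 : IntegrableOn (fun y : ℝ => exp (-(v * y)) * e y +
        (K : ℂ) * (exp (-(v * y)) * ((y * (γ + Real.log y) : ℝ) : ℂ))) (Ioi 0) := i3.add k1
    rw [e3, integral_add k3 k2, integral_add i3 k1, integral_const_mul, integral_const_mul, j1, j2]
    unfold gl
    field_simp
    ring
  -- the estimate
  obtain ⟨C₁, hC₁⟩ : ∃ C₁ : ℝ, ∀ v : ℂ, 0 < v.re → ‖v‖ ≤ 1 → ‖φ (v + 1)‖ ≤ C₁ := by
    set S : Set ℂ := {z : ℂ | 1 ≤ z.re ∧ ‖z‖ ≤ 2} with hS
    have hSc : IsCompact S := by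
      have hcl : IsClosed S := (isClosed_le continuous_const Complex.continuous_re).inter
        (isClosed_le continuous_norm continuous_const)
      refine (isCompact_closedBall (0 : ℂ) 2).of_isClosed_subset hcl ?_
      rintro v ⟨-, h⟩
      rwa [Metric.mem_closedBall, dist_zero_right]
    obtain ⟨C₁, h⟩ := hSc.exists_bound_of_continuousOn (f := φ) fun z hz =>
      (hφd z (by have := hz.1; linarith)).continuousAt.continuousWithinAt
    refine ⟨C₁, fun v hv hv1 => h _ ⟨?_, ?_⟩⟩
    · rw [Complex.add_re, Complex.one_re]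
      linarith
    · refine (norm_add_le _ _).trans ?_
      rw [norm_one]
      linarith
  have hest : ∀ ε : ℝ, 0 < ε → ∃ B : ℝ, 0 ≤ B ∧ ∀ v : ℂ, 0 < v.re → ‖v‖ ≤ 1 →
      ‖φ v‖ ≤ C₁ + ε * v.re⁻¹ + B * Real.log (1 + v.re⁻¹) := by
    intro ε hε
    obtain ⟨B, hB, hBe⟩ := hbd ε hε
    refine ⟨B, hB, fun v hv hv1 => ?_⟩
    set x := v.re with hx
    have h2 := horiz (f := φ) (f' := fun v => -∫ y in Ioi (0 : ℝ), exp (-(v * y)) * e y)
      (v := v) (T := 1) zero_le_one (B := fun τ => -(ε * (x + τ)⁻¹) + B * Real.log (x + τ))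
      (B' := fun τ => ε * ((x + τ) ^ 2)⁻¹ + B * (x + τ)⁻¹)
      (fun τ hτ => hφd _ (by
        have := hτ.1
        rw [Complex.add_re, Complex.ofReal_re]
        linarith))
      (fun τ hτ => by
        have h5 : x + τ ≠ 0 := by have := hτ.1; positivity
        have e1 : HasDerivAt (fun τ : ℝ => (x + τ)⁻¹) (-1 / (x + τ) ^ 2) τ :=
          ((hasDerivAt_id τ).const_add x).inv h5
        have e2 : HasDerivAt (fun τ : ℝ => Real.log (x + τ)) (1 / (x + τ)) τ :=
          ((hasDerivAt_id τ).const_add x).log h5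
        refine (((e1.const_mul ε).neg).add (e2.const_mul B)).congr_deriv ?_
        rw [one_div]
        ring)
      (fun τ hτ => by
        have h5 : 0 < (v + (τ : ℂ)).re := by
          have := hτ.1
          rw [Complex.add_re, Complex.ofReal_re]
          linarith
        have e1 := (hint _ h5).2 ε B hε.le hB hBe
        rw [norm_neg]
        rwa [Complex.add_re, Complex.ofReal_re] at e1)
    have e3 : v + ((1 : ℝ) : ℂ) = v + 1 := by push_cast; ring
    rw [e3] at h2
    have e4 := hC₁ v hv hv1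
    have e5 : Real.log (1 + x⁻¹) = Real.log (x + 1) - Real.log x := by
      rw [← Real.log_div (by positivity) hv.ne']
      congr 1
      field_simp
    have e6 := norm_sub_norm_le (φ v) (φ (v + 1))
    rw [norm_sub_rev (φ v) (φ (v + 1))] at e6
    have e7 : 0 ≤ ε * (x + 1)⁻¹ := by positivity
    rw [e5]
    simp only [add_zero] at h2
    linarith
  -- the limit
  have key : ∀ v : ℂ, 0 < v.re → fh v + K * log v - (c₀ - K * γ) = v * φ v := by
    intro v hv
    have := ne_zero' hv
    rw [hφ]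
    field_simp
  rw [Metric.tendsto_nhdsWithin_nhds]
  intro ε hε
  obtain ⟨B, hB, hBe⟩ := hest (κ * ε / 4) (by positivity)
  have hT : Tendsto (fun x : ℝ => x * C₁ + B * (x * Real.log (1 + x⁻¹))) (𝓝[>] 0) (𝓝 0) := by
    have e1 : Tendsto (fun x : ℝ => x * C₁) (𝓝[>] 0) (𝓝 0) := by
      have : Tendsto (fun x : ℝ => x * C₁) (𝓝 0) (𝓝 (0 * C₁)) :=
        (continuous_id.mul continuous_const).tendsto 0
      rw [zero_mul] at this
      exact this.mono_left nhdsWithin_le_nhds
    have e2 : Tendsto (fun x : ℝ => x * Real.log (1 + x⁻¹)) (𝓝[>] 0) (𝓝 0) := by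
      have e3 : Tendsto (fun x : ℝ => x * Real.log (x + 1) - Real.log x * x) (𝓝[>] 0)
          (𝓝 (0 - 0)) := by
        refine Tendsto.sub ?_ ?_
        · have : Tendsto (fun x : ℝ => x * Real.log (x + 1)) (𝓝 0) (𝓝 (0 * Real.log (0 + 1))) := by
            refine ContinuousAt.tendsto (f := fun x : ℝ => x * Real.log (x + 1)) ?_
            exact continuousAt_id.mul ((continuousAt_id.add continuousAt_const).log (by simp))
          rw [zero_mul] at this
          exact this.mono_left nhdsWithin_le_nhds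
        · have := _root_.tendsto_log_mul_rpow_nhdsGT_zero (r := 1) one_pos
          simpa using this
      rw [sub_zero] at e3
      refine e3.congr' ?_
      filter_upwards [self_mem_nhdsWithin] with x hx
      have hx0 : (0 : ℝ) < x := hx
      have e5 : Real.log (1 + x⁻¹) = Real.log (x + 1) - Real.log x := by
        rw [← Real.log_div (by positivity) hx0.ne']
        congr 1
        field_simp
      rw [e5]
      ring
    have e3 := e1.add (e2.const_mul B)
    rw [mul_zero, add_zero] at e3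
    exact e3
  have hev : ∀ᶠ x : ℝ in 𝓝[>] 0, |x * C₁ + B * (x * Real.log (1 + x⁻¹))| < κ * ε / 2 := by
    refine ((Metric.tendsto_nhds.1 hT) (κ * ε / 2) (by positivity)).mono fun x hx => ?_
    rwa [Real.dist_eq, sub_zero] at hx
  rw [eventually_nhdsWithin_iff, Metric.eventually_nhds_iff] at hev
  obtain ⟨r, hr, hev⟩ := hev
  refine ⟨min r 1, by positivity, fun {v} hv hvr => ?_⟩
  obtain ⟨hv0, hvκ⟩ := hv
  rw [dist_zero_right] at hvr
  have hvr1 : ‖v‖ < r := hvr.trans_le (min_le_left _ _)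
  have hvr2 : ‖v‖ < 1 := hvr.trans_le (min_le_right _ _)
  have e1 := hBe v hv0 hvr2.le
  have e2 := hev (y := v.re) (by
    rw [Real.dist_eq, sub_zero, abs_of_pos hv0]
    exact (re_le_norm v).trans_lt hvr1) hv0
  rw [dist_eq_norm, key v hv0, norm_mul]
  have e3 : ‖v‖ ≤ κ⁻¹ * v.re := by
    rw [inv_mul_eq_div, le_div_iff₀ hκ, mul_comm]
    exact hvκ
  have hx := hv0
  have e4 : 0 ≤ C₁ + κ * ε / 4 * v.re⁻¹ + B * Real.log (1 + v.re⁻¹) := (norm_nonneg _).trans e1
  calc ‖v‖ * ‖φ v‖ ≤ (κ⁻¹ * v.re) * (C₁ + κ * ε / 4 * v.re⁻¹ + B * Real.log (1 + v.re⁻¹)) :=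
        mul_le_mul e3 e1 (norm_nonneg _) (by positivity)
    _ = κ⁻¹ * (v.re * C₁ + B * (v.re * Real.log (1 + v.re⁻¹))) + ε / 4 := by
        field_simp
        ring
    _ < κ⁻¹ * (κ * ε / 2) + ε / 4 := by
        have e5 := (le_abs_self _).trans_lt e2
        have e6 : κ⁻¹ * (v.re * C₁ + B * (v.re * Real.log (1 + v.re⁻¹))) <
            κ⁻¹ * (κ * ε / 2) := mul_lt_mul_of_pos_left e5 (by positivity)
        linarith
    _ = ε / 2 + ε / 4 := by field_simp
    _ < ε := by linarith

end Pool.Agent.TH942.SL
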