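import Pool.Agent.TH942.SL.Mean
import Pool.Agent.TH942.SL.Prim
import Pool.Agent.TH942.LS.Abel

/-!
# Local bounds
-/

set_option autoImplicit false

open MeasureTheory Filter Topology Set Complex
open Pool.Agent.TH942.LS (Dat P P_le Cont Qf)

namespace Pool.Agent.TH942.SL

/-- the logarithmic derivative near a point of the closed half plane -/
theorem local_log_deriv {χ : ℂ → ℂ} {v₀ : ℂ} (ha : AnalyticAt ℂ χ v₀) (h0 : 0 ≤ v₀.re)
    (hne : ∀ᶠ v in 𝓝 v₀, 0 < v.re → χ v ≠ 0) :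
    ∃ C : ℝ, 0 ≤ C ∧ ∀ᶠ v in 𝓝 v₀, 0 < v.re → ‖deriv χ v / χ v‖ ≤ C * (1 + 1 / v.re) := by
  have hnz : ¬ ∀ᶠ z in 𝓝 v₀, χ z = 0 := by
    intro h
    have h2 := h.and hne
    have h3 : Tendsto (fun ε : ℝ => v₀ + ε) (𝓝[>] 0) (𝓝 v₀) := by
      have h4 : Continuous fun ε : ℝ => v₀ + (ε : ℂ) := by fun_prop
      have h5 := h4.tendsto 0
      simp only [Complex.ofReal_zero, add_zero] at h5
      exact h5.mono_left nhdsWithin_le_nhds
    obtain ⟨ε, ⟨h4, h5⟩, h6⟩ := ((h3.eventually h2).and self_mem_nhdsWithin).exists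
    refine h5 ?_ h4
    have h7 : (0 : ℝ) < ε := h6
    rw [Complex.add_re, Complex.ofReal_re]
    linarith
  obtain ⟨n, g, hg, hg0, heq⟩ := ha.exists_eventuallyEq_pow_smul_nonzero_iff.2 hnz
  have hgc : ContinuousAt (fun v => deriv g v / g v) v₀ :=
    hg.deriv.continuousAt.div hg.continuousAt hg0
  have hgb : ∀ᶠ v in 𝓝 v₀, ‖deriv g v / g v‖ ≤ ‖deriv g v₀ / g v₀‖ + 1 := by
    have := hgc.norm.eventually (gt_mem_nhds (lt_add_one _))
    exact this.mono fun v hv => hv.le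
  have hgn : ∀ᶠ v in 𝓝 v₀, g v ≠ 0 := hg.continuousAt.eventually_ne hg0
  have hga : ∀ᶠ v in 𝓝 v₀, AnalyticAt ℂ g v := hg.eventually_analyticAt
  set C₀ : ℝ := ‖deriv g v₀ / g v₀‖ + 1 with hC₀
  refine ⟨n + C₀, by positivity, ?_⟩
  filter_upwards [heq.eventually_nhds, hgb, hgn, hga, hne] with v h1 h2 h3 h4 h5 h6
  have h7 := h5 h6
  have hre : (1 : ℝ) ≤ 1 + 1 / v.re := by
    have : 0 < 1 / v.re := by positivity
    linarith
  have h8 : χ v = (v - v₀) ^ n * g v := by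
    have := h1.self_of_nhds
    simpa using this
  have h9 : deriv χ v = (n * (v - v₀) ^ (n - 1) * 1) * g v + (v - v₀) ^ n * deriv g v := by
    have e1 : χ =ᶠ[𝓝 v] fun z => (z - v₀) ^ n * g z := by
      filter_upwards [h1] with z hz
      simpa using hz
    rw [e1.deriv_eq]
    exact ((((hasDerivAt_id v).sub_const v₀).pow n).mul h4.differentiableAt.hasDerivAt).deriv
  rcases Nat.eq_zero_or_pos n with hn | hn
  · have e1 : deriv χ v / χ v = deriv g v / g v := by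
      rw [h9, h8, hn]
      simp
    rw [e1]
    have hn0 : (0 : ℝ) ≤ n := by positivity
    calc ‖deriv g v / g v‖ ≤ C₀ := h2
      _ ≤ (n + C₀) * 1 := by linarith
      _ ≤ _ := mul_le_mul_of_nonneg_left hre (by positivity)
  · have hz0 : v₀.re = 0 := by
      by_contra hc
      have hpos : 0 < v₀.re := lt_of_le_of_ne h0 (Ne.symm hc)
      refine hne.self_of_nhds hpos ?_
      have := heq.self_of_nhds
      rw [this, sub_self, zero_pow hn.ne', zero_smul]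
    have hvn : v.re ≤ ‖v - v₀‖ := by
      have := Complex.re_le_norm (v - v₀)
      rwa [Complex.sub_re, hz0, sub_zero] at this
    have hvn0 : 0 < ‖v - v₀‖ := h6.trans_le hvn
    have hv0 : v - v₀ ≠ 0 := norm_pos_iff.1 hvn0
    have e1 : deriv χ v / χ v = n / (v - v₀) + deriv g v / g v := by
      rw [h9, h8]
      obtain ⟨k, hk⟩ : ∃ k, n = k + 1 := ⟨n - 1, by omega⟩
      rw [hk]
      simp only [Nat.add_sub_cancel]
      push_cast
      field_simp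
      ring
    rw [e1]
    have e2 : ‖(n : ℂ) / (v - v₀)‖ ≤ n * (1 / v.re) := by
      rw [norm_div, Complex.norm_natCast, ← mul_one_div]
      exact mul_le_mul_of_nonneg_left (one_div_le_one_div_of_le h6 hvn) (by positivity)
    have e3 : (n : ℝ) * (1 / v.re) ≤ n * (1 + 1 / v.re) :=
      mul_le_mul_of_nonneg_left (by linarith) (by positivity)
    have hC0 : 0 ≤ C₀ := by positivity
    have e4 : C₀ ≤ C₀ * (1 + 1 / v.re) := le_mul_of_one_le_right hC0 hre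
    calc ‖(n : ℂ) / (v - v₀) + deriv g v / g v‖ ≤ n * (1 / v.re) + C₀ :=
          (norm_add_le _ _).trans (add_le_add e2 h2)
      _ ≤ _ := by rw [add_mul]; linarith

/-- the logarithmic derivative on a compact part of the closed half plane -/
theorem compact_log_deriv {χ : ℂ → ℂ} {K : Set ℂ} (hK : IsCompact K) (hK0 : ∀ v ∈ K, 0 ≤ v.re)
    (ha : ∀ v ∈ K, AnalyticAt ℂ χ v) (hne : ∀ v : ℂ, 0 < v.re → χ v ≠ 0) :
    ∃ C : ℝ, 0 ≤ C ∧ ∀ v ∈ K, 0 < v.re → ‖deriv χ v / χ v‖ ≤ C * (1 + 1 / v.re) := by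
  refine hK.induction_on (p := fun s => ∃ C : ℝ, 0 ≤ C ∧ ∀ v ∈ s, 0 < v.re →
    ‖deriv χ v / χ v‖ ≤ C * (1 + 1 / v.re)) ⟨0, le_rfl, fun v hv => hv.elim⟩ ?_ ?_ ?_
  · rintro s t hst ⟨C, hC, h⟩
    exact ⟨C, hC, fun v hv => h v (hst hv)⟩
  · rintro s t ⟨C, hC, h⟩ ⟨C', hC', h'⟩
    refine ⟨C + C', by positivity, fun v hv hre => ?_⟩
    have h1 : 0 < 1 + 1 / v.re := by positivity
    rcases hv with hv | hv
    · exact (h v hv hre).trans (mul_le_mul_of_nonneg_right (by linarith) h1.le)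
    · exact (h' v hv hre).trans (mul_le_mul_of_nonneg_right (by linarith) h1.le)
  · intro v hv
    obtain ⟨C, hC, h⟩ := local_log_deriv (ha v hv) (hK0 v hv)
      (Eventually.of_forall fun w hw => hne w hw)
    exact ⟨_, mem_nhdsWithin_of_mem_nhds h, C, hC, fun w hw => hw⟩

/-- comparison along horizontal segments -/
theorem horiz {f f' : ℂ → ℂ} {v : ℂ} {T : ℝ} (hT : 0 ≤ T) {B B' : ℝ → ℝ}
    (hf : ∀ τ ∈ Icc 0 T, HasDerivAt f (f' (v + τ)) (v + τ))
    (hB : ∀ τ ∈ Icc 0 T, HasDerivAt B (B' τ) τ)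
    (hb : ∀ τ ∈ Icc 0 T, ‖f' (v + τ)‖ ≤ B' τ) : ‖f (v + T) - f v‖ ≤ B T - B 0 := by
  have h1 : ∀ τ ∈ Icc 0 T, HasDerivAt (fun τ : ℝ => f (v + τ) - f v) (f' (v + τ)) τ := by
    intro τ hτ
    have e0 : HasDerivAt (fun τ : ℝ => v + (τ : ℂ)) 1 τ :=
      ((hasDerivAt_id τ).ofReal_comp).const_add v
    have e1 := HasDerivAt.comp τ (hf τ hτ) e0
    rw [mul_one] at e1
    exact e1.sub_const _
  have h2 : ∀ τ ∈ Icc 0 T, HasDerivAt (fun τ : ℝ => B τ - B 0) (B' τ) τ := fun τ hτ =>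
    (hB τ hτ).sub_const _
  have h3 := image_norm_le_of_norm_deriv_right_le_deriv_boundary' (a := 0) (b := T)
    (f := fun τ : ℝ => f (v + τ) - f v) (f' := fun τ : ℝ => f' (v + τ))
    (B := fun τ : ℝ => B τ - B 0) (B' := B')
    (fun τ hτ => (h1 τ hτ).continuousAt.continuousWithinAt)
    (fun τ hτ => (h1 τ ⟨hτ.1, hτ.2.le⟩).hasDerivWithinAt) (by simp)
    (fun τ hτ => (h2 τ hτ).continuousAt.continuousWithinAt)
    (fun τ hτ => (h2 τ ⟨hτ.1, hτ.2.le⟩).hasDerivWithinAt)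
    (fun τ hτ => hb τ ⟨hτ.1, hτ.2.le⟩)
  exact h3 ⟨hT, le_rfl⟩

end Pool.Agent.TH942.SL
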