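import Pool.Agent.TH942.SL.Asy

/-!
# The constant of the asymptotic formula is Euler's constant
-/

set_option autoImplicit false

open MeasureTheory Filter Topology Set Complex

namespace Pool.Agent.TH942.SL

/-- the function `g y = V 1 (exp (z y) gl z)` -/
noncomputable def gg (y : ℝ) : ℂ := V 1 (fun z => exp (z * y) * gl z)

/-- the constant -/
noncomputable def L₀ : ℂ := V 1 (fun z => exp z * gl z)

lemma gl_line {c : ℝ} (hc : 0 < c) : ∃ B : ℝ, 0 ≤ B ∧ ∀ z : ℂ, c ≤ z.re →
    ‖gl z‖ ≤ B * (1 + |z.im|) ^ (-(3 / 2 : ℝ)) := by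
  obtain ⟨C, hC, h⟩ := gl_bound (α := 1 / 2) (by norm_num) hc
  refine ⟨C * (1 + 1 / c) ^ (3 / 2 : ℝ), by positivity, fun z hz => ?_⟩
  have e0 := hz.trans (re_le_norm z)
  have e1 := h z e0
  have e2 := nb hc (by norm_num : (0 : ℝ) ≤ 3 / 2) e0
  have e3 : (-(2 - 1 / 2 : ℝ)) = -(3 / 2) := by norm_num
  rw [e3] at e1
  rw [mul_assoc]
  exact e1.trans (mul_le_mul_of_nonneg_left e2 hC)

lemma gg_line {y c : ℝ} (hc : 0 < c) (h : c ≤ 1 ∨ 1 ≤ c) :
    gg y = V c (fun z => exp (z * y) * gl z) := by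
  unfold gg
  set a : ℝ := min c 1 with ha
  set b : ℝ := max c 1 with hb
  have ha0 : 0 < a := lt_min hc one_pos
  obtain ⟨B, hB, hBB⟩ := gl_line ha0
  have key : V a (fun z => exp (z * y) * gl z) = V b (fun z => exp (z * y) * gl z) := by
    refine shift (p := 3 / 2) (B := Real.exp (b * |y|) * B) (by norm_num)
      ((min_le_left c 1).trans (le_max_left c 1)) (fun s hs _ => ?_) fun s hs hs2 => ?_
    · exact DifferentiableAt.mul (by fun_prop) (gl_diff (ha0.trans_le hs))
    · rw [norm_mul, Complex.norm_exp, Complex.re_mul_ofReal, mul_assoc]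
      refine mul_le_mul (Real.exp_le_exp.2 ?_) (hBB s hs) (norm_nonneg _) (Real.exp_pos _).le
      have e1 : s.re * y ≤ s.re * |y| :=
        mul_le_mul_of_nonneg_left (le_abs_self y) (ha0.le.trans hs)
      exact e1.trans (mul_le_mul_of_nonneg_right hs2 (abs_nonneg y))
  rcases h with h | h
  · rw [ha, hb, min_eq_left h, max_eq_right h] at key
    exact key.symm
  · rw [ha, hb, min_eq_right h, max_eq_left h] at key
    exact key

/-- the value for `y > 0` -/
lemma gg_pos {y : ℝ} (hy : 0 < y) : gg y = y * (L₀ + Real.log y) := by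
  have hyc : (y : ℂ) ≠ 0 := by exact_mod_cast hy.ne'
  have hre : ∀ t : ℝ, (((1 : ℝ) : ℂ) + t * I).re = 1 := fun t => by simp
  rw [gg_line (c := 1 / y) (by positivity) (le_total _ _), V_scale hy, one_div_mul_cancel hy.ne']
  have j1 : Integrable fun t : ℝ => exp (((1 : ℝ) : ℂ) + t * I) * gl (((1 : ℝ) : ℂ) + t * I) := by
    obtain ⟨Cg', hCg', hgl'⟩ := gl_line one_pos
    refine line_int (H := fun z => exp z * gl z) (p := 3 / 2)
      (B := Real.exp 1 * Cg') (by norm_num) (fun s hs => ?_) (fun s hs => ?_)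
    · have hs0 : 0 < s.re := by rw [hs]; exact one_pos
      have e2 : DifferentiableAt ℂ (fun z : ℂ => exp z) s := by fun_prop
      exact (e2.mul (gl_diff hs0)).continuousAt
    · rw [norm_mul, Complex.norm_exp, hs, mul_assoc]
      exact mul_le_mul_of_nonneg_left (hgl' s hs.ge) (Real.exp_pos _).le
  have j2 : Integrable fun t : ℝ => exp (((1 : ℝ) : ℂ) + t * I) / (((1 : ℝ) : ℂ) + t * I) ^ 2 := by
    refine line_int (H := fun z => exp z / z ^ 2) (p := 2)
      (B := Real.exp 1 * (1 + 1 / 1) ^ (2 : ℝ)) (by norm_num) (fun s hs => ?_) (fun s hs => ?_)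
    · have hs0 : s ≠ 0 := fun h => by rw [h] at hs; simp at hs
      have e2 : DifferentiableAt ℂ (fun z : ℂ => exp z) s := by fun_prop
      have e3 : DifferentiableAt ℂ (fun z : ℂ => z ^ 2) s := by fun_prop
      exact (e2.div e3 (pow_ne_zero 2 hs0)).continuousAt
    · have e0 : 1 ≤ ‖s‖ := by rw [← hs]; exact re_le_norm s
      have e1 := nb one_pos (by norm_num : (0 : ℝ) ≤ 2) e0
      rw [rpow_neg_two (norm_nonneg s)] at e1
      rw [norm_div, Complex.norm_exp, hs, norm_pow, div_eq_mul_inv, mul_assoc]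
      exact mul_le_mul_of_nonneg_left e1 (Real.exp_pos _).le
  have hV1 := V_one
  unfold L₀
  unfold V at hV1 ⊢
  have e1 : ∀ t : ℝ, exp ((((1 : ℝ) : ℂ) + t * I) / y * y) *
      gl ((((1 : ℝ) : ℂ) + t * I) / y) / y =
      y * (exp (((1 : ℝ) : ℂ) + t * I) * gl (((1 : ℝ) : ℂ) + t * I)) +
      (y * Real.log y) * (exp (((1 : ℝ) : ℂ) + t * I) / (((1 : ℝ) : ℂ) + t * I) ^ 2) := by
    intro t
    set z : ℂ := ((1 : ℝ) : ℂ) + t * I with hz
    have hz0 : z ≠ 0 := fun h => by
      have := congrArg Complex.re h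
      rw [hz, hre] at this
      simp at this
    have e2 : log (z / y) = log z - Real.log y := by
      have e3 : z / y = ((y⁻¹ : ℝ) : ℂ) * z := by
        push_cast
        field_simp
      rw [e3, Complex.log_ofReal_mul (by positivity) hz0, Real.log_inv]
      push_cast
      ring
    unfold gl
    rw [e2, div_mul_cancel₀ _ hyc]
    field_simp
    ring
  simp only [e1]
  rw [integral_add (j1.const_mul _) (j2.const_mul _), integral_const_mul, integral_const_mul]
  have e2 : ((2 * Real.pi)⁻¹ : ℝ) * (y * (∫ t : ℝ, exp (((1 : ℝ) : ℂ) + t * I) *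
      gl (((1 : ℝ) : ℂ) + t * I)) + (y * Real.log y) * ∫ t : ℝ,
        exp (((1 : ℝ) : ℂ) + t * I) / (((1 : ℝ) : ℂ) + t * I) ^ 2) =
      y * (((2 * Real.pi)⁻¹ : ℝ) * ∫ t : ℝ, exp (((1 : ℝ) : ℂ) + t * I) *
      gl (((1 : ℝ) : ℂ) + t * I)) + (y * Real.log y) * (((2 * Real.pi)⁻¹ : ℝ) *
        ∫ t : ℝ, exp (((1 : ℝ) : ℂ) + t * I) / (((1 : ℝ) : ℂ) + t * I) ^ 2) := by ring
  rw [e2, hV1]
  ring

/-- the value for `y < 0` -/
lemma gg_neg {y : ℝ} (hy : y < 0) : gg y = 0 := by
  obtain ⟨B, hB, hBB⟩ := gl_line one_pos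
  have hre : ∀ x t : ℝ, ((x : ℂ) + t * I).re = x := fun x t => by simp
  have him : ∀ x t : ℝ, ((x : ℂ) + t * I).im = t := fun x t => by simp
  have hdec := decay_int (p := 3 / 2) (by norm_num)
  set K : ℝ := (2 * Real.pi)⁻¹ * ∫ t : ℝ, B * (1 + |t|) ^ (-(3 / 2 : ℝ)) with hK
  have e1 : ∀ᶠ x : ℝ in atTop, ‖gg y‖ ≤ K * Real.exp (x * y) := by
    filter_upwards [eventually_ge_atTop 1] with x hx
    rw [gg_line (c := x) (by linarith) (Or.inr hx)]
    have e1 := norm_V_le (H := fun z => exp (z * y) * gl z) (c := x)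
      (g := fun t => Real.exp (x * y) * (B * (1 + |t|) ^ (-(3 / 2 : ℝ))))
      ((hdec.const_mul B).const_mul _) fun t => by
        have e2 := hBB (x + t * I) (by rw [hre]; exact hx)
        rw [him] at e2
        rw [norm_mul, Complex.norm_exp, Complex.re_mul_ofReal, hre]
        exact mul_le_mul_of_nonneg_left e2 (Real.exp_pos _).le
    rw [integral_const_mul] at e1
    refine e1.trans (le_of_eq ?_)
    rw [hK]
    ring
  have e2 : Tendsto (fun x : ℝ => K * Real.exp (x * y)) atTop (𝓝 (K * 0)) := by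
    refine Tendsto.const_mul K (Real.tendsto_exp_atBot.comp ?_)
    exact tendsto_id.atTop_mul_const_of_neg hy
  rw [mul_zero] at e2
  exact norm_le_zero_iff.1 (ge_of_tendsto e2 e1)

/-- **The constant is Euler's constant.** -/
theorem L₀_eq : L₀ = (Real.eulerMascheroniConstant : ℂ) := by
  -- the Gamma integrals
  have g1 := Complex.hasDerivAt_GammaIntegral (s := 2) (by norm_num)
  have hder : (∫ t : ℝ in Ioi 0, (t : ℂ) ^ ((2 : ℂ) - 1) * (Real.log t * Real.exp (-t))) =
      1 - Real.eulerMascheroniConstant := by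
    have h2 : HasDerivAt Complex.Gamma
        (∫ t : ℝ in Ioi 0, (t : ℂ) ^ ((2 : ℂ) - 1) * (Real.log t * Real.exp (-t))) 2 := by
      refine g1.congr_of_eventuallyEq ?_
      have ho : IsOpen {s : ℂ | 0 < s.re} := isOpen_lt continuous_const Complex.continuous_re
      filter_upwards [ho.mem_nhds (show 0 < (2 : ℂ).re by norm_num)] with s hs
      exact Complex.Gamma_eq_integral hs
    have h3 := Complex.hasDerivAt_Gamma_nat 1
    have e1 : ((1 : ℕ) : ℂ) + 1 = 2 := by norm_num
    rw [e1] at h3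
    rw [h2.unique h3]
    simp
    ring
  have e0 : ∀ t : ℝ, (t : ℂ) ^ ((2 : ℂ) - 1) * (Real.log t * Real.exp (-t)) =
      ((t * Real.log t * Real.exp (-t) : ℝ) : ℂ) := by
    intro t
    rw [show ((2 : ℂ) - 1) = 1 by norm_num, Complex.cpow_one]
    push_cast
    ring
  simp only [e0] at hder
  obtain ⟨⟨-, -⟩, ⟨i2, j2⟩, -⟩ : (True ∧ True) ∧ (IntegrableOn (fun y : ℝ => y * Real.exp (-(1 * y))) (Ioi 0) ∧
      ∫ y in Ioi (0 : ℝ), y * Real.exp (-(1 * y)) = ((1 : ℝ) ^ 2)⁻¹) ∧ True := by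
    refine ⟨⟨trivial, trivial⟩, ?_, trivial⟩
    have key : ∫ y in Ioi (0 : ℝ), y * Real.exp (-(1 * y)) = 1 := by
      have e1 := Real.integral_rpow_mul_exp_neg_mul_Ioi (a := 2) (r := 1) (by norm_num) one_pos
      norm_num at e1
      simp only [one_mul]
      exact e1
    refine ⟨?_, by rw [key]; norm_num⟩
    by_contra h
    rw [integral_undef h] at key
    norm_num at key
  simp only [one_mul] at i2 j2
  -- integrability of the second term
  have i3 : IntegrableOn (fun t : ℝ => t * Real.log t * Real.exp (-t)) (Ioi 0) := by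
    -- `|t log t| ≤ 1 + t^2`
    have hb : IntegrableOn (fun t : ℝ => (1 + t ^ 2) * Real.exp (-t)) (Ioi 0) := by
      have e1 : IntegrableOn (fun t : ℝ => Real.exp (-t)) (Ioi 0) := by
        simpa using integrableOn_exp_mul_Ioi (a := -1) (by norm_num) 0
      have e2 : IntegrableOn (fun t : ℝ => t ^ 2 * Real.exp (-t)) (Ioi 0) := by
        have key : ∫ y in Ioi (0 : ℝ), y ^ 2 * Real.exp (-y) = 2 := by
          have e1 := Real.integral_rpow_mul_exp_neg_mul_Ioi (a := 3) (r := 1) (by norm_num) one_pos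
          have e2 : Real.Gamma 3 = 2 := by
            have := Real.Gamma_nat_eq_factorial 2
            rw [show ((2 : ℕ) : ℝ) + 1 = 3 by norm_num] at this
            rw [this]
            norm_num [Nat.factorial]
          rw [e2] at e1
          norm_num at e1
          rw [← e1]
        by_contra h
        rw [integral_undef h] at key
        norm_num at key
      refine (e1.add e2).congr_fun (fun t _ => ?_) measurableSet_Ioi
      simp only [Pi.add_apply]
      ring
    refine Integrable.mono' hb ?_ ?_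
    · refine ContinuousOn.aestronglyMeasurable ?_ measurableSet_Ioi
      refine ContinuousOn.mul (ContinuousOn.mul continuousOn_id ?_) (by fun_prop)
      exact Real.continuousOn_log.mono fun t ht => (ne_of_gt ht : t ≠ 0)
    · filter_upwards [ae_restrict_mem measurableSet_Ioi] with t ht
      have ht0 : (0 : ℝ) < t := ht
      rw [Real.norm_eq_abs, abs_mul, Real.abs_exp]
      refine mul_le_mul_of_nonneg_right ?_ (Real.exp_pos _).le
      rw [abs_mul, abs_of_pos ht0]
      rcases le_total 1 t with h | h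
      · rw [abs_of_nonneg (Real.log_nonneg h)]
        have := Real.log_le_sub_one_of_pos ht0
        nlinarith
      · rw [abs_of_nonpos (Real.log_nonpos ht0.le h)]
        have := Real.one_sub_inv_le_log_of_pos ht0
        have e1 : t * (-Real.log t) ≤ t * t⁻¹ := mul_le_mul_of_nonneg_left (by linarith) ht0.le
        rw [mul_inv_cancel₀ ht0.ne'] at e1
        nlinarith
  -- the inversion formula at the point `1`
  have hcg : Continuous fun t : ℝ => gl (((1 : ℝ) : ℂ) + t * I) :=
    line_cont fun s hs => (gl_diff (by rw [hs]; exact one_pos)).continuousAt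
  obtain ⟨B, hB, hBB⟩ := gl_line one_pos
  have hcl : Integrable fun t : ℝ => gl (((1 : ℝ) : ℂ) + t * I) :=
    line_int (p := 3 / 2) (B := B) (by norm_num)
      (fun s hs => (gl_diff (by rw [hs]; exact one_pos)).continuousAt) fun s hs => hBB s hs.ge
  -- the function `exp (-y) g y`
  have hfun : ∀ y : ℝ, y ≠ 0 → exp (-((((1 : ℝ) : ℂ)) * y)) * gg y =
      (Ioi (0 : ℝ)).indicator (fun y : ℝ => L₀ * ((y * Real.exp (-y) : ℝ) : ℂ) +
        ((y * Real.log y * Real.exp (-y) : ℝ) : ℂ)) y := by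
    intro y hy
    rcases lt_or_gt_of_ne hy with h | h
    · rw [gg_neg h, mul_zero, indicator_of_notMem (show y ∉ Ioi (0 : ℝ) from fun h2 => by
        have : (0 : ℝ) < y := h2
        linarith)]
    · rw [gg_pos h, indicator_of_mem (show y ∈ Ioi (0 : ℝ) from h)]
      push_cast
      ring_nf
  have hae : (fun y : ℝ => exp (-((((1 : ℝ) : ℂ)) * y)) * gg y) =ᵐ[volume]
      (Ioi (0 : ℝ)).indicator (fun y : ℝ => L₀ * ((y * Real.exp (-y) : ℝ) : ℂ) +
        ((y * Real.log y * Real.exp (-y) : ℝ) : ℂ)) := by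
    have e2 : ∀ᵐ y : ℝ, y ≠ 0 := by
      rw [ae_iff]
      simp
    filter_upwards [e2] with y hy
    exact hfun y hy
  have k2 : IntegrableOn (fun y : ℝ => ((y * Real.exp (-y) : ℝ) : ℂ)) (Ioi 0) :=
    Integrable.ofReal (𝕜 := ℂ) i2
  have k3 : IntegrableOn (fun y : ℝ => ((y * Real.log y * Real.exp (-y) : ℝ) : ℂ)) (Ioi 0) :=
    Integrable.ofReal (𝕜 := ℂ) i3
  have hint : Integrable (fun y : ℝ => exp (-((((1 : ℝ) : ℂ)) * y)) * gg y) := by
    refine Integrable.congr ?_ hae.symm
    rw [integrable_indicator_iff measurableSet_Ioi]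
    exact (k2.const_mul _).add k3
  have hinv := inversion (H := gl) (c := 1) hcg hcl (g := gg) (fun y => rfl) hint 0
  have e1 : ((((1 : ℝ) : ℂ)) + ((0 : ℝ) : ℂ) * I) = ((1 : ℝ) : ℂ) := by simp
  rw [e1, integral_congr_ae hae, integral_indicator measurableSet_Ioi,
    integral_add (k2.const_mul _) k3, integral_const_mul, hder] at hinv
  have e2 : ∫ y in Ioi (0 : ℝ), ((y * Real.exp (-y) : ℝ) : ℂ) = 1 := by
    have : ∫ y in Ioi (0 : ℝ), ((y * Real.exp (-y) : ℝ) : ℂ) =
        ((∫ y in Ioi (0 : ℝ), y * Real.exp (-y) : ℝ) : ℂ) := integral_ofReal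
    rw [this, j2]
    norm_num
  rw [e2] at hinv
  unfold gl at hinv
  simp at hinv
  linear_combination hinv

end Pool.Agent.TH942.SL
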