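import Pool.Agent.TH942.SL.Gam

/-!
# The limit of the means: behaviour near `0`
-/

set_option autoImplicit false

open MeasureTheory Filter Topology Set Complex
open Pool.Agent.TH942.LS (Dat P P_le Cont Qf)

namespace Pool.Agent.TH942.SL

variable {α : ℝ} {lam c : ℕ → ℝ} {δ σ : ℝ} {Ψ Kf G : ℂ → ℂ}

/-- constant functions on convex open sets -/
lemma const_of_deriv {U : Set ℂ} (hU : IsOpen U) (hc : Convex ℝ U) {f : ℂ → ℂ}
    (hf : ∀ z ∈ U, HasDerivAt f 0 z) {x y : ℂ} (hx : x ∈ U) (hy : y ∈ U) : f x = f y := by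
  refine hc.is_const_of_fderivWithin_eq_zero (𝕜 := ℂ)
    (fun z hz => (hf z hz).differentiableAt.differentiableWithinAt) (fun z hz => ?_) hx hy
  rw [fderivWithin_of_isOpen hU hz]
  ext
  simp [(hf z hz).deriv]

/-- `exp (f - G) Ψ = 1` on the half plane -/
theorem exp_f (H : Cont lam c σ 0 Ψ Kf) (h0 : 0 < α) (h1 : α < 1)
    (hne : ∀ v : ℂ, 0 < v.re → Ψ (v ^ (α : ℂ)) ≠ 0)
    {f : ℂ → ℂ} (hf : ∀ v : ℂ, 0 < v.re → HasDerivAt f (qf Ψ Kf α v) v) {x₀ : ℝ} (hx1 : 1 ≤ x₀)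
    (hx₀ : ∀ z : ℂ, 0 < z.re → x₀ ≤ ‖z‖ → σ + 1 ≤ kap α * ‖z‖ ^ α)
    (hff : ∀ v : ℂ, 0 < v.re → x₀ ≤ ‖v‖ → f v = f₀ lam c α v)
    (hG : ∀ s : ℂ, 0 < s.re → HasDerivAt G (Kf s) s)
    (hexp : ∀ s : ℂ, σ + 1 ≤ s.re → exp (G s - DD lam c s) = Ψ s) {v : ℂ} (hv : 0 < v.re) :
    exp (f v - G (v ^ (α : ℂ))) * Ψ (v ^ (α : ℂ)) = 1 := by
  have hx00 : 0 < x₀ := by linarith
  have hUo : IsOpen {v : ℂ | 0 < v.re} := isOpen_lt continuous_const Complex.continuous_re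
  have hx : 0 < ((x₀ : ℝ) : ℂ).re := by rw [Complex.ofReal_re]; exact hx00
  have hn : x₀ ≤ ‖((x₀ : ℝ) : ℂ)‖ := by
    rw [Complex.norm_real, Real.norm_eq_abs, abs_of_pos hx00]
  have key := const_of_deriv hUo (convex_halfSpace_re_gt 0)
    (f := fun v => exp (f v - G (v ^ (α : ℂ))) * Ψ (v ^ (α : ℂ))) (fun v hv => ?_) hv
    (y := ((x₀ : ℝ) : ℂ)) hx
  · change exp (f v - G (v ^ (α : ℂ))) * Ψ (v ^ (α : ℂ)) = _ at key
    rw [key, hff _ hx hn]
    have e1 : σ + 1 ≤ (((x₀ : ℝ) : ℂ) ^ (α : ℂ)).re := (hx₀ _ hx hn).trans (re_pow_ge h0 h1 hx)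
    rw [← hexp _ e1, ← Complex.exp_add]
    unfold f₀
    rw [show DD lam c (((x₀ : ℝ) : ℂ) ^ (α : ℂ)) - G (((x₀ : ℝ) : ℂ) ^ (α : ℂ)) +
      (G (((x₀ : ℝ) : ℂ) ^ (α : ℂ)) - DD lam c (((x₀ : ℝ) : ℂ) ^ (α : ℂ))) = 0 by ring,
      Complex.exp_zero]
  · have hv' : 0 < v.re := hv
    have hre := re_pow_pos h0 h1 hv'
    have hp := pow_deriv (α := α) (slit hv')
    have e1 : HasDerivAt (fun v : ℂ => G (v ^ (α : ℂ)))
        (Kf (v ^ (α : ℂ)) * (α * v ^ ((α : ℂ) - 1))) v :=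
      HasDerivAt.comp (h := fun v : ℂ => v ^ (α : ℂ)) v (hG _ hre) hp
    have e2 : HasDerivAt (fun v : ℂ => Ψ (v ^ (α : ℂ)))
        (deriv Ψ (v ^ (α : ℂ)) * (α * v ^ ((α : ℂ) - 1))) v :=
      HasDerivAt.comp (h := fun v : ℂ => v ^ (α : ℂ)) v (H.Ψd _ hre).hasDerivAt hp
    refine (((hf v hv').sub e1).cexp.mul e2).congr_deriv ?_
    have e3 := hne v hv'
    unfold qf Qf
    field_simp
    ring

/-- derivatives along rays -/
theorem ray_deriv (hG : ∀ s : ℂ, 0 < s.re → HasDerivAt G (Kf s) s) {r : ℝ} (hr : 0 < r)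
    (hGb : ∀ κ : ℝ, 0 < κ → ∃ C : ℝ, ∀ s : ℂ, 0 < s.re → κ * ‖s‖ ≤ s.re → ‖s‖ ≤ r → ‖G s‖ ≤ C)
    {G₀ : ℂ} (hlim : ∀ ζ : ℂ, 0 < ζ.re → Tendsto (fun T : ℝ => G (ζ / T)) atTop (𝓝 G₀))
    {ζ : ℂ} (hζ : 0 < ζ.re) :
    Tendsto (fun T : ℝ => (ζ / T) * Kf (ζ / T)) atTop (𝓝 0) := by
  set R : ℝ := ζ.re / 2 with hR
  have hR0 : 0 < R := by positivity
  have hball : ∀ z : ℂ, z ∈ Metric.closedBall ζ R → R ≤ z.re ∧ ‖z‖ ≤ ‖ζ‖ + R := by
    intro z hz
    rw [Metric.mem_closedBall, Complex.dist_eq] at hz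
    have h4 := (abs_le.1 ((Complex.abs_re_le_norm _).trans hz)).1
    rw [Complex.sub_re] at h4
    have h5 := norm_add_le (z - ζ) ζ
    rw [sub_add_cancel] at h5
    exact ⟨by linarith, by linarith⟩
  set κ : ℝ := R / (‖ζ‖ + R) with hκ
  have hκ0 : 0 < κ := by positivity
  obtain ⟨C, hC⟩ := hGb κ hκ0
  have hdiv : ∀ (z : ℂ) (T : ℝ), 0 < T → (z / (T : ℂ)).re = z.re / T ∧
      ‖z / (T : ℂ)‖ = ‖z‖ / T := by
    intro z T hT
    refine ⟨Complex.div_ofReal_re z T, ?_⟩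
    rw [norm_div, Complex.norm_real, Real.norm_eq_abs, abs_of_pos hT]
  -- the bound on the circle
  have hcb : ∀ᶠ T : ℝ in atTop, ∀ z ∈ Metric.closedBall ζ R, ‖G (z / T) - G₀‖ ≤ C + ‖G₀‖ := by
    filter_upwards [eventually_gt_atTop 0, eventually_ge_atTop ((‖ζ‖ + R) / r)] with T hT hT2 z hz
    obtain ⟨e1, e2⟩ := hball z hz
    obtain ⟨e3, e4⟩ := hdiv z T hT
    refine (norm_sub_le _ _).trans (add_le_add_left ?_ _)
    refine hC _ ?_ ?_ ?_
    · rw [e3]; have : 0 < z.re := by linarith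
      positivity
    · rw [e3, e4, ← mul_div_assoc]
      refine div_le_div_of_nonneg_right ?_ hT.le
      refine le_trans ?_ e1
      rw [hκ, div_mul_eq_mul_div, div_le_iff₀ (by positivity)]
      gcongr
    · rw [e4, div_le_iff₀ hT]
      rw [div_le_iff₀ hr] at hT2
      linarith
  have hcirc : ∀ θ : ℝ, circleMap ζ R θ ∈ Metric.closedBall ζ R := fun θ =>
    circleMap_mem_closedBall _ hR0.le _
  have hint : Tendsto (fun T : ℝ => ∮ z in C(ζ, R), ((z - ζ) ^ 2)⁻¹ • (G (z / T) - G₀)) atTop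
      (𝓝 (∮ z in C(ζ, R), ((z - ζ) ^ 2)⁻¹ • (0 : ℂ))) := by
    unfold circleIntegral
    refine intervalIntegral.tendsto_integral_filter_of_dominated_convergence
      (fun _ => R * (R⁻¹ ^ 2 * (C + ‖G₀‖))) ?_ ?_ intervalIntegrable_const ?_
    · filter_upwards [eventually_gt_atTop 0] with T hT
      refine Continuous.aestronglyMeasurable ?_
      have c1 : Continuous (fun θ : ℝ => deriv (circleMap ζ R) θ) := by
        simp only [deriv_circleMap]
        fun_prop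
      have c2 : Continuous (fun θ : ℝ => ((circleMap ζ R θ - ζ) ^ 2)⁻¹) := by
        refine Continuous.inv₀ (by fun_prop) fun θ => pow_ne_zero 2 ?_
        rw [circleMap_sub_center]
        exact circleMap_ne_center hR0.ne' (c := 0)
      have c3 : Continuous (fun θ : ℝ => G (circleMap ζ R θ / T) - G₀) := by
        refine Continuous.sub ?_ continuous_const
        rw [continuous_iff_continuousAt]
        intro θ
        have e0 : 0 < (circleMap ζ R θ / (T : ℂ)).re := by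
          rw [(hdiv _ T hT).1]
          have := (hball _ (hcirc θ)).1
          have : 0 < (circleMap ζ R θ).re := by linarith
          positivity
        have e1 : ContinuousAt G (circleMap ζ R θ / (T : ℂ)) := (hG _ e0).continuousAt
        exact ContinuousAt.comp (f := fun θ : ℝ => circleMap ζ R θ / (T : ℂ)) e1 (by fun_prop)
      exact c1.smul (c2.smul c3)
    · filter_upwards [hcb] with T hT
      refine ae_of_all _ fun θ _ => ?_
      rw [norm_smul, norm_smul, deriv_circleMap, norm_mul, norm_I, mul_one, norm_inv, norm_pow,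
        circleMap_sub_center, norm_circleMap_zero, abs_of_pos hR0, ← inv_pow]
      have := hT _ (hcirc θ)
      gcongr
    · refine ae_of_all _ fun θ _ => ?_
      refine Tendsto.const_smul (Tendsto.const_smul ?_ _) _
      have e1 : 0 < (circleMap ζ R θ).re := by
        have := (hball _ (hcirc θ)).1
        linarith
      have := (hlim _ e1).sub_const G₀
      rwa [sub_self] at this
  have hz0 : (∮ z in C(ζ, R), ((z - ζ) ^ 2)⁻¹ • (0 : ℂ)) = 0 := by
    simp [circleIntegral]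
  rw [hz0] at hint
  have h2 := (hint.const_smul ((2 * Real.pi * I : ℂ)⁻¹)).const_mul ζ
  rw [smul_zero, mul_zero] at h2
  refine h2.congr' ?_
  filter_upwards [eventually_gt_atTop 0] with T hT
  have hTc : (T : ℂ) ≠ 0 := by exact_mod_cast hT.ne'
  have hd : ∀ z : ℂ, 0 < z.re → HasDerivAt (fun z : ℂ => G (z / T) - G₀)
      (Kf (z / T) * (1 / T)) z := by
    intro z hz
    have e0 : 0 < (z / (T : ℂ)).re := by
      rw [(hdiv _ T hT).1]
      positivity
    exact (HasDerivAt.comp (h := fun z : ℂ => z / (T : ℂ)) z (hG _ e0)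
      ((hasDerivAt_id z).div_const _)).sub_const _
  have hUo : IsOpen {z : ℂ | 0 < z.re} := isOpen_lt continuous_const Complex.continuous_re
  have h4 := Complex.two_pi_I_inv_smul_circleIntegral_sub_sq_inv_smul_of_differentiable hUo
    (c := ζ) (w₀ := ζ) (R := R) (f := fun z : ℂ => G (z / T) - G₀)
    (fun z hz => by
      have := (hball z hz).1
      have h5 : 0 < z.re := by linarith
      exact h5)
    (fun z hz => (hd z hz).differentiableAt.differentiableWithinAt)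
    (Metric.mem_ball_self hR0)
  rw [h4, (hd ζ hζ).deriv]
  field_simp

/-- **The behaviour near `0` along rays.** -/
theorem near_lim (H : Cont lam c σ 0 Ψ Kf) (h0 : 0 < α) (h1 : α < 1)
    (hne : ∀ v : ℂ, 0 < v.re → Ψ (v ^ (α : ℂ)) ≠ 0)
    {f : ℂ → ℂ} (hf : ∀ v : ℂ, 0 < v.re → HasDerivAt f (qf Ψ Kf α v) v) {x₀ : ℝ} (hx1 : 1 ≤ x₀)
    (hx₀ : ∀ z : ℂ, 0 < z.re → x₀ ≤ ‖z‖ → σ + 1 ≤ kap α * ‖z‖ ^ α)
    (hff : ∀ v : ℂ, 0 < v.re → x₀ ≤ ‖v‖ → f v = f₀ lam c α v)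
    (hG : ∀ s : ℂ, 0 < s.re → HasDerivAt G (Kf s) s)
    (hexp : ∀ s : ℂ, σ + 1 ≤ s.re → exp (G s - DD lam c s) = Ψ s) {r : ℝ} (hr : 0 < r)
    (hGb : ∀ κ : ℝ, 0 < κ → ∃ C : ℝ, ∀ s : ℂ, 0 < s.re → κ * ‖s‖ ≤ s.re → ‖s‖ ≤ r → ‖G s‖ ≤ C)
    {G₀ : ℂ} (hlim : ∀ ζ : ℂ, 0 < ζ.re → Tendsto (fun T : ℝ => G (ζ / T)) atTop (𝓝 G₀))
    {m : ℕ} {g : ℂ → ℂ} (hga : AnalyticAt ℂ g 0) (hg0 : g 0 ≠ 0)
    (hfac : ∀ᶠ s in 𝓝 (0 : ℂ), Ψ s = s ^ m * g s) :
    ∃ κ₀ : ℂ, exp κ₀ * g 0 = exp G₀ ∧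
      (∀ w : ℂ, 0 < w.re → Tendsto (fun y : ℝ => f (w / y) + m * α * log (w / y)) atTop
        (𝓝 κ₀)) ∧
      (∀ w : ℂ, 0 < w.re → Tendsto (fun y : ℝ => (w / y) * qf Ψ Kf α (w / y) + m * α) atTop
        (𝓝 0)) := by
  have hgc := hga.continuousAt
  have hq0 : g 0 / g 0 = 1 := div_self hg0
  have hall : ∀ᶠ s in 𝓝 (0 : ℂ), Ψ =ᶠ[𝓝 s] (fun s => s ^ m * g s) ∧ AnalyticAt ℂ g s ∧
      g s ≠ 0 ∧ g s / g 0 ∈ slitPlane := by
    have e1 : ContinuousAt (fun s => g s / g 0) 0 := hgc.div_const _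
    have e2 : ∀ᶠ s in 𝓝 (0 : ℂ), g s / g 0 ∈ slitPlane :=
      e1.eventually (isOpen_slitPlane.mem_nhds (by
        change g 0 / g 0 ∈ slitPlane
        rw [hq0]
        exact one_mem_slitPlane))
    filter_upwards [hfac.eventually_nhds, hga.eventually_analyticAt, hgc.eventually_ne hg0, e2]
      with s h2 h3 h4 h5
    exact ⟨h2, h3, h4, h5⟩
  obtain ⟨ρ₀, hρ0, hball⟩ := Metric.eventually_nhds_iff_ball.1 hall
  set r₃ : ℝ := (ρ₀ / 2) ^ (1 / α) with hr3
  have hr30 : 0 < r₃ := by positivity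
  have hin : ∀ v : ℂ, ‖v‖ < r₃ → v ^ (α : ℂ) ∈ Metric.ball (0 : ℂ) ρ₀ := by
    intro v hv
    rw [Metric.mem_ball, dist_zero_right, norm_pow']
    have e1 : ‖v‖ ^ α < r₃ ^ α := Real.rpow_lt_rpow (norm_nonneg _) hv h0
    rw [hr3, ← Real.rpow_mul (by positivity), one_div_mul_cancel h0.ne', Real.rpow_one] at e1
    linarith
  set U : Set ℂ := {v : ℂ | 0 < v.re} ∩ Metric.ball 0 r₃ with hU
  have hUo : IsOpen U :=
    (isOpen_lt continuous_const Complex.continuous_re).inter Metric.isOpen_ball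
  have hUc : Convex ℝ U := (convex_halfSpace_re_gt 0).inter (convex_ball 0 r₃)
  set Q : ℂ → ℂ := fun v => f v + m * α * log v - G (v ^ (α : ℂ)) +
    log (g (v ^ (α : ℂ)) / g 0) with hQ
  have hpw : ∀ v : ℂ, 0 < v.re → v ^ ((α : ℂ) - 1) = v ^ (α : ℂ) / v := by
    intro v hv
    rw [Complex.cpow_sub _ _ (ne_zero' hv), Complex.cpow_one]
  have hpne : ∀ v : ℂ, 0 < v.re → v ^ (α : ℂ) ≠ 0 := fun v hv =>
    ne_zero' (re_pow_pos h0 h1 hv)
  -- the logarithmic derivative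
  have hlog : ∀ s : ℂ, s ∈ Metric.ball (0 : ℂ) ρ₀ → s ≠ 0 →
      deriv Ψ s / Ψ s = m / s + deriv g s / g s := by
    intro s hs hs0
    obtain ⟨e1, e2, e3, -⟩ := hball s hs
    have h8 : Ψ s = s ^ m * g s := e1.self_of_nhds
    have h9 : deriv Ψ s = (m * s ^ (m - 1) * 1) * g s + s ^ m * deriv g s := by
      rw [e1.deriv_eq]
      exact (((hasDerivAt_id s).pow m).mul e2.differentiableAt.hasDerivAt).deriv
    rw [h9, h8]
    rcases Nat.eq_zero_or_pos m with hn | hn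
    · rw [hn]
      simp
    · obtain ⟨k, hk⟩ : ∃ k, m = k + 1 := ⟨m - 1, by omega⟩
      rw [hk]
      simp only [Nat.add_sub_cancel]
      push_cast
      field_simp
      ring
  have hqf : ∀ v : ℂ, v ∈ U → qf Ψ Kf α v = -(m * α / v) +
      α * v ^ ((α : ℂ) - 1) * Kf (v ^ (α : ℂ)) -
      α * v ^ ((α : ℂ) - 1) * (deriv g (v ^ (α : ℂ)) / g (v ^ (α : ℂ))) := by
    intro v hv
    have hv0 : 0 < v.re := hv.1
    have e1 := hlog _ (hin v (by simpa using hv.2)) (hpne v hv0)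
    unfold qf Qf
    rw [e1, hpw v hv0]
    have e3 := ne_zero' hv0
    have e4 := hpne v hv0
    field_simp
    ring
  have hd : ∀ v ∈ U, HasDerivAt Q 0 v := by
    intro v hv
    have hv0 : 0 < v.re := hv.1
    obtain ⟨-, b2, b3, b4⟩ := hball _ (hin v (by simpa using hv.2))
    have hp := pow_deriv (α := α) (slit hv0)
    have e1 : HasDerivAt (fun v : ℂ => (m : ℂ) * α * log v) (m * α * v⁻¹) v :=
      (Complex.hasDerivAt_log (slit hv0)).const_mul _
    have e2 : HasDerivAt (fun v : ℂ => G (v ^ (α : ℂ)))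
        (Kf (v ^ (α : ℂ)) * (α * v ^ ((α : ℂ) - 1))) v :=
      HasDerivAt.comp (h := fun v : ℂ => v ^ (α : ℂ)) v (hG _ (re_pow_pos h0 h1 hv0)) hp
    have e3 : HasDerivAt (fun v : ℂ => g (v ^ (α : ℂ)) / g 0)
        (deriv g (v ^ (α : ℂ)) * (α * v ^ ((α : ℂ) - 1)) / g 0) v :=
      (HasDerivAt.comp (h := fun v : ℂ => v ^ (α : ℂ)) v b2.differentiableAt.hasDerivAt
        hp).div_const _
    refine ((((hf v hv0).add e1).sub e2).add (e3.clog b4)).congr_deriv ?_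
    rw [hqf v hv, hpw v hv0]
    have e3 := ne_zero' hv0
    have e4 := hpne v hv0
    field_simp
    ring
  -- a point of `U`
  set v₁ : ℂ := ((r₃ / 2 : ℝ) : ℂ) with hv1
  have hv1U : v₁ ∈ U := by
    refine ⟨?_, ?_⟩
    · change 0 < v₁.re
      rw [hv1, Complex.ofReal_re]
      positivity
    · rw [Metric.mem_ball, dist_zero_right, hv1, Complex.norm_real, Real.norm_eq_abs,
        abs_of_pos (by positivity)]
      linarith
  have hQc : ∀ v ∈ U, Q v = Q v₁ := fun v hv => const_of_deriv hUo hUc hd hv hv1U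
  have hQe : exp (Q v₁) * g 0 = 1 := by
    have hv0 : 0 < v₁.re := hv1U.1
    obtain ⟨b1, b2, b3, b4⟩ := hball _ (hin v₁ (by simpa using hv1U.2))
    have e1 := exp_f H h0 h1 hne hf hx1 hx₀ hff hG hexp hv0
    have e2 : Ψ (v₁ ^ (α : ℂ)) = (v₁ ^ (α : ℂ)) ^ m * g (v₁ ^ (α : ℂ)) := b1.self_of_nhds
    have e3 : exp ((m : ℂ) * α * log v₁) = (v₁ ^ (α : ℂ)) ^ m := by
      rw [Complex.cpow_def_of_ne_zero (ne_zero' hv0), ← Complex.exp_nat_mul]
      congr 1
      ring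
    have e4 : Q v₁ = (f v₁ - G (v₁ ^ (α : ℂ))) + (m : ℂ) * α * log v₁ +
        log (g (v₁ ^ (α : ℂ)) / g 0) := by
      rw [hQ]
      ring
    rw [e2] at e1
    rw [e4, Complex.exp_add, Complex.exp_add, e3, Complex.exp_log (div_ne_zero b3 hg0)]
    rw [← e1]
    field_simp
  refine ⟨Q v₁ + G₀, ?_, fun w hw => ?_, fun w hw => ?_⟩
  · rw [Complex.exp_add]
    linear_combination exp G₀ * hQe
  all_goals
    have hwα := re_pow_pos h0 h1 hw
    have hw0 := ne_zero' hw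
    -- the power of `w / y`
    have hT : Tendsto (fun y : ℝ => y ^ α) atTop atTop := tendsto_rpow_atTop h0
    have hp : ∀ y : ℝ, 0 < y → (w / (y : ℂ)) ^ (α : ℂ) = w ^ (α : ℂ) / ((y ^ α : ℝ) : ℂ) := by
      intro y hy
      rw [pow_div hw0 hy, Real.rpow_neg hy.le, Complex.ofReal_inv, div_eq_mul_inv]
    have hy0 : Tendsto (fun y : ℝ => w / (y : ℂ)) atTop (𝓝 0) := by
      rw [tendsto_zero_iff_norm_tendsto_zero]
      have e1 : Tendsto (fun y : ℝ => ‖w‖ / y) atTop (𝓝 0) :=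
        tendsto_const_nhds.div_atTop tendsto_id
      refine e1.congr' ?_
      filter_upwards [eventually_gt_atTop 0] with y hy
      rw [norm_div, Complex.norm_real, Real.norm_eq_abs, abs_of_pos hy]
    have hyα : Tendsto (fun y : ℝ => (w / (y : ℂ)) ^ (α : ℂ)) atTop (𝓝 0) := by
      rw [tendsto_zero_iff_norm_tendsto_zero]
      have e1 := (hy0.norm)
      rw [norm_zero] at e1
      have e2 := e1.rpow_const (p := α) (Or.inr h0.le)
      rw [Real.zero_rpow h0.ne'] at e2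
      refine e2.congr fun y => ?_
      rw [norm_pow']
    have hUe : ∀ᶠ y : ℝ in atTop, w / (y : ℂ) ∈ U := by
      have e1 := hy0.eventually (Metric.ball_mem_nhds 0 hr30)
      filter_upwards [e1, eventually_gt_atTop 0] with y h2 hy
      refine ⟨?_, h2⟩
      change 0 < (w / (y : ℂ)).re
      rw [Complex.div_ofReal_re]
      positivity
  · have e1 : Tendsto (fun y : ℝ => G ((w / (y : ℂ)) ^ (α : ℂ))) atTop (𝓝 G₀) := by
      refine ((hlim _ hwα).comp hT).congr' ?_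
      filter_upwards [eventually_gt_atTop 0] with y hy
      rw [hp y hy]
      rfl
    have e2 : Tendsto (fun y : ℝ => log (g ((w / (y : ℂ)) ^ (α : ℂ)) / g 0)) atTop (𝓝 0) := by
      have h2 : Tendsto (fun y : ℝ => g ((w / (y : ℂ)) ^ (α : ℂ)) / g 0) atTop (𝓝 (g 0 / g 0)) :=
        (hgc.tendsto.comp hyα).div_const _
      rw [hq0] at h2
      have h3 := (continuousAt_clog one_mem_slitPlane).tendsto.comp h2
      rw [Complex.log_one] at h3
      exact h3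
    have e3 := ((tendsto_const_nhds (x := Q v₁) (f := atTop (α := ℝ))).add e1).sub e2
    rw [sub_zero] at e3
    refine e3.congr' ?_
    filter_upwards [hUe] with y hy
    rw [← hQc _ hy, hQ]
    simp only
    ring
  · have e1 : Tendsto (fun y : ℝ => (w / (y : ℂ)) ^ (α : ℂ) * Kf ((w / (y : ℂ)) ^ (α : ℂ))) atTop
        (𝓝 0) := by
      refine ((ray_deriv hG hr hGb hlim hwα).comp hT).congr' ?_
      filter_upwards [eventually_gt_atTop 0] with y hy
      rw [hp y hy]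
      rfl
    have hgc2 : ContinuousAt (fun s => s * (deriv g s / g s)) 0 :=
      continuousAt_id.mul (hga.deriv.continuousAt.div hgc hg0)
    have e2 := hgc2.tendsto.comp hyα
    rw [zero_mul] at e2
    have e3 := ((e1.const_mul (α : ℂ)).sub (e2.const_mul (α : ℂ)))
    rw [mul_zero, sub_zero] at e3
    refine e3.congr' ?_
    filter_upwards [hUe] with y hy
    have hv0 : 0 < (w / (y : ℂ)).re := hy.1
    rw [hqf _ hy, hpw _ hv0]
    have e4 := ne_zero' hv0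
    simp only [Function.comp_apply]
    generalize w / (y : ℂ) = v at e4 ⊢
    field_simp
    ring

end Pool.Agent.TH942.SL
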