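import Pool.Agent.TH942.SL.Lim

/-!
# The limit of the means
-/

set_option autoImplicit false

open MeasureTheory Filter Topology Set Complex
open Pool.Agent.TH942.LS (Dat P P_le Cont Qf)

namespace Pool.Agent.TH942.SL

variable {α : ℝ} {lam c : ℕ → ℝ} {δ σ : ℝ} {Ψ Kf G : ℂ → ℂ}

/-- the small remainder on the lines `Re z = 1/y` -/
theorem V_small {R : ℂ → ℂ} {r₂ C p : ℝ} (hp : 1 < p) (hC : 0 ≤ C)
    (hR1 : ∀ z : ℂ, 0 < z.re → ContinuousAt R z)
    (hR2 : ∀ z : ℂ, 0 < z.re → ‖z‖ ≤ r₂ → ‖R z‖ ≤ C / ‖z‖ ^ 2)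
    (hR3 : ∀ z : ℂ, 0 < z.re → z.re ≤ 1 → r₂ ≤ ‖z‖ → ‖R z‖ ≤ C * (1 / z.re * (1 + |z.im|) ^ (-p)))
    (hR4 : ∀ w : ℂ, 0 < w.re → Tendsto (fun y : ℝ => (w / y) ^ 2 * R (w / y)) atTop (𝓝 0))
    (hR5 : ∀ᵐ t : ℝ, Tendsto (fun y : ℝ => (1 / y) * ‖R (((1 / y : ℝ) : ℂ) + t * I)‖) atTop
      (𝓝 0)) :
    Tendsto (fun y : ℝ => (1 / y) * ∫ t : ℝ, ‖R (((1 / y : ℝ) : ℂ) + t * I)‖) atTop (𝓝 0) := by
  classical
  have hre : ∀ x t : ℝ, ((x : ℂ) + t * I).re = x := fun x t => by simp
  have him : ∀ x t : ℝ, ((x : ℂ) + t * I).im = t := fun x t => by simp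
  set A : ℂ → ℝ := fun z => if ‖z‖ ≤ r₂ then ‖R z‖ else 0 with hA
  set B : ℂ → ℝ := fun z => if ‖z‖ ≤ r₂ then 0 else ‖R z‖ with hB
  have hAB : ∀ z, A z + B z = ‖R z‖ := by
    intro z
    rw [hA, hB]
    by_cases h : ‖z‖ ≤ r₂
    · simp [h]
    · simp [h]
  have hA0 : ∀ z, 0 ≤ A z := by
    intro z
    rw [hA]
    simp only
    split_ifs
    · positivity
    · exact le_rfl
  have hB0 : ∀ z, 0 ≤ B z := by
    intro z
    rw [hB]
    simp only
    split_ifs
    · exact le_rfl
    · positivity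
  have hAle : ∀ z, A z ≤ ‖R z‖ := fun z => by have := hAB z; have := hB0 z; linarith
  have hBle : ∀ z, B z ≤ ‖R z‖ := fun z => by have := hAB z; have := hA0 z; linarith
  -- measurability
  have hRm : ∀ x : ℝ, 0 < x → Continuous fun t : ℝ => ‖R ((x : ℂ) + t * I)‖ := fun x hx =>
    (line_cont (H := R) fun s hs => hR1 s (by rw [hs]; exact hx)).norm
  have hms : ∀ x : ℝ, MeasurableSet {t : ℝ | ‖(x : ℂ) + t * I‖ ≤ r₂} := fun x =>
    (isClosed_le (by fun_prop) continuous_const).measurableSet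
  have hAm : ∀ x : ℝ, 0 < x → Measurable fun t : ℝ => A ((x : ℂ) + t * I) := fun x hx =>
    Measurable.ite (hms x) (hRm x hx).measurable measurable_const
  have hBm : ∀ x : ℝ, 0 < x → Measurable fun t : ℝ => B ((x : ℂ) + t * I) := fun x hx =>
    Measurable.ite (hms x) measurable_const (hRm x hx).measurable
  -- the bounds
  have hkA : ∀ y : ℝ, 0 < y → ∀ τ : ℝ, 1 / y * (1 / y * A (((1 / y : ℝ) : ℂ) + (1 / y * τ : ℝ) * I)) ≤
      C * (1 + τ ^ 2)⁻¹ := by
    intro y hy τ
    rw [hA]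
    simp only
    split_ifs with h
    · have e1 := hR2 _ (by rw [hre]; positivity) h
      have e2 : ‖((1 / y : ℝ) : ℂ) + (1 / y * τ : ℝ) * I‖ ^ 2 = (1 / y) ^ 2 * (1 + τ ^ 2) := by
        rw [← Complex.normSq_eq_norm_sq, Complex.normSq_add_mul_I]
        ring
      rw [e2] at e1
      calc _ ≤ 1 / y * (1 / y * (C / ((1 / y) ^ 2 * (1 + τ ^ 2)))) := by gcongr
        _ = _ := by field_simp
    · rw [mul_zero, mul_zero]
      positivity
  have hkB : ∀ y : ℝ, 1 ≤ y → ∀ t : ℝ, 1 / y * B (((1 / y : ℝ) : ℂ) + t * I) ≤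
      C * (1 + |t|) ^ (-p) := by
    intro y hy t
    have hy0 : 0 < y := by linarith
    rw [hB]
    simp only
    split_ifs with h
    · rw [mul_zero]
      positivity
    · have e1 := hR3 _ (by rw [hre]; positivity) (by rw [hre, div_le_one hy0]; exact hy)
        (not_le.1 h).le
      rw [hre, him, one_div_one_div] at e1
      calc _ ≤ 1 / y * (C * (y * (1 + |t|) ^ (-p))) := by gcongr
        _ = _ := by field_simp
  -- the near part
  have n1 : Tendsto (fun y : ℝ => ∫ τ : ℝ, 1 / y * (1 / y *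
      A (((1 / y : ℝ) : ℂ) + (1 / y * τ : ℝ) * I))) atTop (𝓝 (∫ _ : ℝ, (0 : ℝ))) := by
    refine tendsto_integral_filter_of_dominated_convergence (fun τ => C * (1 + τ ^ 2)⁻¹) ?_ ?_
      (integrable_inv_one_add_sq.const_mul C) ?_
    · filter_upwards [eventually_gt_atTop 0] with y hy
      refine Measurable.aestronglyMeasurable ?_
      exact (((hAm (1 / y) (by positivity)).comp (measurable_const_mul (1 / y))).const_mul
        (1 / y)).const_mul (1 / y)
    · filter_upwards [eventually_gt_atTop 0] with y hy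
      refine ae_of_all _ fun τ => ?_
      rw [Real.norm_eq_abs, abs_of_nonneg (by
        have := hA0 (((1 / y : ℝ) : ℂ) + (1 / y * τ : ℝ) * I)
        positivity)]
      exact hkA y hy τ
    · refine ae_of_all _ fun τ => ?_
      set w : ℂ := ((1 : ℝ) : ℂ) + τ * I with hw
      have hw0 : 0 < w.re := by rw [hw, hre]; exact one_pos
      have hwn : 0 < ‖w‖ := hw0.trans_le (re_le_norm w)
      have e1 := ((hR4 w hw0).norm).div_const (‖w‖ ^ 2)
      rw [norm_zero, zero_div] at e1
      refine squeeze_zero' ?_ ?_ e1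
      · filter_upwards [eventually_gt_atTop 0] with y hy
        have := hA0 (((1 / y : ℝ) : ℂ) + (1 / y * τ : ℝ) * I)
        positivity
      · filter_upwards [eventually_gt_atTop 0] with y hy
        have hyc : (y : ℂ) ≠ 0 := by exact_mod_cast hy.ne'
        have e2 : ((1 / y : ℝ) : ℂ) + (1 / y * τ : ℝ) * I = w / y := by
          rw [hw]
          push_cast
          field_simp
        rw [e2]
        have e3 := hAle (w / y)
        rw [norm_mul, norm_pow, norm_div, Complex.norm_real, Real.norm_eq_abs, abs_of_pos hy]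
        calc 1 / y * (1 / y * A (w / y)) ≤ 1 / y * (1 / y * ‖R (w / y)‖) := by gcongr
          _ = _ := by field_simp
  -- the far part
  have n2 : Tendsto (fun y : ℝ => ∫ t : ℝ, 1 / y * B (((1 / y : ℝ) : ℂ) + t * I)) atTop
      (𝓝 (∫ _ : ℝ, (0 : ℝ))) := by
    refine tendsto_integral_filter_of_dominated_convergence (fun t => C * (1 + |t|) ^ (-p)) ?_ ?_
      ((decay_int hp).const_mul C) ?_
    · filter_upwards [eventually_gt_atTop 0] with y hy
      exact ((hBm (1 / y) (by positivity)).const_mul (1 / y)).aestronglyMeasurable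
    · filter_upwards [eventually_ge_atTop 1] with y hy
      refine ae_of_all _ fun t => ?_
      rw [Real.norm_eq_abs, abs_of_nonneg (by
        have := hB0 (((1 / y : ℝ) : ℂ) + t * I)
        positivity)]
      exact hkB y hy t
    · filter_upwards [hR5] with t ht
      refine squeeze_zero' ?_ ?_ ht
      · filter_upwards [eventually_gt_atTop 0] with y hy
        have := hB0 (((1 / y : ℝ) : ℂ) + t * I)
        positivity
      · filter_upwards [eventually_gt_atTop 0] with y hy
        have := hBle (((1 / y : ℝ) : ℂ) + t * I)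
        gcongr
  have n3 := n1.add n2
  rw [integral_zero, add_zero] at n3
  refine n3.congr' ?_
  filter_upwards [eventually_ge_atTop 1] with y hy
  have hy0 : 0 < y := by linarith
  have hx0 : 0 < 1 / y := by positivity
  -- integrability of the parts
  have iB : Integrable fun t : ℝ => 1 / y * B (((1 / y : ℝ) : ℂ) + t * I) := by
    refine ((decay_int hp).const_mul C).mono' ((hBm _ hx0).const_mul _).aestronglyMeasurable
      (ae_of_all _ fun t => ?_)
    rw [Real.norm_eq_abs, abs_of_nonneg (by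
      have := hB0 (((1 / y : ℝ) : ℂ) + t * I)
      positivity)]
    exact hkB y hy t
  have iA' : Integrable fun τ : ℝ => 1 / y * (1 / y *
      A (((1 / y : ℝ) : ℂ) + (1 / y * τ : ℝ) * I)) := by
    refine (integrable_inv_one_add_sq.const_mul C).mono' ?_ (ae_of_all _ fun τ => ?_)
    · exact ((((hAm (1 / y) (by positivity)).comp (measurable_const_mul (1 / y))).const_mul
        (1 / y)).const_mul (1 / y)).aestronglyMeasurable
    · rw [Real.norm_eq_abs, abs_of_nonneg (by
        have := hA0 (((1 / y : ℝ) : ℂ) + (1 / y * τ : ℝ) * I)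
        positivity)]
      exact hkA y hy0 τ
  have iA : Integrable fun t : ℝ => 1 / y * A (((1 / y : ℝ) : ℂ) + t * I) := by
    have h2 := iA'.comp_mul_left' (R := y) hy0.ne'
    have h3 := h2.const_mul y
    refine h3.congr (ae_of_all _ fun t => ?_)
    simp only
    have e1 : 1 / y * (y * t) = t := by field_simp
    rw [e1]
    field_simp
  have e1 := Measure.integral_comp_mul_left (fun t : ℝ => 1 / y * (1 / y *
      A (((1 / y : ℝ) : ℂ) + (t : ℝ) * I))) (1 / y)
  rw [e1, inv_div, div_one, abs_of_pos hy0, smul_eq_mul, ← integral_const_mul,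
    ← integral_add (by
      refine (iA.const_mul (1 : ℝ)).congr (ae_of_all _ fun t => ?_)
      simp only
      field_simp) iB, ← integral_const_mul]
  congr 1
  funext t
  rw [← hAB]
  field_simp

/-- the zeros on the edge form a null set -/
theorem edge_null (H : Cont lam c σ 0 Ψ Kf) (h0 : 0 < α) (h1 : α < 1)
    (hne : ∀ v : ℂ, 0 < v.re → Ψ (v ^ (α : ℂ)) ≠ 0) :
    ∀ᵐ t : ℝ, t ≠ 0 ∧ chi Ψ α (t * I) ≠ 0 := by
  have h2 : volume {t : ℝ | t ≠ 0 ∧ chi Ψ α (t * I) = 0} = 0 := by
    refine measure_null_of_locally_null _ fun t ht => ?_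
    have hv : (0 : ℝ) ≤ ((t : ℂ) * I).re := by simp
    have hv0 : (t : ℂ) * I ≠ 0 := mul_ne_zero (by exact_mod_cast ht.1) I_ne_zero
    rcases (chi_analytic H h0 h1 hv hv0).eventually_eq_zero_or_eventually_ne_zero with h | h
    · exfalso
      have h3 : Tendsto (fun ε : ℝ => (t : ℂ) * I + ε) (𝓝[>] 0) (𝓝 ((t : ℂ) * I)) := by
        have h4 : Continuous fun ε : ℝ => (t : ℂ) * I + (ε : ℂ) := by fun_prop
        have h5 := h4.tendsto 0
        simp only [Complex.ofReal_zero, add_zero] at h5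
        exact h5.mono_left nhdsWithin_le_nhds
      obtain ⟨ε, h4, h6⟩ := ((h3.eventually h).and self_mem_nhdsWithin).exists
      refine hne _ ?_ h4
      have h7 : (0 : ℝ) < ε := h6
      simpa using h7
    · have h3 : Tendsto (fun u : ℝ => (u : ℂ) * I) (𝓝[≠] t) (𝓝[≠] ((t : ℂ) * I)) := by
        refine tendsto_nhdsWithin_of_tendsto_nhds_of_eventually_within _ ?_ ?_
        · have h4 : Continuous fun u : ℝ => (u : ℂ) * I := by fun_prop
          exact (h4.tendsto t).mono_left nhdsWithin_le_nhds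
        · filter_upwards [self_mem_nhdsWithin] with u hu h4
          refine hu ?_
          have h5 := mul_right_cancel₀ I_ne_zero (show (u : ℂ) * I = t * I from h4)
          exact_mod_cast h5
      have h4 := h3.eventually h
      rw [eventually_nhdsWithin_iff] at h4
      obtain ⟨U, hU, hU2, hU3⟩ := mem_nhds_iff.1 h4
      refine ⟨{t : ℝ | t ≠ 0 ∧ chi Ψ α (t * I) = 0} ∩ U,
        inter_mem_nhdsWithin _ (hU2.mem_nhds hU3), ?_⟩
      refine measure_mono_null (t := {t}) ?_ (by simp)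
      rintro u ⟨hu1, hu2⟩
      by_contra hu3
      exact hU hu2 hu3 hu1.2
  have h3 : volume ({0} : Set ℝ) = 0 := by simp
  rw [ae_iff]
  refine measure_mono_null ?_ (measure_union_null h2 h3)
  intro t ht
  by_cases h4 : t = 0
  · exact Or.inr h4
  · refine Or.inl ⟨h4, ?_⟩
    by_contra h5
    exact ht ⟨h4, h5⟩

/-- boundedness near a point of the edge which is not a zero -/
theorem edge_bdd (H : Cont lam c σ 0 Ψ Kf) (h0 : 0 < α) (h1 : α < 1)
    (hne : ∀ v : ℂ, 0 < v.re → Ψ (v ^ (α : ℂ)) ≠ 0)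
    {f : ℂ → ℂ} (hf : ∀ v : ℂ, 0 < v.re → HasDerivAt f (qf Ψ Kf α v) v) {t : ℝ} (ht : t ≠ 0)
    (hz : chi Ψ α (t * I) ≠ 0) :
    ∃ C : ℝ, ∀ x : ℝ, 0 < x → x ≤ 1 → ‖f (x + t * I)‖ ≤ C ∧ ‖qf Ψ Kf α (x + t * I)‖ ≤ C := by
  have hc : ContinuousOn (fun x : ℝ => qf Ψ Kf α (x + t * I)) (Icc 0 1) := by
    intro x hx
    set v : ℂ := (x : ℂ) + t * I with hv
    have hvr : v.re = x := by rw [hv]; simp
    have hvi : v.im = t := by rw [hv]; simp
    have hv1 : 0 ≤ v.re := by rw [hvr]; exact hx.1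
    have hv0 : v ≠ 0 := fun h => ht (by rw [← hvi, h, Complex.zero_im])
    have hsl := slit' hv1 hv0
    have hre := re_pow_pos' h0 h1 hv1 hv0
    have hΨ : Ψ (v ^ (α : ℂ)) ≠ 0 := by
      rcases hx.1.eq_or_lt with h | h
      · have : v = t * I := by rw [hv, ← h]; simp
        rw [this]
        exact hz
      · exact hne v (by rw [hvr]; exact h)
    have e1 : ContinuousAt (fun v : ℂ => v ^ ((α : ℂ) - 1)) v :=
      (differentiableAt_id.cpow_const (c := (α : ℂ) - 1) hsl).continuousAt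
    have e2 : ContinuousAt (Qf Ψ Kf) (v ^ (α : ℂ)) := by
      unfold Qf
      exact ((H.analytic hre).deriv.continuousAt.div (H.analytic hre).continuousAt hΨ).sub
        (H.Kd _ hre).continuousAt
    have e3 : ContinuousAt (fun v : ℂ => Qf Ψ Kf (v ^ (α : ℂ))) v :=
      ContinuousAt.comp (f := fun v : ℂ => v ^ (α : ℂ)) e2 (pow_analytic hsl).continuousAt
    have e4 : ContinuousAt (qf Ψ Kf α) v := by
      unfold qf
      exact ((continuousAt_const.mul e1).mul e3).neg
    exact (ContinuousAt.comp (f := fun x : ℝ => (x : ℂ) + t * I) e4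
      (by fun_prop)).continuousWithinAt
  obtain ⟨C, hC⟩ := isCompact_Icc.exists_bound_of_continuousOn hc
  have hC0 : 0 ≤ C := (norm_nonneg _).trans (hC 0 ⟨le_rfl, zero_le_one⟩)
  refine ⟨C + ‖f (1 + t * I)‖, fun x hx hx1 => ⟨?_, ?_⟩⟩
  · have e1 := horiz (f := f) (f' := qf Ψ Kf α) (v := (x : ℂ) + t * I) (T := 1 - x) (by linarith)
      (B := fun τ => C * τ) (B' := fun _ => C)
      (fun τ hτ => hf _ (by simp; linarith [hτ.1]))
      (fun τ _ => by
        have := (hasDerivAt_id τ).const_mul C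
        rw [mul_one] at this
        exact this)
      (fun τ hτ => by
        have := hC (x + τ) ⟨by linarith [hτ.1], by linarith [hτ.2]⟩
        have e3 : (((x + τ : ℝ) : ℂ) + t * I) = (x : ℂ) + t * I + τ := by push_cast; ring
        rwa [e3] at this)
    have e2 : (x : ℂ) + t * I + ((1 - x : ℝ) : ℂ) = 1 + t * I := by push_cast; ring
    rw [e2] at e1
    have e3 := norm_sub_le (f (1 + t * I)) (f (1 + t * I) - f (x + t * I))
    rw [sub_sub_cancel] at e3
    have e4 : C * (1 - x) ≤ C := by nlinarith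
    linarith
  · exact (hC x ⟨hx.le, hx1⟩).trans (le_add_of_nonneg_right (norm_nonneg _))

end Pool.Agent.TH942.SL
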