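import Pool.Agent.TH942.SL.Lim3

/-!
# The limit of the means for a function which is regular on the edge
-/

set_option autoImplicit false

open MeasureTheory Filter Topology Set Complex
open Pool.Agent.TH942.LS (Dat P P_le Cont Qf)

namespace Pool.Agent.TH942.SL

variable {α : ℝ} {lam c : ℕ → ℝ} {δ σ : ℝ}

/-- **The limit of the means** if the function is bounded near the edge. -/
theorem lim_gen (D : Dat lam c δ σ) (h0 : 0 < α) (h1 : α < 1) {f f' : ℂ → ℂ} {κ₀ : ℂ} {K C : ℝ}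
    (hf : ∀ v : ℂ, 0 < v.re → HasDerivAt f (f' v) v)
    (hf' : ∀ v : ℂ, 0 < v.re → DifferentiableAt ℂ f' v) {x₀ : ℝ} (hx1 : 1 ≤ x₀)
    (hx₀ : ∀ z : ℂ, 0 < z.re → x₀ ≤ ‖z‖ → σ + 1 ≤ kap α * ‖z‖ ^ α)
    (hff : ∀ v : ℂ, 0 < v.re → x₀ ≤ ‖v‖ → f v = f₀ lam c α v ∧ f' v = f₁ lam c α v)
    (hb : ∀ v : ℂ, 0 < v.re → ‖v‖ ≤ x₀ → ‖f v + K * log v‖ ≤ C ∧ ‖v * f' v + K‖ ≤ C)
    (hray : ∀ w : ℂ, 0 < w.re → Tendsto (fun y : ℝ => f (w / y) + K * log (w / y)) atTop (𝓝 κ₀))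
    (hray' : ∀ w : ℂ, 0 < w.re → Tendsto (fun y : ℝ => (w / y) * f' (w / y) + K) atTop (𝓝 0)) :
    Tendsto (fun y : ℝ => ((M lam c α y - K * Real.log y : ℝ) : ℂ)) atTop
      (𝓝 (κ₀ + K * Real.eulerMascheroniConstant)) := by
  have hx00 : 0 < x₀ := by linarith
  have hS := S₀_nonneg lam c σ
  have hδ := D.δ0
  set p : ℝ := 2 - α with hp
  have hp1 : 1 < p := by rw [hp]; linarith
  have hp0 : 0 ≤ p := by linarith
  have hp2 : p ≤ 2 := by rw [hp]; linarith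
  have hpi := Real.pi_pos
  have hre : ∀ x t : ℝ, ((x : ℂ) + t * I).re = x := fun x t => by simp
  have him : ∀ x t : ℝ, ((x : ℂ) + t * I).im = t := fun x t => by simp
  have hC0 : 0 ≤ C := (norm_nonneg _).trans (hb 1 (by simp) (by simpa using hx1)).1
  set h : ℂ → ℂ := hh f f' with hh'
  have hhd : ∀ z : ℂ, 0 < z.re → DifferentiableAt ℂ h z := fun z hz =>
    hh_diff hz (hf z hz).differentiableAt (hf' z hz)
  have hsqd : ∀ z : ℂ, 0 < z.re → DifferentiableAt ℂ (fun z : ℂ => 1 / z ^ 2) z := fun z hz => by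
    have e2 : DifferentiableAt ℂ (fun z : ℂ => z ^ 2) z := by fun_prop
    exact (differentiableAt_const 1).div e2 (pow_ne_zero 2 (ne_zero' hz))
  -- the far part
  obtain ⟨Cg, hCg, hgl⟩ := gl_bound h0 hx00
  set A : ℝ := S₀ lam c σ + α * (2 / δ * S₀ lam c σ) with hA
  have hA0 : 0 ≤ A := by positivity
  have hfar : ∀ z : ℂ, 0 < z.re → x₀ ≤ ‖z‖ → ‖h z‖ ≤ A * ‖z‖ ^ (-p) := by
    intro z hz hz2
    obtain ⟨e1, e2⟩ := hff z hz hz2
    have e3 : h z = hh (f₀ lam c α) (f₁ lam c α) z := by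
      rw [hh']
      unfold hh
      rw [e1, e2]
    rw [e3]
    exact hh_bound D h0 h1 hz (by linarith) (hx₀ z hz hz2)
  -- the remainder
  set R : ℂ → ℂ := fun z => h z - K * gl z - κ₀ * (1 / z ^ 2) with hR
  have hRd : ∀ z : ℂ, 0 < z.re → DifferentiableAt ℂ R z := fun z hz =>
    ((hhd z hz).sub ((gl_diff hz).const_mul _)).sub ((hsqd z hz).const_mul _)
  have hR0 : ∀ z : ℂ, 0 < z.re → R z * z ^ 2 =
      (f z + K * log z - κ₀) - (z * f' z + K) := by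
    intro z hz
    have hz0 := ne_zero' hz
    rw [hR, hh']
    unfold hh gl
    field_simp
    ring
  have hsq : ∀ z : ℂ, x₀ ≤ ‖z‖ → 1 / ‖z‖ ^ 2 ≤ ‖z‖ ^ (-p) := by
    intro z hz
    have hn : 1 ≤ ‖z‖ := hx1.trans hz
    have e1 : 1 / ‖z‖ ^ 2 = ‖z‖ ^ (-(2 : ℝ)) := by
      rw [rpow_neg_two (by linarith), one_div]
    rw [e1]
    exact Real.rpow_le_rpow_of_exponent_le hn (by linarith)
  set C₅ : ℝ := max (2 * C + ‖κ₀‖) ((A + ‖(K : ℂ)‖ * Cg + ‖κ₀‖) * (1 + 1 / x₀) ^ p) with hC5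
  have hC50 : 0 ≤ C₅ := le_max_of_le_left (by positivity)
  have r2 : ∀ z : ℂ, 0 < z.re → ‖z‖ ≤ x₀ → ‖R z‖ ≤ C₅ / ‖z‖ ^ 2 := by
    intro z hz hzr
    have hn := norm_pos' hz
    obtain ⟨e1, e2⟩ := hb z hz hzr
    rw [le_div_iff₀ (by positivity), ← norm_pow, ← norm_mul, hR0 z hz]
    calc _ ≤ ‖f z + K * log z - κ₀‖ + ‖z * f' z + K‖ := norm_sub_le _ _
      _ ≤ (‖f z + K * log z‖ + ‖κ₀‖) + C := add_le_add (norm_sub_le _ _) e2
      _ ≤ 2 * C + ‖κ₀‖ := by linarith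
      _ ≤ _ := le_max_left _ _
  have r3' : ∀ z : ℂ, 0 < z.re → x₀ ≤ ‖z‖ → ‖R z‖ ≤ C₅ * (1 + |z.im|) ^ (-p) := by
    intro z hz hzr
    have hn := norm_pos' hz
    have e1 := hfar z hz hzr
    have e2 := hgl z hzr
    have e3 := hsq z hzr
    have e4 := nb hx00 hp0 hzr
    have e5 : ‖κ₀ * (1 / z ^ 2)‖ ≤ ‖κ₀‖ * ‖z‖ ^ (-p) := by
      rw [norm_mul, norm_div, norm_one, norm_pow]
      gcongr
    have e6 : ‖(K : ℂ) * gl z‖ ≤ ‖(K : ℂ)‖ * (Cg * ‖z‖ ^ (-p)) := by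
      rw [norm_mul]
      exact mul_le_mul_of_nonneg_left e2 (norm_nonneg _)
    have htp : 0 ≤ (1 + |z.im|) ^ (-p) := by positivity
    calc ‖R z‖ ≤ ‖h z - K * gl z‖ + ‖κ₀ * (1 / z ^ 2)‖ := norm_sub_le _ _
      _ ≤ ‖h z‖ + ‖(K : ℂ) * gl z‖ + ‖κ₀ * (1 / z ^ 2)‖ := by
          gcongr
          exact norm_sub_le _ _
      _ ≤ A * ‖z‖ ^ (-p) + ‖(K : ℂ)‖ * (Cg * ‖z‖ ^ (-p)) + ‖κ₀‖ * ‖z‖ ^ (-p) :=
          add_le_add (add_le_add e1 e6) e5
      _ = (A + ‖(K : ℂ)‖ * Cg + ‖κ₀‖) * ‖z‖ ^ (-p) := by ring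
      _ ≤ (A + ‖(K : ℂ)‖ * Cg + ‖κ₀‖) * ((1 + 1 / x₀) ^ p * (1 + |z.im|) ^ (-p)) := by gcongr
      _ = ((A + ‖(K : ℂ)‖ * Cg + ‖κ₀‖) * (1 + 1 / x₀) ^ p) * (1 + |z.im|) ^ (-p) := by ring
      _ ≤ _ := mul_le_mul_of_nonneg_right (le_max_right _ _) htp
  have r3 : ∀ z : ℂ, 0 < z.re → z.re ≤ 1 → x₀ ≤ ‖z‖ →
      ‖R z‖ ≤ C₅ * (1 / z.re * (1 + |z.im|) ^ (-p)) := by
    intro z hz hz1 hzr
    refine (r3' z hz hzr).trans (mul_le_mul_of_nonneg_left ?_ hC50)
    have e4 : 1 ≤ 1 / z.re := by rw [le_div_iff₀ hz]; linarith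
    exact le_mul_of_one_le_left (by positivity) e4
  have r4 : ∀ w : ℂ, 0 < w.re → Tendsto (fun y : ℝ => (w / y) ^ 2 * R (w / y)) atTop (𝓝 0) := by
    intro w hw
    have e1 := ((hray w hw).sub_const κ₀).sub (hray' w hw)
    rw [sub_self, sub_zero] at e1
    refine e1.congr' ?_
    filter_upwards [eventually_gt_atTop 0] with y hy
    have : 0 < (w / (y : ℂ)).re := by
      rw [Complex.div_ofReal_re]
      positivity
    rw [mul_comm ((w / (y : ℂ)) ^ 2), hR0 _ this]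
  have hne0 : ∀ᵐ t : ℝ, t ≠ 0 := by
    rw [ae_iff]
    simp
  have r5 : ∀ᵐ t : ℝ, Tendsto (fun y : ℝ => (1 / y) * ‖R (((1 / y : ℝ) : ℂ) + t * I)‖) atTop
      (𝓝 0) := by
    filter_upwards [hne0] with t ht
    have ht0 : 0 < |t| := abs_pos.2 ht
    have e1 : Tendsto (fun y : ℝ => 1 / y * (C₅ / |t| ^ 2 + C₅)) atTop (𝓝 0) := by
      have e2 : Tendsto (fun y : ℝ => 1 / y) atTop (𝓝 0) :=
        tendsto_const_nhds.div_atTop tendsto_id
      have e3 := e2.mul_const (C₅ / |t| ^ 2 + C₅)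
      rwa [zero_mul] at e3
    refine squeeze_zero' ?_ ?_ e1
    · filter_upwards [eventually_gt_atTop 0] with y hy
      positivity
    · filter_upwards [eventually_ge_atTop 1] with y hy
      have hy0 : 0 < y := by linarith
      set z : ℂ := ((1 / y : ℝ) : ℂ) + t * I with hz
      have hzr : 0 < z.re := by rw [hz, hre]; positivity
      have hzn : |t| ≤ ‖z‖ := by
        have := abs_im_le_norm z
        rwa [hz, him] at this
      refine mul_le_mul_of_nonneg_left ?_ (by positivity)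
      rcases le_total ‖z‖ x₀ with h2 | h2
      · have e2 := r2 z hzr h2
        have e3 : C₅ / ‖z‖ ^ 2 ≤ C₅ / |t| ^ 2 := by gcongr
        linarith
      · have e2 := r3' z hzr h2
        have e3 : (1 + |z.im|) ^ (-p) ≤ 1 :=
          Real.rpow_le_one_of_one_le_of_nonpos (by linarith [abs_nonneg z.im]) (by linarith)
        have e4 : 0 ≤ C₅ / |t| ^ 2 := by positivity
        have e5 := mul_le_mul_of_nonneg_left e3 hC50
        linarith
  have hsmall := V_small hp1 hC50 (fun z hz => (hRd z hz).continuousAt) r2 r3 r4 r5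
  -- the main formula
  have key : ∀ y : ℝ, 1 ≤ y → ‖((M lam c α y - K * Real.log y : ℝ) : ℂ) -
      (κ₀ + K * Real.eulerMascheroniConstant)‖ ≤ (2 * Real.pi)⁻¹ * Real.exp 1 *
        ((1 / y) * ∫ t : ℝ, ‖R (((1 / y : ℝ) : ℂ) + t * I)‖) := by
    intro y hy
    have hy0 : 0 < y := by linarith
    have hyc : (y : ℂ) ≠ 0 := by exact_mod_cast hy0.ne'
    set c₀ : ℝ := 1 / y with hc₀
    have hc00 : 0 < c₀ := by positivity
    have hc01 : c₀ ≤ 1 := by rw [hc₀, div_le_one hy0]; exact hy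
    have hc0x : c₀ ≤ x₀ := hc01.trans hx1
    have hcy : c₀ * y = 1 := by rw [hc₀]; field_simp
    -- the bounds on the strip
    obtain ⟨Cg', hCg', hgl'⟩ := gl_bound h0 hc00
    have hgb : ∀ z : ℂ, c₀ ≤ z.re → ‖gl z‖ ≤
        (Cg' * (1 + 1 / c₀) ^ p) * (1 + |z.im|) ^ (-p) := by
      intro z hz1
      have e0 := hz1.trans (re_le_norm z)
      have e2 := hgl' z e0
      have e3 := nb hc00 hp0 e0
      rw [mul_assoc]
      exact e2.trans (mul_le_mul_of_nonneg_left e3 hCg')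
    set Bh : ℝ := C₅ * (1 + 1 / c₀) ^ (2 : ℝ) + C₅ +
      ‖(K : ℂ)‖ * (Cg' * (1 + 1 / c₀) ^ p) + ‖κ₀‖ * (1 + 1 / c₀) ^ (2 : ℝ) with hBh
    have hBh0 : 0 ≤ Bh := by positivity
    have hhb : ∀ z : ℂ, c₀ ≤ z.re → ‖h z‖ ≤ Bh * (1 + |z.im|) ^ (-p) := by
      intro z hz1
      have hz0 : 0 < z.re := hc00.trans_le hz1
      have htp : 0 < (1 + |z.im|) ^ (-p) := Real.rpow_pos_of_pos (by positivity) _
      have e1 : h z = R z + K * gl z + κ₀ * (1 / z ^ 2) := by rw [hR]; ring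
      have e3 := sq_line hc00 hz1 hp2
      have e5 : ‖(K : ℂ) * gl z‖ ≤ ‖(K : ℂ)‖ * ((Cg' * (1 + 1 / c₀) ^ p) *
          (1 + |z.im|) ^ (-p)) := by
        rw [norm_mul]
        exact mul_le_mul_of_nonneg_left (hgb z hz1) (norm_nonneg _)
      have e6 : ‖κ₀ * (1 / z ^ 2)‖ ≤ ‖κ₀‖ * ((1 + 1 / c₀) ^ (2 : ℝ) * (1 + |z.im|) ^ (-p)) := by
        rw [norm_mul, norm_div, norm_one, norm_pow]
        exact mul_le_mul_of_nonneg_left e3 (norm_nonneg _)
      have e7 : ‖R z‖ ≤ (C₅ * (1 + 1 / c₀) ^ (2 : ℝ) + C₅) * (1 + |z.im|) ^ (-p) := by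
        rcases le_total ‖z‖ x₀ with h2 | h2
        · have e8 := r2 z hz0 h2
          have e9 : C₅ / ‖z‖ ^ 2 = C₅ * (1 / ‖z‖ ^ 2) := by ring
          rw [e9] at e8
          have e10 := mul_le_mul_of_nonneg_left e3 hC50
          have e11 : 0 ≤ C₅ * (1 + |z.im|) ^ (-p) := by positivity
          rw [add_mul]
          linarith
        · have e8 := r3' z hz0 h2
          have e11 : 0 ≤ C₅ * (1 + 1 / c₀) ^ (2 : ℝ) * (1 + |z.im|) ^ (-p) := by positivity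
          rw [add_mul]
          linarith
      rw [e1]
      calc _ ≤ ‖R z‖ + ‖(K : ℂ) * gl z‖ + ‖κ₀ * (1 / z ^ 2)‖ := norm_add₃_le
        _ ≤ (C₅ * (1 + 1 / c₀) ^ (2 : ℝ) + C₅) * (1 + |z.im|) ^ (-p) + ‖(K : ℂ)‖ * ((Cg' *
          (1 + 1 / c₀) ^ p) * (1 + |z.im|) ^ (-p)) + ‖κ₀‖ * ((1 + 1 / c₀) ^ (2 : ℝ) *
          (1 + |z.im|) ^ (-p)) := add_le_add (add_le_add e7 e5) e6
        _ = _ := by rw [hBh]; ring
    -- the formula on the line `x₀`
    have a1 : ((y * M lam c α y : ℝ) : ℂ) = V x₀ (fun z => exp (z * y) * h z) := by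
      rw [yM_eq D h0 h1 hx1 hy0 hx₀]
      unfold V
      congr 2
      funext t
      have e1 : 0 < ((x₀ : ℂ) + t * I).re := by rw [hre]; linarith
      have e2 : x₀ ≤ ‖(x₀ : ℂ) + t * I‖ := by
        have := re_le_norm ((x₀ : ℂ) + t * I)
        rwa [hre] at this
      obtain ⟨e3, e4⟩ := hff _ e1 e2
      rw [hh']
      unfold hh
      simp only
      rw [e3, e4]
    have a2 : V x₀ (fun z => exp (z * y) * h z) = V c₀ (fun z => exp (z * y) * h z) := by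
      refine (shift hp1 hc0x (B := Real.exp (x₀ * y) * Bh) (fun s hs _ => ?_)
        fun s hs hs2 => ?_).symm
      · exact DifferentiableAt.mul (by fun_prop) (hhd s (hc00.trans_le hs))
      · rw [norm_mul, Complex.norm_exp, Complex.re_mul_ofReal, mul_assoc]
        refine mul_le_mul (Real.exp_le_exp.2 ?_) (hhb s hs) (norm_nonneg _) (Real.exp_pos _).le
        exact mul_le_mul_of_nonneg_right hs2 hy0.le
    -- integrability
    have hline : ∀ (F : ℂ → ℂ) (B : ℝ), (∀ z : ℂ, 0 < z.re → DifferentiableAt ℂ F z) →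
        (∀ z : ℂ, z.re = c₀ → ‖F z‖ ≤ B * (1 + |z.im|) ^ (-p)) →
        Integrable fun t : ℝ => exp (((c₀ : ℂ) + t * I) * y) * F (c₀ + t * I) := by
      intro F B hF hFB
      refine line_int (H := fun z => exp (z * y) * F z) (p := p)
        (B := Real.exp 1 * B) hp1 (fun s hs => ?_) (fun s hs => ?_)
      · have hs0 : 0 < s.re := by rw [hs]; exact hc00
        have e2 : DifferentiableAt ℂ (fun z : ℂ => exp (z * y)) s := by fun_prop
        exact (e2.mul (hF s hs0)).continuousAt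
      · rw [norm_mul, Complex.norm_exp, Complex.re_mul_ofReal, hs, hcy, mul_assoc (Real.exp 1)]
        exact mul_le_mul_of_nonneg_left (hFB s hs) (Real.exp_pos _).le
    have ig := hline gl _ (fun z hz => gl_diff hz) (fun z hz => hgb z hz.ge)
    have iq := hline (fun z => 1 / z ^ 2) ((1 + 1 / c₀) ^ (2 : ℝ)) (fun z hz => hsqd z hz)
      (fun z hz => by
        rw [norm_div, norm_one, norm_pow]
        exact sq_line hc00 hz.ge hp2)
    have ih := hline h Bh hhd (fun z hz => hhb z hz.ge)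
    have iR : Integrable fun t : ℝ => exp (((c₀ : ℂ) + t * I) * y) * R (c₀ + t * I) := by
      have e1 := (ih.sub (ig.const_mul (K : ℂ))).sub (iq.const_mul κ₀)
      refine e1.congr (ae_of_all _ fun t => ?_)
      simp only [Pi.sub_apply]
      rw [hR]
      ring
    have a3 : V c₀ (fun z => exp (z * y) * h z) = V c₀ (fun z => exp (z * y) * R z) +
        K * V c₀ (fun z => exp (z * y) * gl z) + κ₀ * V c₀ (fun z => exp (z * y) / z ^ 2) := by
      have e1 : ∀ t : ℝ, exp (((c₀ : ℂ) + t * I) * y) * h (c₀ + t * I) =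
          exp (((c₀ : ℂ) + t * I) * y) * R (c₀ + t * I) +
          (K : ℂ) * (exp (((c₀ : ℂ) + t * I) * y) * gl (c₀ + t * I)) +
          κ₀ * (exp (((c₀ : ℂ) + t * I) * y) * (1 / ((c₀ : ℂ) + t * I) ^ 2)) := by
        intro t
        rw [hR]
        ring
      unfold V
      simp only [e1]
      have i1 : Integrable fun t : ℝ => exp (((c₀ : ℂ) + t * I) * y) * R (c₀ + t * I) +
          (K : ℂ) * (exp (((c₀ : ℂ) + t * I) * y) * gl (c₀ + t * I)) :=
        iR.add (ig.const_mul _)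
      rw [integral_add i1 (iq.const_mul _),
        integral_add iR (ig.const_mul _), integral_const_mul, integral_const_mul]
      simp only [mul_one_div]
      ring
    have a4 : V c₀ (fun z => exp (z * y) * gl z) =
        y * (Real.eulerMascheroniConstant + Real.log y) := by
      rw [← gg_line hc00 (Or.inl hc01), gg_pos hy0, L₀_eq]
    have a5 : V c₀ (fun z => exp (z * y) / z ^ 2) = y := V_sq hy0
    have a6 : ((M lam c α y - K * Real.log y : ℝ) : ℂ) -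
        (κ₀ + K * Real.eulerMascheroniConstant) =
        (1 / y : ℂ) * V c₀ (fun z => exp (z * y) * R z) := by
      rw [a2, a3, a4, a5] at a1
      push_cast at a1 ⊢
      rw [one_div, eq_inv_mul_iff_mul_eq₀ hyc]
      linear_combination a1
    rw [a6, norm_mul]
    have e0 : ‖(1 / y : ℂ)‖ = 1 / y := by
      rw [norm_div, norm_one, Complex.norm_real, Real.norm_eq_abs, abs_of_pos hy0]
    have e1 := norm_V_le (H := fun z => exp (z * y) * R z) (c := c₀)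
      (g := fun t => ‖exp (((c₀ : ℂ) + t * I) * y) * R (c₀ + t * I)‖) iR.norm (fun t => le_rfl)
    have e2 : ∀ t : ℝ, ‖exp (((c₀ : ℂ) + t * I) * y) * R (c₀ + t * I)‖ =
        Real.exp 1 * ‖R (c₀ + t * I)‖ := fun t => by
      rw [norm_mul, Complex.norm_exp, Complex.re_mul_ofReal, hre, hcy]
    simp only [e2] at e1
    rw [integral_const_mul] at e1
    rw [e0]
    calc 1 / y * ‖V c₀ (fun z => exp (z * y) * R z)‖ ≤ 1 / y * ((2 * Real.pi)⁻¹ *
          (Real.exp 1 * ∫ t : ℝ, ‖R (c₀ + t * I)‖)) := by gcongr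
      _ = _ := by rw [hc₀]; ring
  rw [← tendsto_sub_nhds_zero_iff]
  have hs2 := hsmall.const_mul ((2 * Real.pi)⁻¹ * Real.exp 1)
  rw [mul_zero] at hs2
  refine squeeze_zero_norm' ?_ hs2
  filter_upwards [eventually_ge_atTop 1] with y hy
  exact key y hy

end Pool.Agent.TH942.SL
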