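import Pool.Agent.TH942.SL.LimGen
import Pool.Agent.TH942.SL.Ext2

/-!
# The limit of the means for a function with a logarithmic asymptotic at the vertex of a sector
-/

set_option autoImplicit false

open MeasureTheory Filter Topology Set Complex
open Pool.Agent.TH942.LS (Dat P P_le Cont Qf)

namespace Pool.Agent.TH942.SL

variable {α : ℝ} {lam c : ℕ → ℝ} {δ σ : ℝ}

/-- the closed cone -/
lemma sect_norm {ρ : ℝ} (hρ : 1 < ρ) {s : ℂ} (hs : s ∈ Sect ρ) :
    ‖s‖ ≤ (1 + Real.tan (Real.pi / (2 * ρ))) * s.re := by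
  obtain ⟨h1, h2⟩ := (sect_iff hρ).1 hs
  have h3 := Complex.norm_le_abs_re_add_abs_im s
  rw [abs_of_pos h1] at h3
  linarith

lemma tan_pos' {ρ : ℝ} (hρ : 1 < ρ) : 0 < Real.tan (Real.pi / (2 * ρ)) := by
  have hpi := Real.pi_pos
  exact Real.tan_pos_of_pos_of_lt_pi_div_two (by positivity) (half_lt hρ)

lemma tan_lt' {ρ₁ ρ₂ : ℝ} (h₁ : 1 < ρ₁) (h : ρ₁ < ρ₂) :
    Real.tan (Real.pi / (2 * ρ₂)) < Real.tan (Real.pi / (2 * ρ₁)) := by
  have hpi := Real.pi_pos
  have e1 : 0 < 2 * ρ₁ := by linarith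
  have e2 : 0 < 2 * ρ₂ := by linarith
  refine Real.tan_lt_tan_of_nonneg_of_lt_pi_div_two (by positivity) (half_lt h₁) ?_
  apply div_lt_div_of_pos_left hpi e1
  linarith

/-- **the margin between two sectors** -/
lemma sect_margin {ρ₁ ρ₂ : ℝ} (h₁ : 1 < ρ₁) (h : ρ₁ < ρ₂) :
    ∃ η : ℝ, 0 < η ∧ η ≤ 1 / 2 ∧ ∀ s ∈ Sect ρ₂, ∀ z : ℂ, ‖z - s‖ ≤ η * ‖s‖ → z ∈ Sect ρ₁ := by
  have h₂ : 1 < ρ₂ := h₁.trans h
  set t₁ := Real.tan (Real.pi / (2 * ρ₁)) with ht1
  set t₂ := Real.tan (Real.pi / (2 * ρ₂)) with ht2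
  have ht : t₂ < t₁ := tan_lt' h₁ h
  have ht20 : 0 < t₂ := tan_pos' h₂
  have ht10 : 0 < t₁ := ht20.trans ht
  set C : ℝ := 1 + t₂ with hC
  have hC0 : 0 < C := by positivity
  set η : ℝ := min (1 / 2) ((t₁ - t₂) / (2 * (C * (1 + t₁)))) with hη
  have hd : 0 < 2 * (C * (1 + t₁)) := by positivity
  have hη0 : 0 < η := lt_min (by norm_num) (div_pos (by linarith) hd)
  have hη1 : η * (C * (1 + t₁)) < t₁ - t₂ := by
    have e1 : η ≤ (t₁ - t₂) / (2 * (C * (1 + t₁))) := min_le_right _ _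
    rw [le_div_iff₀ hd] at e1
    nlinarith
  refine ⟨η, hη0, min_le_left _ _, fun s hs z hz => ?_⟩
  obtain ⟨e1, e2⟩ := (sect_iff h₂).1 hs
  have e3 := sect_norm h₂ hs
  rw [← ht2] at e2 e3
  have e4 : ‖z - s‖ ≤ η * (C * s.re) := hz.trans (mul_le_mul_of_nonneg_left e3 hη0.le)
  have e5 := abs_le.1 ((Complex.abs_re_le_norm (z - s)).trans e4)
  have e6 := (Complex.abs_im_le_norm (z - s)).trans e4
  rw [Complex.sub_re] at e5
  rw [Complex.sub_im] at e6
  have e7 : |z.im| ≤ |s.im| + η * (C * s.re) := by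
    have := abs_add_le s.im (z.im - s.im)
    rw [add_sub_cancel] at this
    linarith
  have e8 : (1 - η * C) * s.re ≤ z.re := by nlinarith [e5.1]
  have e9 : η * C < 1 := by
    have : η * C * (1 + t₁) < t₁ - t₂ := by rw [mul_assoc]; exact hη1
    by_contra hcon
    push Not at hcon
    nlinarith
  have e10 : 0 < z.re := lt_of_lt_of_le (mul_pos (by linarith) e1) e8
  refine (sect_iff h₁).2 ⟨e10, ?_⟩
  rw [← ht1]
  have e11 : t₁ * ((1 - η * C) * s.re) ≤ t₁ * z.re := mul_le_mul_of_nonneg_left e8 ht10.le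
  have e12 : t₂ * s.re + η * (C * s.re) < t₁ * ((1 - η * C) * s.re) := by
    have : (η * (C * (1 + t₁))) * s.re < (t₁ - t₂) * s.re := mul_lt_mul_of_pos_right hη1 e1
    nlinarith
  linarith

/-- boundedness in smaller sectors -/
lemma sect_bdd {ρ₁ ρ₂ : ℝ} (h₁ : 1 < ρ₁) (h : ρ₁ < ρ₂) {e : ℂ → ℂ}
    (hd : ∀ s ∈ Sect ρ₁, ContinuousAt e s) {κ : ℂ} (hl : Tendsto e (𝓝[Sect ρ₁] 0) (𝓝 κ)) (X : ℝ) :
    ∃ C : ℝ, 0 ≤ C ∧ ∀ s ∈ Sect ρ₂, ‖s‖ ≤ X → ‖e s‖ ≤ C := by
  have h₂ : 1 < ρ₂ := h₁.trans h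
  have hsub := sect_mono h₁ h.le
  have h3 : ∀ᶠ s in 𝓝[Sect ρ₁] 0, ‖e s - κ‖ < 1 := by
    refine ((Metric.tendsto_nhds.1 hl) 1 one_pos).mono fun s hs => ?_
    rwa [dist_eq_norm] at hs
  rw [eventually_nhdsWithin_iff, Metric.eventually_nhds_iff] at h3
  obtain ⟨r, hr, h4⟩ := h3
  set t₂ := Real.tan (Real.pi / (2 * ρ₂)) with ht2
  have ht : t₂ < Real.tan (Real.pi / (2 * ρ₁)) := tan_lt' h₁ h
  set Kc : Set ℂ := {s : ℂ | |s.im| ≤ t₂ * s.re ∧ r ≤ ‖s‖ ∧ ‖s‖ ≤ X} with hKc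
  have hKcl : IsClosed Kc := by
    have c1 : IsClosed {s : ℂ | |s.im| ≤ t₂ * s.re} :=
      isClosed_le Complex.continuous_im.abs (Complex.continuous_re.const_mul t₂)
    have c2 : IsClosed {s : ℂ | r ≤ ‖s‖} := isClosed_le continuous_const continuous_norm
    have c3 : IsClosed {s : ℂ | ‖s‖ ≤ X} := isClosed_le continuous_norm continuous_const
    exact c1.inter (c2.inter c3)
  have hKcc : IsCompact Kc := by
    refine (isCompact_closedBall (0 : ℂ) X).of_isClosed_subset hKcl ?_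
    rintro v ⟨-, -, h⟩
    rwa [Metric.mem_closedBall, dist_zero_right]
  have hKsub : Kc ⊆ Sect ρ₁ := by
    rintro s ⟨e1, e2, e3⟩
    have ht20 : 0 < t₂ := tan_pos' h₂
    have e4 : 0 ≤ s.re := by
      by_contra hcon
      push Not at hcon
      have := abs_nonneg s.im
      nlinarith
    have e5 : 0 < s.re := by
      rcases e4.eq_or_lt with h | h
      · exfalso
        rw [← h, mul_zero] at e1
        have e6 : s.im = 0 := abs_eq_zero.1 (le_antisymm e1 (abs_nonneg _))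
        have e7 : s = 0 := Complex.ext h.symm e6
        rw [e7, norm_zero] at e2
        linarith
      · exact h
    exact (sect_iff h₁).2 ⟨e5, e1.trans_lt (mul_lt_mul_of_pos_right ht e5)⟩
  obtain ⟨C, hC⟩ := hKcc.exists_bound_of_continuousOn (f := e) fun s hs =>
    (hd s (hKsub hs)).continuousWithinAt
  refine ⟨|C| + (‖κ‖ + 1), by positivity, fun s hs hX => ?_⟩
  rcases lt_or_ge ‖s‖ r with h5 | h5
  · have e1 := h4 (y := s) (by rwa [dist_zero_right]) (hsub hs)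
    have e2 := norm_add_le (e s - κ) κ
    rw [sub_add_cancel] at e2
    have := abs_nonneg C
    linarith
  · have e1 := hC s ⟨((sect_iff h₂).1 hs).2.le, h5, hX⟩
    have := le_abs_self C
    have := norm_nonneg κ
    linarith

/-- the derivative near the vertex -/
lemma sect_deriv {ρ₁ ρ₂ : ℝ} (h₁ : 1 < ρ₁) (h : ρ₁ < ρ₂) {e : ℂ → ℂ}
    (hd : ∀ s ∈ Sect ρ₁, DifferentiableAt ℂ e s) {κ : ℂ} (hl : Tendsto e (𝓝[Sect ρ₁] 0) (𝓝 κ)) :
    Tendsto (fun s => s * deriv e s) (𝓝[Sect ρ₂] 0) (𝓝 0) := by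
  obtain ⟨η, hη0, hη1, hη⟩ := sect_margin h₁ h
  rw [Metric.tendsto_nhdsWithin_nhds]
  intro ε hε
  rw [Metric.tendsto_nhdsWithin_nhds] at hl
  obtain ⟨r, hr, h3⟩ := hl (η * ε / 2) (by positivity)
  refine ⟨r / 2, by positivity, fun {s} hs hsr => ?_⟩
  rw [dist_zero_right] at hsr ⊢
  have hn : 0 < ‖s‖ := norm_pos_iff.2 hs.1
  have hin : ∀ z ∈ Metric.closedBall s (η * ‖s‖), z ∈ Sect ρ₁ ∧ ‖z‖ < r := by
    intro z hz
    rw [Metric.mem_closedBall, dist_eq_norm] at hz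
    refine ⟨hη s hs z hz, ?_⟩
    have e1 := norm_add_le (z - s) s
    rw [sub_add_cancel] at e1
    nlinarith
  have e1 : ‖deriv e s‖ ≤ (η * ε / 2) / (η * ‖s‖) := by
    have e2 : deriv e s = deriv (fun z => e z - κ) s := by rw [deriv_sub_const]
    rw [e2]
    refine Complex.norm_deriv_le_of_forall_mem_sphere_norm_le (by positivity) ?_ fun z hz => ?_
    · refine DifferentiableOn.diffContOnCl fun z hz => ?_
      rw [closure_ball _ (by positivity)] at hz
      exact ((hd z (hin z hz).1).sub_const κ).differentiableWithinAt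
    · obtain ⟨h4, h5⟩ := hin z (Metric.sphere_subset_closedBall hz)
      have := h3 h4 (by rwa [dist_zero_right])
      rw [dist_eq_norm] at this
      exact this.le
  rw [norm_mul]
  calc ‖s‖ * ‖deriv e s‖ ≤ ‖s‖ * ((η * ε / 2) / (η * ‖s‖)) := by gcongr
    _ = ε / 2 := by field_simp
    _ < ε := by linarith

/-- **The limit of the means for a function with a logarithmic asymptotic at the vertex.** -/
theorem lim_sector (D : Dat lam c δ σ) {ρ₁ ρ : ℝ} (h₁ : 1 < ρ₁) (hρ₁ : ρ₁ < ρ) {Dh : ℂ → ℂ}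
    (hd : ∀ s ∈ Sect ρ₁, DifferentiableAt ℂ Dh s)
    (he : ∀ s ∈ Sect ρ₁, σ < s.re → Dh s = DD lam c s) {K : ℝ} {κ : ℂ}
    (hl : Tendsto (fun s => Dh s + K * log s) (𝓝[Sect ρ₁] 0) (𝓝 κ)) :
    Tendsto (fun y : ℝ => ((M lam c ρ⁻¹ y - K * ρ⁻¹ * Real.log y : ℝ) : ℂ)) atTop
      (𝓝 (κ + K * ρ⁻¹ * Real.eulerMascheroniConstant)) := by
  have hρ : 1 < ρ := h₁.trans hρ₁
  have hρ0 : 0 < ρ := by linarith
  have h0 : 0 < ρ⁻¹ := by positivity
  have h1 : ρ⁻¹ < 1 := inv_lt_one_of_one_lt₀ hρ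
  set α : ℝ := ρ⁻¹ with hα
  set ρ₂ : ℝ := (ρ₁ + ρ) / 2 with hρ₂
  have h12 : ρ₁ < ρ₂ := by rw [hρ₂]; linarith
  have h2ρ : ρ₂ < ρ := by rw [hρ₂]; linarith
  have h₂ : 1 < ρ₂ := h₁.trans h12
  have hsub : Sect ρ ⊆ Sect ρ₁ := sect_mono h₁ hρ₁.le
  have hSm : ∀ v : ℂ, 0 < v.re → v ^ (α : ℂ) ∈ Sect ρ := by
    intro v hv
    refine ⟨ne_zero' (re_pow_pos h0 h1 hv), ?_⟩
    refine (arg_pow h0 h1 hv).trans_le (le_of_eq ?_)
    rw [hα]
    field_simp
  -- the function `e`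
  set e : ℂ → ℂ := fun s => Dh s + K * log s with hedef
  have hed : ∀ s ∈ Sect ρ₁, DifferentiableAt ℂ e s := fun s hs =>
    (hd s hs).add ((Complex.hasDerivAt_log (slit (sect_re h₁ hs))).differentiableAt.const_mul _)
  have hde : ∀ s ∈ Sect ρ₁, s * deriv e s = s * deriv Dh s + K := by
    intro s hs
    have e1 : HasDerivAt e (deriv Dh s + K * s⁻¹) s :=
      (hd s hs).hasDerivAt.add ((Complex.hasDerivAt_log (slit (sect_re h₁ hs))).const_mul _)
    rw [e1.deriv]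
    have := hs.1
    field_simp
  have hl2 : Tendsto e (𝓝[Sect ρ₂] 0) (𝓝 κ) := hl.mono_left (nhdsWithin_mono _ (sect_mono h₁ h12.le))
  have hder := sect_deriv h₁ hρ₁ hed hl
  -- the function `f`
  set f : ℂ → ℂ := fun v => Dh (v ^ (α : ℂ)) with hf
  have hUo : IsOpen {v : ℂ | 0 < v.re} := isOpen_lt continuous_const Complex.continuous_re
  have hfd : ∀ v : ℂ, 0 < v.re → HasDerivAt f (deriv Dh (v ^ (α : ℂ)) *
      (α * v ^ ((α : ℂ) - 1))) v := fun v hv =>
    HasDerivAt.comp (h := fun v : ℂ => v ^ (α : ℂ)) v (hd _ (hsub (hSm v hv))).hasDerivAt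
      (pow_deriv (slit hv))
  have hfd' : ∀ v : ℂ, 0 < v.re → DifferentiableAt ℂ (deriv f) v := fun v hv => by
    have h2 : DifferentiableOn ℂ f {v : ℂ | 0 < v.re} := fun z hz =>
      (hfd z hz).differentiableAt.differentiableWithinAt
    exact (h2.analyticAt (hUo.mem_nhds hv)).deriv.differentiableAt
  have hlog : ∀ v : ℂ, 0 < v.re → f v + ((K * α : ℝ) : ℂ) * log v = e (v ^ (α : ℂ)) := by
    intro v hv
    rw [hedef, hf]
    simp only
    rw [log_pow h0 h1 hv]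
    push_cast
    ring
  have hvd : ∀ v : ℂ, 0 < v.re → v * deriv f v + ((K * α : ℝ) : ℂ) =
      α * (v ^ (α : ℂ) * deriv e (v ^ (α : ℂ))) := by
    intro v hv
    rw [hde _ (hsub (hSm v hv)), (hfd v hv).deriv]
    have e1 : v ^ ((α : ℂ) - 1) = v ^ (α : ℂ) / v := by
      rw [Complex.cpow_sub _ _ (ne_zero' hv), Complex.cpow_one]
    rw [e1]
    have := ne_zero' hv
    push_cast
    field_simp
  obtain ⟨x₀, hx11, hx₀⟩ := exists_abscissa h0 h1 σ
  -- bounds
  obtain ⟨C₁, hC₁, hb₁⟩ := sect_bdd h₁ h12 (fun s hs => (hed s hs).continuousAt) hl (2 * x₀ ^ α)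
  obtain ⟨η, hη0, hη1, hη⟩ := sect_margin h₂ h2ρ
  have hb₂ : ∀ s ∈ Sect ρ, ‖s‖ ≤ x₀ ^ α → ‖s * deriv e s‖ ≤ C₁ / η := by
    intro s hs hsx
    have hn : 0 < ‖s‖ := norm_pos_iff.2 hs.1
    have hin : ∀ z ∈ Metric.closedBall s (η * ‖s‖), z ∈ Sect ρ₂ ∧ ‖z‖ ≤ 2 * x₀ ^ α := by
      intro z hz
      rw [Metric.mem_closedBall, dist_eq_norm] at hz
      refine ⟨hη s hs z hz, ?_⟩
      have e1 := norm_add_le (z - s) s
      rw [sub_add_cancel] at e1
      nlinarith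
    have e1 : ‖deriv e s‖ ≤ C₁ / (η * ‖s‖) := by
      refine Complex.norm_deriv_le_of_forall_mem_sphere_norm_le (by positivity) ?_ fun z hz => ?_
      · refine DifferentiableOn.diffContOnCl fun z hz => ?_
        rw [closure_ball _ (by positivity)] at hz
        exact (hed z (sect_mono h₁ h12.le (hin z hz).1)).differentiableWithinAt
      · obtain ⟨h4, h5⟩ := hin z (Metric.sphere_subset_closedBall hz)
        exact hb₁ z h4 h5
    rw [norm_mul]
    calc ‖s‖ * ‖deriv e s‖ ≤ ‖s‖ * (C₁ / (η * ‖s‖)) := by gcongr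
      _ = C₁ / η := by field_simp
  have hpn : ∀ v : ℂ, ‖v‖ ≤ x₀ → ‖v ^ (α : ℂ)‖ ≤ x₀ ^ α := by
    intro v hv
    rw [norm_pow']
    exact Real.rpow_le_rpow (norm_nonneg _) hv h0.le
  -- limits along rays
  have hpw : ∀ w : ℂ, 0 < w.re → Tendsto (fun y : ℝ => (w / (y : ℂ)) ^ (α : ℂ)) atTop
      (𝓝[Sect ρ] 0) := by
    intro w hw
    refine tendsto_nhdsWithin_of_tendsto_nhds_of_eventually_within _ ?_ ?_
    · rw [tendsto_zero_iff_norm_tendsto_zero]
      have e1 : Tendsto (fun y : ℝ => ‖w‖ / y) atTop (𝓝 0) :=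
        tendsto_const_nhds.div_atTop tendsto_id
      have e2 := e1.rpow_const (p := α) (Or.inr h0.le)
      rw [Real.zero_rpow h0.ne'] at e2
      refine e2.congr' ?_
      filter_upwards [eventually_gt_atTop 0] with y hy
      rw [norm_pow', norm_div, Complex.norm_real, Real.norm_eq_abs, abs_of_pos hy]
    · filter_upwards [eventually_gt_atTop 0] with y hy
      refine hSm _ ?_
      rw [Complex.div_ofReal_re]
      positivity
  have hwy : ∀ w : ℂ, 0 < w.re → ∀ᶠ y : ℝ in atTop, 0 < (w / (y : ℂ)).re := by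
    intro w hw
    filter_upwards [eventually_gt_atTop 0] with y hy
    rw [Complex.div_ofReal_re]
    positivity
  have hlρ : Tendsto e (𝓝[Sect ρ] 0) (𝓝 κ) := hl.mono_left (nhdsWithin_mono _ hsub)
  have main := lim_gen D h0 h1 (f := f) (f' := deriv f) (κ₀ := κ) (K := K * α)
    (C := C₁ + α * (C₁ / η)) (fun v hv => (hfd v hv).differentiableAt.hasDerivAt) hfd' hx11 hx₀
    (fun v hv hv2 => by
      have e1 := hx₀ v hv hv2
      have e2 := re_pow_ge h0 h1 hv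
      have e3 : σ < (v ^ (α : ℂ)).re := by linarith
      have e4 : ∀ᶠ w in 𝓝 v, f w = f₀ lam c α w := by
        have hc : ContinuousAt (fun w : ℂ => (w ^ (α : ℂ)).re) v :=
          Complex.continuous_re.continuousAt.comp
            (ContinuousAt.cpow continuousAt_id continuousAt_const (slit hv))
        filter_upwards [hUo.mem_nhds hv, hc.eventually (lt_mem_nhds e3)] with w h2 h3
        exact he _ (hsub (hSm w h2)) h3
      refine ⟨e4.self_of_nhds, ?_⟩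
      have e5 : f =ᶠ[𝓝 v] f₀ lam c α := e4
      rw [e5.deriv_eq]
      exact (f₀_deriv D hv e3).deriv)
    (fun v hv hvx => by
      have hs := hSm v hv
      have hx := hpn v hvx
      have hx0 : 0 ≤ x₀ ^ α := by positivity
      have hq : 0 ≤ α * (C₁ / η) := by positivity
      constructor
      · rw [hlog v hv]
        have := hb₁ _ (sect_mono h₂ h2ρ.le hs) (by linarith)
        linarith
      · rw [hvd v hv, norm_mul, Complex.norm_real, Real.norm_eq_abs, abs_of_pos h0]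
        have := mul_le_mul_of_nonneg_left (hb₂ _ hs hx) h0.le
        linarith)
    (fun w hw => by
      refine (hlρ.comp (hpw w hw)).congr' ?_
      filter_upwards [hwy w hw] with y hy
      rw [hlog _ hy]
      rfl)
    (fun w hw => by
      have e1 := (hder.comp (hpw w hw)).const_mul (α : ℂ)
      rw [mul_zero] at e1
      refine e1.congr' ?_
      filter_upwards [hwy w hw] with y hy
      rw [hvd _ hy]
      rfl)
  simpa only [Complex.ofReal_mul] using main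

end Pool.Agent.TH942.SL
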