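import Mathlib

/-!
# Integrals along vertical lines
-/

set_option autoImplicit false

open MeasureTheory Filter Topology Set Complex

namespace Pool.Agent.TH942.SL

/-- the normalised integral along the line `Re z = c` -/
noncomputable def V (c : ℝ) (H : ℂ → ℂ) : ℂ := ((2 * Real.pi)⁻¹ : ℝ) * ∫ t : ℝ, H (c + t * I)

lemma decay_int {p : ℝ} (hp : 1 < p) : Integrable (fun y : ℝ => (1 + |y|) ^ (-p)) := by
  have := integrable_one_add_norm (E := ℝ) (μ := volume) (r := p) (by simpa using hp)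
  simpa using this

lemma line_cont {H : ℂ → ℂ} {a : ℝ} (hd : ∀ s : ℂ, s.re = a → ContinuousAt H s) :
    Continuous (fun y : ℝ => H (a + y * I)) := by
  rw [continuous_iff_continuousAt]
  intro y
  have h1 : ContinuousAt H ((a : ℂ) + y * I) := hd _ (by simp)
  exact ContinuousAt.comp (f := fun y : ℝ => (a : ℂ) + y * I) h1 (by fun_prop)

lemma line_int {H : ℂ → ℂ} {a B p : ℝ} (hp : 1 < p) (hd : ∀ s : ℂ, s.re = a → ContinuousAt H s)
    (hB : ∀ s : ℂ, s.re = a → ‖H s‖ ≤ B * (1 + |s.im|) ^ (-p)) :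
    Integrable (fun y : ℝ => H (a + y * I)) := by
  refine ((decay_int hp).const_mul B).mono' (line_cont hd).aestronglyMeasurable
    (Eventually.of_forall fun y => ?_)
  have := hB (a + y * I) (by simp)
  simpa using this

/-- shift of the line of integration -/
theorem shift {H : ℂ → ℂ} {a b B p : ℝ} (hp : 1 < p) (hab : a ≤ b)
    (hd : ∀ s : ℂ, a ≤ s.re → s.re ≤ b → DifferentiableAt ℂ H s)
    (hB : ∀ s : ℂ, a ≤ s.re → s.re ≤ b → ‖H s‖ ≤ B * (1 + |s.im|) ^ (-p)) : V a H = V b H := by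
  unfold V
  congr 1
  have ia : Integrable (fun y : ℝ => H (a + y * I)) :=
    line_int hp (fun s hs => (hd s hs.ge (hs.le.trans hab)).continuousAt)
      (fun s hs => hB s hs.ge (hs.le.trans hab))
  have ib : Integrable (fun y : ℝ => H (b + y * I)) :=
    line_int hp (fun s hs => (hd s (hab.trans hs.ge) hs.le).continuousAt)
      (fun s hs => hB s (hab.trans hs.ge) hs.le)
  -- rectangles
  have hrect : ∀ T : ℝ, 0 < T →
      (∫ x in a..b, H (x + (-T : ℝ) * I)) - (∫ x in a..b, H (x + (T : ℝ) * I)) +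
        I • (∫ y in (-T)..T, H (b + y * I)) - I • (∫ y in (-T)..T, H (a + y * I)) = 0 := by
    intro T hT
    have := Complex.integral_boundary_rect_eq_zero_of_differentiableOn H ⟨a, -T⟩ ⟨b, T⟩ ?_
    · simpa using this
    · intro s hs
      rw [Complex.mem_reProdIm] at hs
      simp only at hs
      rw [uIcc_of_le hab] at hs
      exact (hd s hs.1.1 hs.1.2).differentiableWithinAt
  have hhor : ∀ T : ℝ, ‖∫ x in a..b, H (x + (T : ℝ) * I)‖ ≤ B * (1 + |T|) ^ (-p) * |b - a| := by
    intro T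
    refine intervalIntegral.norm_integral_le_of_norm_le_const fun x hx => ?_
    rw [uIoc_of_le hab] at hx
    have := hB (x + (T : ℝ) * I) (by simpa using hx.1.le) (by simpa using hx.2)
    simpa using this
  have hlim0 : Tendsto (fun T : ℝ => B * (1 + |T|) ^ (-p) * |b - a|) atTop (𝓝 0) := by
    have h1 : Tendsto (fun T : ℝ => (1 + |T|)) atTop atTop :=
      tendsto_atTop_add_const_left _ _ tendsto_abs_atTop_atTop
    have h2 := (tendsto_rpow_neg_atTop (y := p) (by linarith)).comp h1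
    have h3 := (h2.const_mul B).mul_const |b - a|
    simpa using h3
  have hl1 : Tendsto (fun T : ℝ => ∫ x in a..b, H (x + (T : ℝ) * I)) atTop (𝓝 0) :=
    squeeze_zero_norm hhor hlim0
  have hl2 : Tendsto (fun T : ℝ => ∫ x in a..b, H (x + (-T : ℝ) * I)) atTop (𝓝 0) := by
    refine squeeze_zero_norm (a := fun T : ℝ => B * (1 + |T|) ^ (-p) * |b - a|) ?_ hlim0
    intro T
    have := hhor (-T)
    rw [abs_neg] at this
    exact this
  have hl3 := intervalIntegral_tendsto_integral ib tendsto_neg_atTop_atBot tendsto_id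
  have hl4 := intervalIntegral_tendsto_integral ia tendsto_neg_atTop_atBot tendsto_id
  have hfin := ((hl2.sub hl1).add (hl3.const_smul I)).sub (hl4.const_smul I)
  have hzero : Tendsto (fun _ : ℝ => (0:ℂ)) atTop (𝓝 0) := tendsto_const_nhds
  have huniq := tendsto_nhds_unique (hfin.congr' ?_) hzero
  · rw [sub_zero, zero_add, ← smul_sub, smul_eq_mul] at huniq
    have := (mul_eq_zero.mp huniq).resolve_left I_ne_zero
    exact (sub_eq_zero.mp this).symm
  · filter_upwards [eventually_gt_atTop 0] with T hT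
    simpa using hrect T hT

/-- the integral of a derivative -/
theorem V_deriv {F F' : ℂ → ℂ} {c : ℝ} (hd : ∀ s : ℂ, s.re = c → HasDerivAt F (F' s) s)
    (hi : Integrable (fun t : ℝ => F' (c + t * I)))
    (h0 : Tendsto (fun t : ℝ => F (c + t * I)) atTop (𝓝 0))
    (h1 : Tendsto (fun t : ℝ => F (c + t * I)) atBot (𝓝 0)) : V c F' = 0 := by
  have hl : ∀ t : ℝ, HasDerivAt (fun t : ℝ => F (c + t * I)) (I * F' (c + t * I)) t := by
    intro t
    have h2 : HasDerivAt (fun y : ℝ => (c : ℂ) + y * I) I t := by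
      have := ((hasDerivAt_id t).ofReal_comp.mul_const I).const_add (c : ℂ)
      simpa using this
    have h3 := (hd (c + t * I) (by simp)).comp t h2
    refine h3.congr_deriv ?_
    ring
  have h2 := integral_of_hasDerivAt_of_tendsto hl (hi.const_mul I) h1 h0
  rw [integral_const_mul, sub_zero] at h2
  unfold V
  rw [(mul_eq_zero.mp h2).resolve_left I_ne_zero, mul_zero]

/-- bound -/
theorem norm_V_le {H : ℂ → ℂ} {c : ℝ} {g : ℝ → ℝ} (hg : Integrable g)
    (h : ∀ t : ℝ, ‖H (c + t * I)‖ ≤ g t) : ‖V c H‖ ≤ (2 * Real.pi)⁻¹ * ∫ t, g t := by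
  unfold V
  rw [norm_mul, Complex.norm_real, Real.norm_eq_abs, abs_of_pos (by positivity)]
  refine mul_le_mul_of_nonneg_left ?_ (by positivity)
  exact norm_integral_le_of_norm_le hg (ae_of_all _ h)

/-- change of scale -/
theorem V_scale {H : ℂ → ℂ} {c y : ℝ} (hy : 0 < y) :
    V c H = V (c * y) (fun z => H (z / y) / y) := by
  unfold V
  congr 1
  have h1 := Measure.integral_comp_mul_left (fun t : ℝ => H ((c * y + t * I) / y) / y) y
  have hyc : (y : ℂ) ≠ 0 := by exact_mod_cast hy.ne'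
  have h2 : ∀ t : ℝ, H ((c * y + (y * t : ℝ) * I) / y) / y = H (c + t * I) / y := by
    intro t
    congr 2
    push_cast
    field_simp
  simp only [h2] at h1
  rw [integral_div, abs_of_pos (by positivity), Complex.real_smul] at h1
  have h3 : (∫ t : ℝ, H (c + t * I)) = ∫ t : ℝ, H ((c * y + t * I) / y) / y := by
    rw [div_eq_iff hyc] at h1
    rw [h1, mul_comm, ← mul_assoc, Complex.ofReal_inv, mul_inv_cancel₀ hyc, one_mul]
  rw [h3]
  push_cast
  rfl

/-- **Laplace inversion**: if `g y = V c (exp (z y) H z)` for all `y`, then `H` is the two-sided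
Laplace transform of `g` on the line `Re v = c`. -/
theorem inversion {H : ℂ → ℂ} {c : ℝ} (hc : Continuous fun t : ℝ => H (c + t * I))
    (hi : Integrable fun t : ℝ => H (c + t * I)) {g : ℝ → ℂ}
    (hg : ∀ y : ℝ, g y = V c (fun z => exp (z * y) * H z))
    (hgi : Integrable fun y : ℝ => exp (-(c * y)) * g y) (s : ℝ) :
    ∫ y : ℝ, exp (-((c + s * I) * y)) * g y = H (c + s * I) := by
  set h : ℝ → ℂ := fun t => H (c + t * I) with hh
  have hpi := Real.pi_pos
  have h2pi : (0 : ℝ) < 2 * Real.pi := by positivity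
  -- the Fourier transform
  have hF : ∀ ξ : ℝ, FourierTransform.fourier h ξ =
      ((2 * Real.pi : ℝ) : ℂ) * (exp (-(c * ((-(2 * Real.pi) * ξ : ℝ) : ℂ))) *
        g (-(2 * Real.pi) * ξ)) := by
    intro ξ
    rw [Real.fourier_eq', hg]
    unfold V
    have e1 : ∀ t : ℝ, exp ((c + t * I) * ((-(2 * Real.pi) * ξ : ℝ) : ℂ)) * H (c + t * I) =
        exp (c * ((-(2 * Real.pi) * ξ : ℝ) : ℂ)) * (exp ((-2 * Real.pi * inner ℝ t ξ : ℝ) * I) •
          h t) := by
      intro t
      rw [smul_eq_mul, ← mul_assoc, ← Complex.exp_add]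
      congr 2
      simp only [RCLike.inner_apply, conj_trivial]
      push_cast
      ring
    simp only [e1]
    rw [integral_const_mul]
    have e2 : exp (-(c * ((-(2 * Real.pi) * ξ : ℝ) : ℂ))) *
        exp (c * ((-(2 * Real.pi) * ξ : ℝ) : ℂ)) = 1 := by
      rw [← Complex.exp_add]
      simp
    have e3 : ((2 * Real.pi : ℝ) : ℂ) * (((2 * Real.pi)⁻¹ : ℝ) : ℂ) = 1 := by
      rw [← Complex.ofReal_mul, mul_inv_cancel₀ h2pi.ne', Complex.ofReal_one]
    calc _ = (((2 * Real.pi : ℝ) : ℂ) * (((2 * Real.pi)⁻¹ : ℝ) : ℂ)) *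
          (exp (-(c * ((-(2 * Real.pi) * ξ : ℝ) : ℂ))) *
            exp (c * ((-(2 * Real.pi) * ξ : ℝ) : ℂ))) *
          ∫ t : ℝ, exp ((-2 * Real.pi * inner ℝ t ξ : ℝ) * I) • h t := by
          rw [e2, e3, one_mul, one_mul]
      _ = _ := by ring
  have hFi : Integrable (FourierTransform.fourier h) := by
    have h1 : Integrable (fun ξ : ℝ => exp (-(c * ((-(2 * Real.pi) * ξ : ℝ) : ℂ))) *
        g (-(2 * Real.pi) * ξ)) :=
      hgi.comp_mul_left' (R := -(2 * Real.pi)) (by linarith)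
    refine (h1.const_mul ((2 * Real.pi : ℝ) : ℂ)).congr (ae_of_all _ fun ξ => (hF ξ).symm)
  have h1 := hi.fourierInv_fourier_eq hFi (v := s) hc.continuousAt
  rw [Real.fourierInv_eq'] at h1
  simp only [hF] at h1
  have h2 := Measure.integral_comp_mul_left (fun y : ℝ => exp (-((c + s * I) * y)) * g y)
    (-(2 * Real.pi))
  have e1 : ∀ ξ : ℝ, exp ((2 * Real.pi * inner ℝ ξ s : ℝ) * I) •
      (((2 * Real.pi : ℝ) : ℂ) * (exp (-(c * ((-(2 * Real.pi) * ξ : ℝ) : ℂ))) *
        g (-(2 * Real.pi) * ξ))) = ((2 * Real.pi : ℝ) : ℂ) *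
      (exp (-((c + s * I) * ((-(2 * Real.pi) * ξ : ℝ) : ℂ))) * g (-(2 * Real.pi) * ξ)) := by
    intro ξ
    rw [smul_eq_mul]
    have e2 : exp (-((c + s * I) * ((-(2 * Real.pi) * ξ : ℝ) : ℂ))) =
        exp ((2 * Real.pi * inner ℝ ξ s : ℝ) * I) * exp (-(c * ((-(2 * Real.pi) * ξ : ℝ) : ℂ))) := by
      rw [← Complex.exp_add]
      congr 1
      simp only [RCLike.inner_apply, conj_trivial]
      push_cast
      ring
    rw [e2]
    ring
  simp only [e1] at h1
  rw [integral_const_mul, h2, abs_of_neg (inv_neg''.2 (by linarith)), Complex.real_smul] at h1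
  change _ = h s
  rw [← h1]
  push_cast
  have hpc : (Real.pi : ℂ) ≠ 0 := by exact_mod_cast hpi.ne'
  field_simp

/-- the constant `V 1 (exp z / z²) = 1` -/
theorem V_one : V 1 (fun z => exp z / z ^ 2) = 1 := by
  set f : ℝ → ℂ := fun x => ((max x 0 * Real.exp (-x) : ℝ) : ℂ) with hf
  have hfc : Continuous f := by rw [hf]; fun_prop
  have hfi0 : IntegrableOn f (Ioi 0) := by
    have h1 : IntegrableOn (fun x : ℝ => 2 * Real.exp (-(1 / 2) * x)) (Ioi 0) :=
      (integrableOn_exp_mul_Ioi (a := -(1 / 2)) (by norm_num) 0).const_mul 2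
    refine Integrable.mono' h1 hfc.aestronglyMeasurable ?_
    filter_upwards [ae_restrict_mem measurableSet_Ioi] with x hx
    have hx0 : (0 : ℝ) < x := hx
    rw [hf]
    simp only
    rw [Complex.norm_real, Real.norm_eq_abs, max_eq_left hx0.le, abs_of_pos (by positivity)]
    have e1 : Real.exp (-x) = Real.exp (-(1 / 2) * x) * Real.exp (-(1 / 2) * x) := by
      rw [← Real.exp_add]; congr 1; ring
    have e2 : x * Real.exp (-(1 / 2) * x) ≤ 2 := by
      have := Real.add_one_le_exp (1 / 2 * x)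
      have e3 : Real.exp (1 / 2 * x) * Real.exp (-(1 / 2) * x) = 1 := by
        rw [← Real.exp_add]; simp
      have := Real.exp_pos (-(1 / 2) * x)
      nlinarith
    rw [e1, ← mul_assoc]
    exact mul_le_mul_of_nonneg_right e2 (Real.exp_pos _).le
  have hf0 : ∀ x ∈ Iic (0 : ℝ), f x = 0 := fun x hx => by
    rw [hf]
    simp only
    rw [max_eq_right hx]
    simp
  have hfi : Integrable f := by
    rw [← integrableOn_univ, ← Iic_union_Ioi (a := (0 : ℝ))]
    refine IntegrableOn.union ?_ hfi0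
    exact (integrableOn_zero).congr_fun (fun x hx => (hf0 x hx).symm) measurableSet_Iic
  -- the transform
  have hF : ∀ ξ : ℝ, FourierTransform.fourier f ξ = (((1 : ℝ) : ℂ) + ((2 * Real.pi * ξ : ℝ) : ℂ) * I)⁻¹ ^ 2 := by
    intro ξ
    rw [Real.fourier_eq']
    set r : ℂ := ((1 : ℝ) : ℂ) + ((2 * Real.pi * ξ : ℝ) : ℂ) * I with hr
    have hr0 : 0 < r.re := by rw [hr]; simp
    have hr1 : r.re = 1 := by rw [hr]; simp
    have hrn : r ≠ 0 := fun h => by rw [h] at hr1; simp at hr1
    have h1 : ∫ v in Ioi (0 : ℝ), (v : ℂ) * exp (-(r * v)) = r⁻¹ ^ 2 := by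
      have hd : ∀ x ∈ Ici (0 : ℝ), HasDerivAt (fun x : ℝ => -(((x : ℂ) / r + 1 / r ^ 2) *
          exp (-(r * x)))) ((x : ℂ) * exp (-(r * x))) x := by
        intro x _
        have e0 : HasDerivAt (fun x : ℝ => (x : ℂ)) 1 x := (hasDerivAt_id x).ofReal_comp
        have e1 : HasDerivAt (fun x : ℝ => (x : ℂ) / r + 1 / r ^ 2) (1 / r) x :=
          (e0.div_const r).add_const _
        have e2 : HasDerivAt (fun x : ℝ => exp (-(r * x))) (exp (-(r * x)) * (-(r * 1))) x :=
          ((e0.const_mul r).fun_neg).cexp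
        refine (e1.fun_mul e2).fun_neg.congr_deriv ?_
        field_simp
        ring
      have hi : IntegrableOn (fun x : ℝ => (x : ℂ) * exp (-(r * x))) (Ioi 0) := by
        refine Integrable.mono' hfi0.norm (Continuous.aestronglyMeasurable (by fun_prop)) ?_
        filter_upwards [ae_restrict_mem measurableSet_Ioi] with x hx
        have hx0 : (0 : ℝ) < x := hx
        rw [hf]
        simp only
        rw [norm_mul, Complex.norm_exp, Complex.norm_real, Complex.norm_real, Real.norm_eq_abs,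
          Real.norm_eq_abs, max_eq_left hx0.le, abs_mul, abs_of_pos hx0, Real.abs_exp]
        have e1 : (-(r * (x : ℂ))).re = -x := by
          rw [Complex.neg_re, Complex.re_mul_ofReal, hr1, one_mul]
        rw [e1]
      have hl : Tendsto (fun x : ℝ => -(((x : ℂ) / r + 1 / r ^ 2) * exp (-(r * x)))) atTop
          (𝓝 0) := by
        have e1 : Tendsto (fun x : ℝ => ‖r‖⁻¹ * (x ^ 1 * Real.exp (-x)) +
            (‖r‖ ^ 2)⁻¹ * (x ^ 0 * Real.exp (-x))) atTop (𝓝 (‖r‖⁻¹ * 0 + (‖r‖ ^ 2)⁻¹ * 0)) :=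
          ((Real.tendsto_pow_mul_exp_neg_atTop_nhds_zero 1).const_mul _).add
            ((Real.tendsto_pow_mul_exp_neg_atTop_nhds_zero 0).const_mul _)
        rw [mul_zero, mul_zero, add_zero] at e1
        refine squeeze_zero_norm' ?_ e1
        filter_upwards [eventually_ge_atTop 0] with x hx
        rw [norm_neg, norm_mul, Complex.norm_exp]
        have e2 : (-(r * (x : ℂ))).re = -x := by
          rw [Complex.neg_re, Complex.re_mul_ofReal, hr1, one_mul]
        rw [e2]
        have e3 : ‖(x : ℂ) / r + 1 / r ^ 2‖ ≤ ‖r‖⁻¹ * x + (‖r‖ ^ 2)⁻¹ := by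
          refine (norm_add_le _ _).trans (le_of_eq ?_)
          rw [norm_div, norm_div, norm_pow, norm_one, Complex.norm_real, Real.norm_eq_abs,
            abs_of_nonneg hx]
          ring
        calc _ ≤ (‖r‖⁻¹ * x + (‖r‖ ^ 2)⁻¹) * Real.exp (-x) := by gcongr
          _ = _ := by ring
      have := integral_Ioi_of_hasDerivAt_of_tendsto' hd hi hl
      rw [this]
      simp
    have h2 : ∫ v : ℝ, exp ((-2 * Real.pi * inner ℝ v ξ : ℝ) * I) • f v =
        ∫ v in Ioi (0 : ℝ), exp ((-2 * Real.pi * inner ℝ v ξ : ℝ) * I) • f v := by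
      symm
      refine setIntegral_eq_integral_of_forall_compl_eq_zero fun x hx => ?_
      rw [hf0 x (by simpa using hx), smul_zero]
    rw [h2, ← h1]
    refine setIntegral_congr_fun measurableSet_Ioi fun v hv => ?_
    have hv0 : (0 : ℝ) < v := hv
    rw [hf]
    simp only
    rw [max_eq_left hv0.le, smul_eq_mul]
    push_cast
    rw [mul_comm (exp _), mul_assoc, ← Complex.exp_add]
    congr 2
    simp only [RCLike.inner_apply, conj_trivial, hr]
    push_cast
    ring
  have hline : ∀ t : ℝ, 1 + t ^ 2 = ‖((1 : ℝ) : ℂ) + (t : ℂ) * I‖ ^ 2 := by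
    intro t
    rw [← Complex.normSq_eq_norm_sq, Complex.normSq_apply]
    simp
    ring
  have hinv : Integrable (fun t : ℝ => (((1 : ℝ) : ℂ) + (t : ℂ) * I)⁻¹ ^ 2) := by
    refine integrable_inv_one_add_sq.mono' ?_ (ae_of_all _ fun t => ?_)
    · refine Continuous.aestronglyMeasurable ?_
      refine Continuous.pow (Continuous.inv₀ (by fun_prop) fun t h => ?_) 2
      have := congrArg Complex.re h
      simp at this
    · rw [norm_pow, norm_inv, inv_pow, ← hline]
  have hFi : Integrable (FourierTransform.fourier f) := by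
    have h1 := hinv.comp_mul_left' (R := 2 * Real.pi) (by positivity)
    refine h1.congr (ae_of_all _ fun ξ => ?_)
    rw [hF]
  have h1 := hfi.fourierInv_fourier_eq hFi (v := 1) hfc.continuousAt
  rw [Real.fourierInv_eq'] at h1
  simp only [hF] at h1
  have h2 := Measure.integral_comp_mul_left (fun t : ℝ => exp ((t : ℂ) * I) *
    (((1 : ℝ) : ℂ) + (t : ℂ) * I)⁻¹ ^ 2) (2 * Real.pi)
  have e1 : ∀ ξ : ℝ, exp ((2 * Real.pi * inner ℝ ξ (1 : ℝ) : ℝ) * I) •
      (((1 : ℝ) : ℂ) + ((2 * Real.pi * ξ : ℝ) : ℂ) * I)⁻¹ ^ 2 =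
      exp (((2 * Real.pi * ξ : ℝ) : ℂ) * I) * (((1 : ℝ) : ℂ) + ((2 * Real.pi * ξ : ℝ) : ℂ) * I)⁻¹ ^ 2 := by
    intro ξ
    rw [smul_eq_mul]
    congr 3
    rw [RCLike.inner_apply]
    simp
  simp only [e1] at h1
  rw [h2, abs_of_pos (by positivity), Complex.real_smul] at h1
  have hf1 : f 1 = exp (-1) := by
    rw [hf]
    simp
  rw [hf1] at h1
  unfold V
  have e2 : ∀ t : ℝ, exp ((1 : ℝ) + (t : ℂ) * I) / (((1 : ℝ) : ℂ) + (t : ℂ) * I) ^ 2 =
      exp 1 * (exp ((t : ℂ) * I) * (((1 : ℝ) : ℂ) + (t : ℂ) * I)⁻¹ ^ 2) := by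
    intro t
    rw [Complex.exp_add, inv_pow]
    push_cast
    ring
  simp only [e2]
  rw [integral_const_mul, mul_left_comm, h1, ← Complex.exp_add]
  simp

end Pool.Agent.TH942.SL
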