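import Mathlib

/-!
# The power `v^α` on the right half plane, `0 < α < 1`
-/

set_option autoImplicit false

open Filter Topology Set Complex

namespace Pool.Agent.TH942.SL

/-- the constant `cos (π α / 2)` -/
noncomputable def kap (α : ℝ) : ℝ := Real.cos (Real.pi * α / 2)

variable {α : ℝ}

lemma kap_pos (h0 : 0 < α) (h1 : α < 1) : 0 < kap α := by
  have hpi := Real.pi_pos
  apply Real.cos_pos_of_mem_Ioo
  constructor <;> nlinarith

lemma kap_le_one (α : ℝ) : kap α ≤ 1 := Real.cos_le_one _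

lemma arg_abs {v : ℂ} (hv : 0 < v.re) : |arg v| < Real.pi / 2 :=
  abs_arg_lt_pi_div_two_iff.2 (Or.inl hv)

lemma slit {v : ℂ} (hv : 0 < v.re) : v ∈ slitPlane := Or.inl hv

lemma norm_pos' {v : ℂ} (hv : 0 < v.re) : 0 < ‖v‖ := hv.trans_le (re_le_norm v)

lemma ne_zero' {v : ℂ} (hv : 0 < v.re) : v ≠ 0 := norm_pos_iff.1 (norm_pos' hv)

lemma norm_pow' (v : ℂ) (α : ℝ) : ‖v ^ (α : ℂ)‖ = ‖v‖ ^ α := Complex.norm_cpow_real v α

lemma re_pow (v : ℂ) (α : ℝ) : (v ^ (α : ℂ)).re = ‖v‖ ^ α * Real.cos (arg v * α) :=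
  Complex.cpow_ofReal_re v α

lemma re_pow_ge (h0 : 0 < α) (h1 : α < 1) {v : ℂ} (hv : 0 < v.re) :
    kap α * ‖v‖ ^ α ≤ (v ^ (α : ℂ)).re := by
  rw [re_pow, mul_comm]
  refine mul_le_mul_of_nonneg_left ?_ (by positivity)
  have h2 := arg_abs hv
  have hpi := Real.pi_pos
  rw [← Real.cos_abs (arg v * α)]
  unfold kap
  refine Real.cos_le_cos_of_nonneg_of_le_pi (abs_nonneg _) (by nlinarith) ?_
  rw [abs_mul, abs_of_pos h0]
  nlinarith

lemma re_pow_pos (h0 : 0 < α) (h1 : α < 1) {v : ℂ} (hv : 0 < v.re) : 0 < (v ^ (α : ℂ)).re :=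
  (mul_pos (kap_pos h0 h1) (Real.rpow_pos_of_pos (norm_pos' hv) _)).trans_le (re_pow_ge h0 h1 hv)

lemma norm_pow_le (h0 : 0 < α) (h1 : α < 1) {v : ℂ} (hv : 0 < v.re) :
    ‖v ^ (α : ℂ)‖ ≤ (kap α)⁻¹ * (v ^ (α : ℂ)).re := by
  rw [norm_pow', inv_mul_eq_div, le_div_iff₀ (kap_pos h0 h1), mul_comm]
  exact re_pow_ge h0 h1 hv

lemma pow_deriv {v : ℂ} (hv : v ∈ slitPlane) :
    HasDerivAt (fun v : ℂ => v ^ (α : ℂ)) (α * v ^ ((α : ℂ) - 1)) v := by
  have := (hasDerivAt_id v).cpow_const (c := (α : ℂ)) hv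
  simpa using this

lemma norm_pow_sub (v : ℂ) (α : ℝ) : ‖v ^ ((α : ℂ) - 1)‖ = ‖v‖ ^ (α - 1) := by
  have : ((α : ℂ) - 1) = ((α - 1 : ℝ) : ℂ) := by push_cast; rfl
  rw [this, Complex.norm_cpow_real]

lemma norm_pow_deriv (h0 : 0 < α) (v : ℂ) : ‖(α : ℂ) * v ^ ((α : ℂ) - 1)‖ = α * ‖v‖ ^ (α - 1) := by
  rw [norm_mul, norm_pow_sub, Complex.norm_real, Real.norm_eq_abs, abs_of_pos h0]

/-- scaling -/
lemma pow_div {v : ℂ} (hv : v ≠ 0) {y : ℝ} (hy : 0 < y) :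
    (v / y) ^ (α : ℂ) = v ^ (α : ℂ) * ((y ^ (-α) : ℝ) : ℂ) := by
  have hyc : (y : ℂ) ≠ 0 := by exact_mod_cast hy.ne'
  have h1 : v / y ≠ 0 := div_ne_zero hv hyc
  rw [Complex.cpow_def_of_ne_zero h1, Complex.cpow_def_of_ne_zero hv]
  have h2 : v / y = ((y⁻¹ : ℝ) : ℂ) * v := by
    push_cast
    field_simp
  rw [h2, Complex.log_ofReal_mul (by positivity) hv, Real.log_inv, add_mul, Complex.exp_add,
    mul_comm (exp _)]
  congr 1
  rw [Real.rpow_def_of_pos hy]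
  push_cast
  congr 1
  ring

lemma log_pow (h0 : 0 < α) (h1 : α < 1) {v : ℂ} (hv : 0 < v.re) :
    log (v ^ (α : ℂ)) = α * log v := by
  rw [Complex.cpow_def_of_ne_zero (ne_zero' hv)]
  have h2 := arg_abs hv
  have hpi := Real.pi_pos
  have h3 : (log v * (α : ℂ)).im = arg v * α := by
    rw [mul_comm, Complex.im_ofReal_mul, Complex.log_im, mul_comm]
  have h4 : |arg v * α| < Real.pi := by
    rw [abs_mul, abs_of_pos h0]
    nlinarith
  rw [Complex.log_exp (by rw [h3]; linarith [(abs_lt.1 h4).1]) (by rw [h3]; exact (abs_lt.1 h4).2.le)]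
  ring

/-- the power maps the half plane onto the sector -/
lemma exists_root {ρ : ℝ} (hρ : 1 < ρ) {s : ℂ} (hs0 : s ≠ 0) (hs : |arg s| < Real.pi / (2 * ρ)) :
    0 < (s ^ (ρ : ℂ)).re ∧ (s ^ (ρ : ℂ)) ^ ((ρ⁻¹ : ℝ) : ℂ) = s := by
  have hρ0 : 0 < ρ := by linarith
  have hpi := Real.pi_pos
  have h1 : |arg s * ρ| < Real.pi / 2 := by
    rw [abs_mul, abs_of_pos hρ0]
    calc |arg s| * ρ < Real.pi / (2 * ρ) * ρ := mul_lt_mul_of_pos_right hs hρ0
      _ = Real.pi / 2 := by field_simp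
  have h1' := abs_lt.1 h1
  constructor
  · rw [re_pow]
    refine mul_pos (Real.rpow_pos_of_pos (norm_pos_iff.2 hs0) _) ?_
    exact Real.cos_pos_of_mem_Ioo ⟨by linarith [h1'.1], h1'.2⟩
  · rw [Complex.cpow_def_of_ne_zero hs0 (ρ : ℂ), Complex.cpow_def_of_ne_zero (Complex.exp_ne_zero _)]
    have h3 : (log s * (ρ : ℂ)).im = arg s * ρ := by
      rw [mul_comm, Complex.im_ofReal_mul, Complex.log_im, mul_comm]
    rw [Complex.log_exp (by rw [h3]; linarith [h1'.1]) (by rw [h3]; linarith [h1'.2])]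
    have h4 : log s * (ρ : ℂ) * ((ρ⁻¹ : ℝ) : ℂ) = log s := by
      have : (ρ : ℂ) ≠ 0 := by exact_mod_cast hρ0.ne'
      push_cast
      field_simp
    rw [h4, Complex.exp_log hs0]

/-- and only the sector -/
lemma arg_pow (h0 : 0 < α) (h1 : α < 1) {v : ℂ} (hv : 0 < v.re) :
    |arg (v ^ (α : ℂ))| < Real.pi * α / 2 := by
  have h2 := arg_abs hv
  have hpi := Real.pi_pos
  have h3 : arg (v ^ (α : ℂ)) = α * arg v := by
    have := congrArg Complex.im (log_pow h0 h1 hv)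
    rwa [Complex.log_im, Complex.im_ofReal_mul, Complex.log_im] at this
  rw [h3, abs_mul, abs_of_pos h0]
  nlinarith

/-- decay of the stretched exponential -/
lemma stretched (h0 : 0 < α) {a : ℝ} (ha : 0 < a) :
    ∃ C : ℝ, 0 < C ∧ ∀ r : ℝ, 0 ≤ r → Real.exp (-(a * r ^ α)) ≤ C * (1 + r) ^ (-(2 : ℝ)) := by
  obtain ⟨n, hn⟩ := exists_nat_ge (2 / α)
  have hn2 : 2 ≤ n * α := by rwa [div_le_iff₀ h0] at hn
  set C₁ : ℝ := (n.factorial : ℝ) / a ^ n with hC₁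
  have hC10 : 0 < C₁ := by positivity
  refine ⟨4 * (C₁ + 1), by positivity, fun r hr => ?_⟩
  have e0 : (1 + r) ^ (-(2 : ℝ)) = ((1 + r) ^ 2)⁻¹ := by
    rw [Real.rpow_neg (by positivity)]
    norm_num
  rw [e0, ← div_eq_mul_inv, le_div_iff₀ (by positivity)]
  rcases le_or_gt r 1 with h | h
  · have e1 : Real.exp (-(a * r ^ α)) ≤ 1 := Real.exp_le_one_iff.2 (by
      have : 0 ≤ a * r ^ α := by positivity
      linarith)
    have e2 : (1 + r) ^ 2 ≤ 4 := by nlinarith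
    calc _ ≤ 1 * (4 : ℝ) := mul_le_mul e1 e2 (by positivity) zero_le_one
      _ ≤ _ := by nlinarith
  · have hr0 : 0 < r := by linarith
    have hx : 0 ≤ a * r ^ α := by positivity
    have e1 := Real.pow_div_factorial_le_exp (a * r ^ α) hx n
    have e2 : r ^ 2 ≤ (r ^ α) ^ n := by
      rw [← Real.rpow_natCast (r ^ α), ← Real.rpow_mul hr0.le, ← Real.rpow_natCast r 2]
      apply Real.rpow_le_rpow_of_exponent_le h.le
      push_cast
      linarith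
    have e3 : r ^ 2 / C₁ ≤ Real.exp (a * r ^ α) := by
      refine le_trans ?_ e1
      rw [hC₁, mul_pow]
      have : 0 < (n.factorial : ℝ) := by positivity
      rw [div_div_eq_mul_div, div_le_div_iff_of_pos_right this, mul_comm]
      gcongr
    rw [Real.exp_neg, inv_mul_le_iff₀ (Real.exp_pos _)]
    rw [div_le_iff₀ hC10] at e3
    have e4 : (1 + r) ^ 2 ≤ 4 * r ^ 2 := by nlinarith
    have e5 : 0 < Real.exp (a * r ^ α) := Real.exp_pos _
    nlinarith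

end Pool.Agent.TH942.SL
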