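import Pool.Agent.TH942.SL.Line
import Pool.Agent.TH942.SL.Pow
import Pool.Agent.TH942.LS.Rem

/-!
# The Mittag-Leffler weights and the means
-/

set_option autoImplicit false

open MeasureTheory Filter Topology Set Complex
open Pool.Agent.TH942.LS (Dat P P_le)

namespace Pool.Agent.TH942.SL

variable {α : ℝ}

/-- the integrand of the weight -/
noncomputable def hu (α u : ℝ) (z : ℂ) : ℂ := exp (z - u * z ^ (α : ℂ)) / z

/-- the complex form of the weight -/
noncomputable def wc (α u : ℝ) : ℂ := V 1 (hu α u)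

/-- the weight `w(u) = (2π)⁻¹ ∫ Re (exp (z - u z^α) / z) dt`, `z = 1 + it` -/
noncomputable def wml (α u : ℝ) : ℝ :=
  (2 * Real.pi)⁻¹ * ∫ t : ℝ, (exp ((1 + t * I) - u * (1 + t * I) ^ (α : ℂ)) / (1 + t * I)).re

lemma hu_diff (u : ℝ) {z : ℂ} (hz : 0 < z.re) : DifferentiableAt ℂ (hu α u) z := by
  unfold hu
  refine DifferentiableAt.div ?_ differentiableAt_id (ne_zero' hz)
  exact (differentiableAt_id.sub ((pow_deriv (slit hz)).differentiableAt.const_mul _)).cexp

lemma norm_hu_le (h0 : 0 < α) (h1 : α < 1) {u : ℝ} (hu0 : 0 ≤ u) {z : ℂ} (hz : 0 < z.re) :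
    ‖hu α u z‖ ≤ Real.exp z.re * Real.exp (-(u * kap α * ‖z‖ ^ α)) / ‖z‖ := by
  unfold hu
  rw [norm_div, Complex.norm_exp, ← Real.exp_add]
  refine div_le_div_of_nonneg_right (Real.exp_le_exp.2 ?_) (norm_nonneg _)
  rw [Complex.sub_re, Complex.re_ofReal_mul]
  have := mul_le_mul_of_nonneg_left (re_pow_ge h0 h1 hz) hu0
  linarith

lemma hu_bound (h0 : 0 < α) (h1 : α < 1) {u : ℝ} (hu0 : 0 < u) {a b : ℝ} (ha : 0 < a) :
    ∃ B : ℝ, ∀ z : ℂ, a ≤ z.re → z.re ≤ b → ‖hu α u z‖ ≤ B * (1 + |z.im|) ^ (-(2 : ℝ)) := by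
  have hk := kap_pos h0 h1
  obtain ⟨C, hC, hC'⟩ := stretched h0 (a := u * kap α) (by positivity)
  refine ⟨Real.exp b / a * C, fun z hz1 hz2 => ?_⟩
  have hz : 0 < z.re := ha.trans_le hz1
  have hn : a ≤ ‖z‖ := hz1.trans (re_le_norm z)
  have hn0 : 0 < ‖z‖ := ha.trans_le hn
  have h2 : |z.im| ^ α ≤ ‖z‖ ^ α := Real.rpow_le_rpow (abs_nonneg _) (abs_im_le_norm z) h0.le
  have h3 : Real.exp (-(u * kap α * ‖z‖ ^ α)) ≤ Real.exp (-(u * kap α * |z.im| ^ α)) := by
    apply Real.exp_le_exp.2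
    have := mul_le_mul_of_nonneg_left h2 (by positivity : 0 ≤ u * kap α)
    linarith
  have h4 := hC' |z.im| (abs_nonneg _)
  calc ‖hu α u z‖ ≤ Real.exp z.re * Real.exp (-(u * kap α * ‖z‖ ^ α)) / ‖z‖ :=
        norm_hu_le h0 h1 hu0.le hz
    _ ≤ Real.exp b * (C * (1 + |z.im|) ^ (-(2 : ℝ))) / a := by
      refine div_le_div₀ (by positivity) ?_ ha hn
      exact mul_le_mul (Real.exp_le_exp.2 hz2) (h3.trans h4) (Real.exp_pos _).le (Real.exp_pos _).le
    _ = _ := by ring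

theorem V_hu_indep (h0 : 0 < α) (h1 : α < 1) {u : ℝ} (hu0 : 0 < u) {a b : ℝ} (ha : 0 < a)
    (hb : 0 < b) : V a (hu α u) = V b (hu α u) := by
  wlog hab : a ≤ b generalizing a b with H
  · exact (H hb ha (le_of_not_ge hab)).symm
  obtain ⟨B, hB⟩ := hu_bound h0 h1 hu0 ha (b := b)
  exact shift (by norm_num) hab (fun s hs _ => hu_diff u (ha.trans_le hs)) hB

/-- **scaling** -/
theorem V_scaled (h0 : 0 < α) (h1 : α < 1) {l y x : ℝ} (hl : 0 < l) (hy : 0 < y) (hx : 0 < x) :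
    V x (fun z => exp (z * y - l * z ^ (α : ℂ)) / z) = wc α (l * y ^ (-α)) := by
  have hyc : (y : ℂ) ≠ 0 := by exact_mod_cast hy.ne'
  rw [V_scale hy]
  have h2 : V (x * y) (fun z : ℂ => exp (z / y * y - l * (z / y) ^ (α : ℂ)) / (z / y) / y) =
      V (x * y) (hu α (l * y ^ (-α))) := by
    unfold V
    congr 2
    funext t
    have hz : 0 < (((x * y : ℝ) : ℂ) + t * I).re := by simp; positivity
    have hz0 := ne_zero' hz
    unfold hu
    simp only
    rw [pow_div hz0 hy]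
    have e1 : (((x * y : ℝ) : ℂ) + t * I) / y * y = ((x * y : ℝ) : ℂ) + t * I := by
      field_simp
    rw [e1]
    have e2 : (l : ℂ) * ((((x * y : ℝ) : ℂ) + t * I) ^ (α : ℂ) * ((y ^ (-α) : ℝ) : ℂ)) =
        ((l * y ^ (-α) : ℝ) : ℂ) * (((x * y : ℝ) : ℂ) + t * I) ^ (α : ℂ) := by
      push_cast
      ring
    rw [e2]
    field_simp
  rw [h2]
  exact V_hu_indep h0 h1 (by positivity) (by positivity) one_pos

lemma hu_conj (u : ℝ) {z : ℂ} (hz : 0 < z.re) :
    hu α u ((starRingEnd ℂ) z) = (starRingEnd ℂ) (hu α u z) := by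
  unfold hu
  have h1 : arg z ≠ Real.pi := by
    have := (abs_lt.1 (arg_abs hz)).2
    have hpi := Real.pi_pos
    intro h
    rw [h] at this
    linarith
  have h2 : (starRingEnd ℂ) z ^ (α : ℂ) = (starRingEnd ℂ) (z ^ (α : ℂ)) := by
    rw [Complex.conj_cpow z _ h1, Complex.conj_ofReal]
  rw [h2, map_div₀, ← Complex.exp_conj, map_sub, map_mul, Complex.conj_ofReal]

theorem wc_eq (h0 : 0 < α) (h1 : α < 1) {u : ℝ} (hu0 : 0 < u) : wc α u = (wml α u : ℂ) := by
  obtain ⟨B, hB⟩ := hu_bound h0 h1 hu0 one_pos (b := 1)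
  have hi : Integrable (fun t : ℝ => hu α u (((1 : ℝ) : ℂ) + t * I)) :=
    line_int (p := 2) (by norm_num) (fun s hs => (hu_diff u (by rw [hs]; norm_num)).continuousAt)
      (fun s hs => hB s hs.ge hs.le)
  have h2 : (starRingEnd ℂ) (∫ t : ℝ, hu α u (((1 : ℝ) : ℂ) + t * I)) =
      ∫ t : ℝ, hu α u (((1 : ℝ) : ℂ) + t * I) := by
    rw [← integral_conj]
    have e1 : ∀ t : ℝ, (starRingEnd ℂ) (hu α u (((1 : ℝ) : ℂ) + t * I)) =
        hu α u (((1 : ℝ) : ℂ) + ((-t : ℝ) : ℂ) * I) := by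
      intro t
      rw [← hu_conj u (by simp)]
      congr 1
      rw [map_add, map_mul, Complex.conj_ofReal, Complex.conj_ofReal, Complex.conj_I]
      push_cast
      ring
    simp only [e1]
    exact integral_neg_eq_self (fun t : ℝ => hu α u (((1 : ℝ) : ℂ) + t * I)) volume
  have h3 := Complex.conj_eq_iff_re.1 h2
  unfold wc V wml
  rw [← h3]
  have h4 : (∫ t : ℝ, hu α u (((1 : ℝ) : ℂ) + t * I)).re =
      ∫ t : ℝ, (hu α u (((1 : ℝ) : ℂ) + t * I)).re := by
    have := integral_re hi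
    simpa using this.symm
  rw [h4]
  push_cast
  rfl

/-- the Dirichlet series -/
noncomputable def DD (lam c : ℕ → ℝ) (s : ℂ) : ℂ := ∑' n, (c n : ℂ) * exp (-(s * lam n))

/-- the mean -/
noncomputable def M (lam c : ℕ → ℝ) (α y : ℝ) : ℝ := ∑' n, c n * wml α (lam n * y ^ (-α))

variable {lam c : ℕ → ℝ} {δ σ : ℝ}

lemma dd_term (s : ℂ) (n : ℕ) : ‖(c n : ℂ) * exp (-(s * lam n))‖ =
    |c n| * Real.exp (-(s.re * lam n)) := by
  rw [norm_mul, Complex.norm_real, Real.norm_eq_abs, Complex.norm_exp, Complex.neg_re,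
    Complex.re_mul_ofReal]

lemma exp_split (D : Dat lam c δ σ) {r : ℝ} (hr : σ ≤ r) (n : ℕ) :
    Real.exp (-(r * lam n)) ≤ Real.exp (-(σ * lam n)) * Real.exp (-(δ * (r - σ))) := by
  rw [← Real.exp_add]
  apply Real.exp_le_exp.2
  have := mul_le_mul_of_nonneg_left (D.lam_ge n) (sub_nonneg.2 hr)
  nlinarith

lemma dd_le (D : Dat lam c δ σ) {s : ℂ} (hs : σ ≤ s.re) :
    ‖DD lam c s‖ ≤ (∑' n, |c n| * Real.exp (-(σ * lam n))) * Real.exp (-(δ * (s.re - σ))) := by
  unfold DD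
  refine tsum_of_norm_bounded (D.sum.hasSum.mul_right _) fun n => ?_
  rw [dd_term, mul_assoc]
  exact mul_le_mul_of_nonneg_left (exp_split D hs n) (abs_nonneg _)

lemma dd_summable (D : Dat lam c δ σ) {s : ℂ} (hs : σ ≤ s.re) :
    Summable fun n => (c n : ℂ) * exp (-(s * lam n)) := by
  refine Summable.of_norm_bounded (D.sum.mul_right (Real.exp (-(δ * (s.re - σ))))) fun n => ?_
  rw [dd_term, mul_assoc]
  exact mul_le_mul_of_nonneg_left (exp_split D hs n) (abs_nonneg _)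

/-- the derivative -/
theorem dd_deriv (D : Dat lam c δ σ) {s : ℂ} (hs : σ < s.re) :
    HasDerivAt (DD lam c) (-P lam c s) s := by
  have ho : IsOpen {z : ℂ | σ < z.re} := isOpen_lt continuous_const Complex.continuous_re
  have hb : ∀ (n : ℕ) (z : ℂ), z ∈ {z : ℂ | σ < z.re} → ‖(c n : ℂ) * exp (-(z * lam n))‖ ≤
      |c n| * Real.exp (-(σ * lam n)) := by
    intro n z hz
    rw [dd_term]
    refine mul_le_mul_of_nonneg_left (Real.exp_le_exp.2 ?_) (abs_nonneg _)
    have hz' : σ < z.re := hz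
    have := mul_le_mul_of_nonneg_right hz'.le (D.lam0 n).le
    linarith
  have hd : ∀ n : ℕ, DifferentiableOn ℂ (fun z : ℂ => (c n : ℂ) * exp (-(z * lam n)))
      {z : ℂ | σ < z.re} := fun n => Differentiable.differentiableOn (by fun_prop)
  have h1 := Complex.hasSum_deriv_of_summable_norm (U := {z : ℂ | σ < z.re})
    (F := fun (n : ℕ) (z : ℂ) => (c n : ℂ) * exp (-(z * lam n))) D.sum hd ho hb hs
  have h2 : DifferentiableOn ℂ (DD lam c) {z : ℂ | σ < z.re} :=
    Complex.differentiableOn_tsum_of_summable_norm D.sum hd ho hb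
  have h3 := (h2.differentiableAt (ho.mem_nhds hs)).hasDerivAt
  have h4 : deriv (DD lam c) s = -P lam c s := by
    have e1 : ∀ n, deriv (fun z : ℂ => (c n : ℂ) * exp (-(z * lam n))) s =
        -(((c n * lam n : ℝ) : ℂ) * exp (-(s * lam n))) := by
      intro n
      have h5 : HasDerivAt (fun z : ℂ => (c n : ℂ) * exp (-(z * lam n)))
          ((c n : ℂ) * (exp (-(s * lam n)) * (-(1 * (lam n : ℂ))))) s :=
        (((hasDerivAt_id s).mul_const _).neg.cexp).const_mul _
      rw [h5.deriv]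
      push_cast
      ring
    simp only [e1] at h1
    change HasSum _ (deriv (DD lam c) s) at h1
    rw [← h1.tsum_eq, tsum_neg]
    rfl
  rwa [h4] at h3

/-- the function `f(z) = D(z^α)` and its derivative -/
noncomputable def f₀ (lam c : ℕ → ℝ) (α : ℝ) (z : ℂ) : ℂ := DD lam c (z ^ (α : ℂ))

/-- its derivative -/
noncomputable def f₁ (lam c : ℕ → ℝ) (α : ℝ) (z : ℂ) : ℂ :=
  -(α * z ^ ((α : ℂ) - 1) * P lam c (z ^ (α : ℂ)))

/-- minus the derivative of `f z / z` -/
noncomputable def hh (f f' : ℂ → ℂ) (z : ℂ) : ℂ := f z / z ^ 2 - f' z / z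

lemma f₀_deriv (D : Dat lam c δ σ) {z : ℂ} (hz : 0 < z.re) (hs : σ < (z ^ (α : ℂ)).re) :
    HasDerivAt (f₀ lam c α) (f₁ lam c α z) z := by
  have h1 : HasDerivAt (DD lam c) (-P lam c (z ^ (α : ℂ))) (z ^ (α : ℂ)) := dd_deriv D hs
  have h2 := HasDerivAt.comp z h1 (pow_deriv (α := α) (slit hz))
  refine h2.congr_deriv ?_
  unfold f₁
  ring

/-- the abscissa from which on the line is in the region of convergence -/
theorem exists_abscissa (h0 : 0 < α) (h1 : α < 1) (σ : ℝ) : ∃ x₀ : ℝ, 1 ≤ x₀ ∧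
    ∀ z : ℂ, 0 < z.re → x₀ ≤ ‖z‖ → σ + 1 ≤ kap α * ‖z‖ ^ α := by
  have hk := kap_pos h0 h1
  have h2 : Tendsto (fun x : ℝ => kap α * x ^ α) atTop atTop :=
    (tendsto_rpow_atTop h0).const_mul_atTop hk
  obtain ⟨x₀, hx₀⟩ := (h2.eventually_ge_atTop (σ + 1)).exists_forall_of_atTop
  exact ⟨max 1 x₀, le_max_left _ _, fun z _ hz => hx₀ _ ((le_max_right _ _).trans hz)⟩

/-- **the mean as a line integral** -/
theorem M_eq (D : Dat lam c δ σ) (h0 : 0 < α) (h1 : α < 1) {x y : ℝ} (hx : 0 < x) (hy : 0 < y)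
    (hxs : ∀ z : ℂ, z.re = x → σ ≤ kap α * ‖z‖ ^ α) :
    (M lam c α y : ℂ) = V x (fun z => exp (z * y) * (f₀ lam c α z / z)) ∧
      Summable (fun n => c n * wml α (lam n * y ^ (-α))) := by
  have hk := kap_pos h0 h1
  have hδ := D.δ0
  obtain ⟨C, hC, hC'⟩ := stretched h0 (a := δ * kap α) (by positivity)
  set K : ℝ := Real.exp (x * y) * Real.exp (δ * σ) / x * C with hK
  have hre : ∀ t : ℝ, ((x : ℂ) + t * I).re = x := fun t => by simp
  have him : ∀ t : ℝ, ((x : ℂ) + t * I).im = t := fun t => by simp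
  -- the terms
  set T : ℕ → ℝ → ℂ := fun n t => (c n : ℂ) *
    (exp (((x : ℂ) + t * I) * y - lam n * ((x : ℂ) + t * I) ^ (α : ℂ)) / ((x : ℂ) + t * I)) with hT
  have hT1 : ∀ n t, ‖T n t‖ ≤ (|c n| * Real.exp (-(σ * lam n))) *
      (K * (1 + |t|) ^ (-(2 : ℝ))) := by
    intro n t
    set z : ℂ := (x : ℂ) + t * I with hz
    have hz0 : 0 < z.re := by rw [hz, hre]; exact hx
    have hn : x ≤ ‖z‖ := by
      have := re_le_norm z
      rwa [hz, hre] at this
    have hzn : 0 < ‖z‖ := hx.trans_le hn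
    have h2 := hxs z (by rw [hz, hre])
    have h3 := re_pow_ge h0 h1 hz0
    rw [hT]
    simp only
    rw [norm_mul, norm_div, Complex.norm_real, Real.norm_eq_abs, Complex.norm_exp]
    have e1 : (z * y - lam n * z ^ (α : ℂ)).re = x * y - lam n * (z ^ (α : ℂ)).re := by
      rw [Complex.sub_re, Complex.re_mul_ofReal, Complex.re_ofReal_mul, hz, hre]
    rw [e1]
    have e2 : Real.exp (x * y - lam n * (z ^ (α : ℂ)).re) ≤ Real.exp (x * y) *
        (Real.exp (-(σ * lam n)) * (Real.exp (δ * σ) * Real.exp (-(δ * kap α * |t| ^ α)))) := by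
      rw [← Real.exp_add, ← Real.exp_add, ← Real.exp_add]
      apply Real.exp_le_exp.2
      have e3 := mul_le_mul_of_nonneg_left h3 (D.lam0 n).le
      have e4 := mul_le_mul_of_nonneg_left (D.lam_ge n) (sub_nonneg.2 h2)
      have e5 : |t| ^ α ≤ ‖z‖ ^ α := by
        refine Real.rpow_le_rpow (abs_nonneg _) ?_ h0.le
        have := abs_im_le_norm z
        rwa [hz, him] at this
      have e6 := mul_le_mul_of_nonneg_left e5 (by positivity : 0 ≤ δ * kap α)
      nlinarith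
    calc |c n| * (Real.exp (x * y - lam n * (z ^ (α : ℂ)).re) / ‖z‖) ≤
          |c n| * ((Real.exp (x * y) * (Real.exp (-(σ * lam n)) *
            (Real.exp (δ * σ) * Real.exp (-(δ * kap α * |t| ^ α))))) / x) := by
            refine mul_le_mul_of_nonneg_left (div_le_div₀ (by positivity) e2 hx hn) (abs_nonneg _)
      _ ≤ |c n| * ((Real.exp (x * y) * (Real.exp (-(σ * lam n)) *
            (Real.exp (δ * σ) * (C * (1 + |t|) ^ (-(2 : ℝ)))))) / x) := by
            gcongr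
            exact hC' |t| (abs_nonneg _)
      _ = _ := by rw [hK]; ring
  have hdec := decay_int (p := 2) (by norm_num)
  have hTi : ∀ n, Integrable (T n) := by
    intro n
    refine Integrable.mono' ((hdec.const_mul K).const_mul _) ?_ (ae_of_all _ (hT1 n))
    refine Continuous.aestronglyMeasurable ?_
    refine line_cont (H := fun z : ℂ => (c n : ℂ) * (exp (z * y - lam n * z ^ (α : ℂ)) / z))
      fun s hs => ?_
    have hs0 : 0 < s.re := by rw [hs]; exact hx
    refine DifferentiableAt.continuousAt (𝕜 := ℂ) ?_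
    refine DifferentiableAt.const_mul ?_ _
    refine DifferentiableAt.div ?_ differentiableAt_id (ne_zero' hs0)
    exact ((differentiableAt_id.mul_const _).sub
      ((pow_deriv (slit hs0)).differentiableAt.const_mul _)).cexp
  have hSum := hasSum_integral_of_summable_integral_norm (μ := volume) hTi
    (Summable.of_nonneg_of_le (fun n => by positivity) (fun n => by
      have := integral_mono (hTi n).norm ((hdec.const_mul K).const_mul
        (|c n| * Real.exp (-(σ * lam n)))) (hT1 n)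
      rwa [integral_const_mul] at this) (D.sum.mul_right _))
  have hTn : ∀ n, ((2 * Real.pi)⁻¹ : ℝ) * ∫ t, T n t = ((c n * wml α (lam n * y ^ (-α)) : ℝ) : ℂ) := by
    intro n
    have e1 := V_scaled h0 h1 (D.lam0 n) hy hx
    rw [wc_eq h0 h1 (mul_pos (D.lam0 n) (Real.rpow_pos_of_pos hy _))] at e1
    rw [Complex.ofReal_mul, ← e1]
    unfold V
    rw [hT]
    simp only
    rw [integral_const_mul]
    ring
  have hSum2 := hSum.mul_left (((2 * Real.pi)⁻¹ : ℝ) : ℂ)
  simp only [hTn] at hSum2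
  have hval : (((2 * Real.pi)⁻¹ : ℝ) : ℂ) * ∫ t, ∑' n, T n t =
      V x (fun z => exp (z * y) * (f₀ lam c α z / z)) := by
    unfold V
    congr 2
    funext t
    rw [hT]
    simp only
    unfold f₀ DD
    rw [← mul_div_assoc, ← tsum_mul_left, ← tsum_div_const]
    refine tsum_congr fun n => ?_
    rw [sub_eq_add_neg, Complex.exp_add]
    have : -((lam n : ℂ) * ((x : ℂ) + t * I) ^ (α : ℂ)) = -(((x : ℂ) + t * I) ^ (α : ℂ) * lam n) := by
      ring
    rw [this]
    ring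
  rw [hval] at hSum2
  have hs : Summable (fun n => c n * wml α (lam n * y ^ (-α))) := by
    have := (Complex.reCLM.hasSum hSum2).summable
    simpa using this
  refine ⟨?_, hs⟩
  rw [← hSum2.tsum_eq]
  unfold M
  push_cast
  rfl

end Pool.Agent.TH942.SL
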